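import Mathlib

/-!
# Exponentials, geometric sums and orthogonality
-/

set_option autoImplicit false

open Finset

namespace Pool.Agent.H502.XQ

/-- `e(x) = exp(2πix)` -/
noncomputable def E (x : ℝ) : ℂ := Complex.exp (2 * (Real.pi : ℂ) * Complex.I * (x : ℂ))

lemma norm_E (x : ℝ) : ‖E x‖ = 1 := by
  unfold E
  have h : 2 * (Real.pi : ℂ) * Complex.I * (x : ℂ) = ((2 * Real.pi * x : ℝ) : ℂ) * Complex.I := by
    push_cast; ring
  rw [h, Complex.norm_exp_ofReal_mul_I]

lemma E_add (x y : ℝ) : E (x + y) = E x * E y := by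
  unfold E
  rw [← Complex.exp_add]
  congr 1
  push_cast
  ring

lemma E_zero : E 0 = 1 := by
  unfold E
  simp

lemma E_int (m : ℤ) : E m = 1 := by
  unfold E
  rw [Complex.exp_eq_one_iff]
  exact ⟨m, by push_cast; ring⟩

lemma conj_E (x : ℝ) : (starRingEnd ℂ) (E x) = E (-x) := by
  unfold E
  rw [← Complex.exp_conj]
  congr 1
  simp only [map_mul, Complex.conj_I, Complex.conj_ofReal, map_ofNat]
  push_cast
  ring

lemma E_nat_mul (k : ℕ) (x : ℝ) : E (k * x) = E x ^ k := by
  induction k with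
  | zero => simp [E_zero]
  | succ k ih =>
    rw [pow_succ, ← ih, ← E_add]
    congr 1
    push_cast
    ring

lemma norm_E_sub_one {x : ℝ} (h : |x| ≤ 1 / 2) : 4 * |x| ≤ ‖E x - 1‖ := by
  have h2 := Complex.norm_exp_I_mul_ofReal_sub_one (x := 2 * Real.pi * x)
  have h3 : E x = Complex.exp (Complex.I * ((2 * Real.pi * x : ℝ) : ℂ)) := by
    unfold E
    congr 1
    push_cast
    ring
  rw [h3, h2]
  have h4 : 2 * Real.pi * x / 2 = Real.pi * x := by ring
  rw [h4, norm_mul, Real.norm_eq_abs, Real.norm_eq_abs]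
  have h5 : |Real.sin (Real.pi * x)| = Real.sin (Real.pi * |x|) := by
    rcases abs_choice x with h' | h'
    · rw [h', abs_of_nonneg]
      have h0 : 0 ≤ x := by rw [← h']; exact abs_nonneg _
      apply Real.sin_nonneg_of_nonneg_of_le_pi (by positivity)
      have : x ≤ 1 / 2 := (le_abs_self x).trans h
      nlinarith [Real.pi_pos]
    · rw [h']
      have h0 : 0 ≤ -x := by rw [← h']; exact abs_nonneg _
      have h1 : -x ≤ 1 / 2 := by rw [← h']; exact h
      rw [mul_neg, Real.sin_neg, abs_of_nonpos]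
      have : 0 ≤ Real.sin (Real.pi * -x) := by
        apply Real.sin_nonneg_of_nonneg_of_le_pi (by positivity)
        nlinarith [Real.pi_pos]
      rw [mul_neg, Real.sin_neg] at this
      linarith
  rw [h5]
  have h6 := Real.mul_le_sin (x := Real.pi * |x|) (by positivity)
    (by have := abs_nonneg x; nlinarith [Real.pi_pos])
  have h7 : 2 / Real.pi * (Real.pi * |x|) = 2 * |x| := by
    have := Real.pi_pos
    field_simp
  rw [h7] at h6
  rw [abs_of_pos (by norm_num : (0 : ℝ) < 2)]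
  linarith

/-- geometric sums -/
lemma geom_le {x : ℝ} (h0 : x ≠ 0) (h1 : |x| ≤ 1 / 2) (R : ℕ) :
    ‖∑ b ∈ range R, E (b * x)‖ ≤ 1 / (2 * |x|) := by
  have hx : 0 < |x| := abs_pos.mpr h0
  have h2 := norm_E_sub_one h1
  have hg : (∑ b ∈ range R, E (b * x)) * (E x - 1) = E (R * x) - 1 := by
    simp only [E_nat_mul]
    exact geom_sum_mul (E x) R
  have h3 : ‖∑ b ∈ range R, E (b * x)‖ * ‖E x - 1‖ ≤ 2 := by
    rw [← norm_mul, hg]
    refine (norm_sub_le _ _).trans ?_
    rw [norm_E, norm_one]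
    norm_num
  have h4 : ‖∑ b ∈ range R, E (b * x)‖ * (4 * |x|) ≤ 2 :=
    (mul_le_mul_of_nonneg_left h2 (norm_nonneg _)).trans h3
  rw [le_div_iff₀ (by positivity)]
  linarith

lemma geom_zero {q : ℕ} (hq : 0 < q) {m : ℤ} (hm : ¬ (q : ℤ) ∣ m) :
    ∑ a ∈ range q, E (a * ((m : ℝ) / q)) = 0 := by
  have hq0 : (q : ℝ) ≠ 0 := by exact_mod_cast hq.ne'
  have hg : (∑ a ∈ range q, E (a * ((m : ℝ) / q))) * (E ((m : ℝ) / q) - 1) = 0 := by
    simp only [E_nat_mul]
    rw [geom_sum_mul, ← E_nat_mul]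
    have : (q : ℝ) * ((m : ℝ) / q) = ((m : ℤ) : ℝ) := by field_simp
    rw [this, E_int, sub_self]
  rcases mul_eq_zero.mp hg with h | h
  · exact h
  · exfalso
    apply hm
    have h2 : E ((m : ℝ) / q) = 1 := sub_eq_zero.mp h
    unfold E at h2
    rw [Complex.exp_eq_one_iff] at h2
    obtain ⟨n, hn⟩ := h2
    have h3 : (2 * (Real.pi : ℂ) * Complex.I) * (((m : ℝ) / q : ℝ) : ℂ) =
        (2 * (Real.pi : ℂ) * Complex.I) * (n : ℂ) := by
      rw [hn]; ring
    have h4 := mul_left_cancel₀ Complex.two_pi_I_ne_zero h3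
    have h5 : (m : ℝ) / q = n := by exact_mod_cast h4
    refine ⟨n, ?_⟩
    have h6 : (m : ℝ) = q * n := by
      rw [← h5]; field_simp
    exact_mod_cast h6

/-- Parseval -/
lemma parseval {q H : ℕ} (hq : 0 < q) (hH : H ≤ q) (c : ℕ → ℂ) :
    ∑ a ∈ range q, ‖∑ i ∈ range H, c i * E (a * ((i : ℝ) / q))‖ ^ 2 = q * ∑ i ∈ range H, ‖c i‖ ^ 2 := by
  have key : ((∑ a ∈ range q, ‖∑ i ∈ range H, c i * E (a * ((i : ℝ) / q))‖ ^ 2 : ℝ) : ℂ) =
      ((q * ∑ i ∈ range H, ‖c i‖ ^ 2 : ℝ) : ℂ) := by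
    push_cast
    have h1 : ∀ a ∈ range q, ((‖∑ i ∈ range H, c i * E (a * ((i : ℝ) / q))‖ : ℂ)) ^ 2 =
        ∑ i ∈ range H, ∑ i' ∈ range H, c i * (starRingEnd ℂ) (c i') *
          E (a * ((((i : ℤ) - (i' : ℤ) : ℤ) : ℝ) / q)) := by
      intro a _
      rw [← Complex.mul_conj', map_sum, sum_mul_sum]
      apply sum_congr rfl
      intro i _
      apply sum_congr rfl
      intro i' _
      rw [map_mul, conj_E]
      have h2 : E (a * ((((i : ℤ) - (i' : ℤ) : ℤ) : ℝ) / q)) =
          E (a * ((i : ℝ) / q)) * E (-(a * ((i' : ℝ) / q))) := by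
        rw [← E_add]
        congr 1
        push_cast
        ring
      rw [h2]
      ring
    rw [sum_congr rfl h1, sum_comm]
    rw [mul_sum]
    apply sum_congr rfl
    intro i hi
    rw [sum_comm]
    have h3 : ∀ i' ∈ range H, ∑ a ∈ range q, c i * (starRingEnd ℂ) (c i') *
        E (a * ((((i : ℤ) - (i' : ℤ) : ℤ) : ℝ) / q)) =
        if i' = i then (q : ℂ) * (‖c i‖ : ℂ) ^ 2 else 0 := by
      intro i' hi'
      rw [← mul_sum]
      split_ifs with h
      · subst h
        have h4 : ∀ a ∈ range q, E (a * ((((i' : ℤ) - (i' : ℤ) : ℤ) : ℝ) / q)) = 1 := by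
          intro a _
          rw [sub_self, Int.cast_zero, zero_div, mul_zero, E_zero]
        rw [sum_congr rfl h4]
        simp only [sum_const, card_range, nsmul_eq_mul, mul_one]
        rw [Complex.mul_conj']
        ring
      · rw [geom_zero hq, mul_zero]
        intro hd
        have h5 : ((i : ℤ) - (i' : ℤ)) ≠ 0 := by
          intro h6
          apply h
          omega
        have h6 := Int.le_of_dvd (abs_pos.mpr h5) ((dvd_abs _ _).mpr hd)
        have hi1 := mem_range.mp hi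
        have hi2 := mem_range.mp hi'
        have h7 : |(i : ℤ) - (i' : ℤ)| < q := by
          rw [abs_lt]
          constructor <;> omega
        omega
    rw [sum_congr rfl h3, sum_ite_eq' (range H) i]
    simp [hi]
  exact_mod_cast key

end Pool.Agent.H502.XQ
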