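import Pool.Agent.H502.XQ.D9

/-!
# Upper bounds for all derivatives
-/

set_option autoImplicit false

open Finset

namespace Pool.Agent.H502.XQ

/-- for a large number `P` of conditions the sums are larger than `√N g(N)` -/
lemma large_P {s η t : ℝ} (hs : 0 < s) (hη : 0 < η) (ht : 1 < t) {g : ℝ → ℝ}
    (hg : ∀ ε : ℝ, 0 < ε → ∃ X : ℝ, ∀ x : ℝ, X ≤ x → g x ≤ x ^ ε) {P : ℕ} (hP1 : 1 ≤ P) (hPt : t ≤ P)
    (hPt2 : t / (t - 1) ≤ P) :
    ∃ X : ℝ, ∀ N : ℝ, X ≤ N → ∃ f : ℝ → ℝ, ClassP N P s (N ^ (t - 1 + s)) η f ∧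
      (∀ p : ℕ, ∀ x ∈ Set.Icc N (2 * N), |iteratedDerivWithin (p + 1) f (Set.Icc N (2 * N)) x| ≤
        (poch s p + 1) * (N ^ t / N ^ (p + 1)) + Aseq (p + 1)) ∧ ∃ N' : ℝ, N ≤ N' ∧ N' ≤ 2 * N ∧
      √N * g N ≤ ‖∑ n ∈ Icc ⌈N⌉₊ ⌊N'⌋₊, E (f n)‖ := by
  obtain ⟨c, hc, N₀, hN₀, hmain⟩ := class_main P hP1 s η hs hη
  have hP0 : (0 : ℝ) < P := by exact_mod_cast hP1
  have ht1 : 0 < t - 1 := by linarith
  have ht0 : 0 < t := by linarith
  set ε : ℝ := t / (8 * P) with hε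
  have hε0 : 0 < ε := by positivity
  obtain ⟨X₁, hX₁⟩ := hg ε hε0
  have hlo := (isLittleO_log_rpow_atTop (r := ε) hε0).def (c := 1) one_pos
  have htend := (tendsto_rpow_atTop (y := 2 * ε) (by positivity)).eventually_ge_atTop (1 / c)
  have htend2 := (tendsto_rpow_atTop (y := t - 1) ht1).eventually_ge_atTop N₀
  obtain ⟨X₂, hX₂⟩ := Filter.eventually_atTop.mp ((hlo.and htend).and htend2)
  refine ⟨max (max X₁ X₂) N₀, fun N hN => ?_⟩
  have hNX1 : X₁ ≤ N := ((le_max_left _ _).trans (le_max_left _ _)).trans hN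
  have hNX2 : X₂ ≤ N := ((le_max_right _ _).trans (le_max_left _ _)).trans hN
  have hNN0 : N₀ ≤ N := (le_max_right _ _).trans hN
  obtain ⟨⟨hlog, hpow⟩, hN3⟩ := hX₂ N hNX2
  have hgN := hX₁ N hNX1
  have hN16 : 16 ≤ N := by linarith
  have hN0 : 0 < N := by linarith
  have hy : N ^ (t - 1 + s) * N ^ (-s) = N ^ (t - 1) := by
    rw [← Real.rpow_add hN0]
    congr 1
    ring
  obtain ⟨f, hf, hfA, N', hN'1, hN'2, hsum⟩ := hmain N (N ^ (t - 1 + s)) hNN0 (by rw [hy]; exact hN3)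
  refine ⟨f, hf, ?_, N', hN'1, hN'2, ?_⟩
  · intro p x hx
    have h1 := hfA p x hx
    have h2 : N ^ (t - 1 + s) * N ^ (-s - (p : ℝ)) = N ^ t / N ^ (p + 1) := by
      rw [← Real.rpow_add hN0, ← Real.rpow_natCast N (p + 1), ← Real.rpow_sub hN0]
      congr 1
      push_cast
      ring
    rwa [h2] at h1
  · have hF : N ^ (t - 1) * N = N ^ t := by
      nth_rewrite 2 [← Real.rpow_one N]
      rw [← Real.rpow_add hN0]
      congr 1
      ring
    rw [hy, hF] at hsum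
    refine le_trans ?_ hsum
    have hlogpos : 0 < Real.log N := Real.log_pos (by linarith)
    rw [Real.norm_eq_abs, Real.norm_eq_abs, abs_of_pos hlogpos, one_mul,
      abs_of_pos (Real.rpow_pos_of_pos hN0 _)] at hlog
    have hsz := size_pow (P := P) (t := t) (N := N) (by linarith)
    have hexp : min (min (t / 2) (1 / 2 + t / (2 * (P : ℝ)))) 1 = 1 / 2 + 4 * ε := by
      have e1 : t / (2 * (P : ℝ)) = 4 * ε := by
        rw [hε]
        field_simp
        ring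
      rw [e1]
      have k1 : 1 / 2 + 4 * ε ≤ t / 2 := by
        rw [← e1]
        have : t / (P : ℝ) ≤ t - 1 := by
          rw [div_le_iff₀ hP0]
          rw [div_le_iff₀ ht1] at hPt2
          linarith
        have e2 : t / (2 * (P : ℝ)) = (t / P) / 2 := by field_simp
        rw [e2]
        linarith
      have k2 : 1 / 2 + 4 * ε ≤ 1 := by
        rw [← e1]
        have : t / (2 * (P : ℝ)) ≤ 1 / 2 := by
          rw [div_le_iff₀ (by positivity)]
          linarith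
        linarith
      rw [min_eq_right k1, min_eq_left k2]
    rw [hexp] at hsz
    rw [le_div_iff₀ hlogpos]
    have hNε : 0 < N ^ ε := Real.rpow_pos_of_pos hN0 _
    have hcp : 1 ≤ c * N ^ (2 * ε) := by
      have : 1 / c ≤ N ^ (2 * ε) := hpow
      rw [div_le_iff₀ hc] at this
      linarith
    calc √N * g N * Real.log N ≤ √N * N ^ ε * N ^ ε := by
          have hg0 : g N * Real.log N ≤ N ^ ε * N ^ ε := by
            by_cases hgn : 0 ≤ g N
            · exact mul_le_mul hgN hlog hlogpos.le hNε.le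
            · push Not at hgn
              have : g N * Real.log N ≤ 0 := mul_nonpos_of_nonpos_of_nonneg hgn.le hlogpos.le
              have : 0 ≤ N ^ ε * N ^ ε := by positivity
              linarith
          rw [mul_assoc, mul_assoc]
          exact mul_le_mul_of_nonneg_left hg0 (Real.sqrt_nonneg _)
      _ = √N * N ^ (2 * ε) * 1 := by
          rw [mul_assoc, ← Real.rpow_add hN0, mul_one]
          congr 2
          ring
      _ ≤ √N * N ^ (2 * ε) * (c * N ^ (2 * ε)) := by gcongr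
      _ = c * N ^ (1 / 2 + 4 * ε) := by
          have : N ^ (1 / 2 + 4 * ε) = √N * (N ^ (2 * ε) * N ^ (2 * ε)) := by
            rw [Real.sqrt_eq_rpow, ← Real.rpow_add hN0, ← Real.rpow_add hN0]
            congr 1
            ring
          rw [this]
          ring
      _ ≤ c * size P N (N ^ t) := by gcongr

/-- **No fixed function of subpolynomial growth**: with upper bounds for all derivatives -/
theorem smooth_class (s η t : ℝ) (P₀ : ℕ) (hs : 0 < s) (hη : 0 < η) (ht : 1 < t) (g : ℝ → ℝ)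
    (hg : ∀ ε : ℝ, 0 < ε → ∃ X : ℝ, ∀ x : ℝ, X ≤ x → g x ≤ x ^ ε) :
    ∃ C : ℕ → ℝ, ∃ N₀ : ℝ, ∀ N : ℝ, N₀ ≤ N → ∃ f : ℝ → ℝ, ClassP N P₀ s (N ^ (t - 1 + s)) η f ∧
      (∀ p : ℕ, ∀ x ∈ Set.Icc N (2 * N), |iteratedDerivWithin (p + 1) f (Set.Icc N (2 * N)) x| ≤
        C p * (N ^ t / N ^ (p + 1))) ∧ ∃ N' : ℝ, N ≤ N' ∧ N' ≤ 2 * N ∧
      √N * g N ≤ ‖∑ n ∈ Icc ⌈N⌉₊ ⌊N'⌋₊, E (f n)‖ := by
  classical
  set P₁ : ℕ := max (max P₀ 1) (max ⌈t⌉₊ ⌈t / (t - 1)⌉₊) with hP₁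
  have hP₁0 : P₀ ≤ P₁ := (le_max_left _ _).trans (le_max_left _ _)
  have hP₁1 : 1 ≤ P₁ := (le_max_right _ _).trans (le_max_left _ _)
  have hP₁t : t ≤ P₁ := (Nat.le_ceil t).trans (by exact_mod_cast (le_max_left _ _).trans (le_max_right _ _))
  have hP₁t2 : t / (t - 1) ≤ P₁ :=
    (Nat.le_ceil _).trans (by exact_mod_cast (le_max_right _ _).trans (le_max_right _ _))
  have hex : ∀ P : ℕ, ∃ X : ℝ, P₁ ≤ P → ∀ N : ℝ, X ≤ N → ∃ f : ℝ → ℝ, ClassP N P s (N ^ (t - 1 + s)) η f ∧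
      (∀ p : ℕ, ∀ x ∈ Set.Icc N (2 * N), |iteratedDerivWithin (p + 1) f (Set.Icc N (2 * N)) x| ≤
        (poch s p + 1) * (N ^ t / N ^ (p + 1)) + Aseq (p + 1)) ∧ ∃ N' : ℝ, N ≤ N' ∧ N' ≤ 2 * N ∧
      √N * g N ≤ ‖∑ n ∈ Icc ⌈N⌉₊ ⌊N'⌋₊, E (f n)‖ := by
    intro P
    by_cases h : P₁ ≤ P
    · have hc : (P₁ : ℝ) ≤ P := by exact_mod_cast h
      obtain ⟨X, hX⟩ := large_P hs hη ht hg (hP₁1.trans h) (hP₁t.trans hc) (hP₁t2.trans hc)
      exact ⟨X, fun _ => hX⟩
    · exact ⟨0, fun h' => absurd h' h⟩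
  choose X hX using hex
  refine ⟨fun p => (1 + η) * poch s p + (poch s p + 1) + Aseq (p + 1) * (max (p + 2 : ℝ) (X (p + 1))) ^ (p + 1),
    max (max (X P₁) P₁) 1, ?_⟩
  intro N hN
  have hN1 : 1 ≤ N := (le_max_right _ _).trans hN
  have hNP : (P₁ : ℝ) ≤ N := ((le_max_right _ _).trans (le_max_left _ _)).trans hN
  have hNX : X P₁ ≤ N := ((le_max_left _ _).trans (le_max_left _ _)).trans hN
  have hN0 : 0 < N := by linarith
  set P : ℕ := Nat.findGreatest (fun P => P₁ ≤ P ∧ X P ≤ N) ⌊N⌋₊ with hP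
  have hspec : P₁ ≤ P ∧ X P ≤ N := by
    have := Nat.findGreatest_spec (P := fun P => P₁ ≤ P ∧ X P ≤ N) (n := ⌊N⌋₊) (m := P₁)
      (Nat.le_floor hNP) ⟨le_rfl, hNX⟩
    exact this
  obtain ⟨f, hf, hfA, N', hN'1, hN'2, hsum⟩ := hX P hspec.1 N hspec.2
  refine ⟨f, ⟨hf.1, fun p hp => hf.2 p (lt_of_lt_of_le hp (hP₁0.trans hspec.1))⟩, ?_, N', hN'1, hN'2, hsum⟩
  intro p x hx
  have hx0 : 0 < x := hN0.trans_le hx.1
  have hpoch : 0 < poch s p := lt_of_lt_of_le (by positivity) (poch_ge hs (le_refl p))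
  have hA := Aseq_nonneg (p + 1)
  have hNt : 0 < N ^ t := Real.rpow_pos_of_pos hN0 _
  have hQ : 0 < N ^ t / N ^ (p + 1) := by positivity
  have hmx : (0 : ℝ) ≤ max (p + 2 : ℝ) (X (p + 1)) := by
    refine le_trans ?_ (le_max_left _ _)
    positivity
  by_cases hpP : p < P
  · have h1 := hf.2 p hpP x hx
    have hy : N ^ (t - 1 + s) * x ^ (-s - (p : ℝ)) ≤ N ^ t / N ^ (p + 1) := by
      have h2 : x ^ (-s - (p : ℝ)) ≤ N ^ (-s - (p : ℝ)) := by
        apply Real.rpow_le_rpow_of_nonpos hN0 hx.1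
        have : (0 : ℝ) ≤ p := Nat.cast_nonneg _
        linarith
      calc N ^ (t - 1 + s) * x ^ (-s - (p : ℝ)) ≤ N ^ (t - 1 + s) * N ^ (-s - (p : ℝ)) := by gcongr
        _ = N ^ t / N ^ (p + 1) := by
          rw [← Real.rpow_add hN0, ← Real.rpow_natCast N (p + 1), ← Real.rpow_sub hN0]
          congr 1
          push_cast
          ring
    have hxp : 0 < x ^ (-s - (p : ℝ)) := Real.rpow_pos_of_pos hx0 _
    have hyp : 0 < N ^ (t - 1 + s) := Real.rpow_pos_of_pos hN0 _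
    have h3 : |(-1 : ℝ) ^ p * poch s p * N ^ (t - 1 + s) * x ^ (-s - (p : ℝ))| =
        poch s p * (N ^ (t - 1 + s) * x ^ (-s - (p : ℝ))) := by
      rw [abs_mul, abs_mul, abs_mul, abs_pow, abs_neg, abs_one, one_pow, one_mul, abs_of_pos hpoch,
        abs_of_pos hyp, abs_of_pos hxp, mul_assoc]
    have h4 : |iteratedDerivWithin (p + 1) f (Set.Icc N (2 * N)) x| ≤
        (1 + η) * (poch s p * (N ^ (t - 1 + s) * x ^ (-s - (p : ℝ)))) := by
      have h5 := abs_sub_abs_le_abs_sub (iteratedDerivWithin (p + 1) f (Set.Icc N (2 * N)) x)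
        ((-1 : ℝ) ^ p * poch s p * N ^ (t - 1 + s) * x ^ (-s - (p : ℝ)))
      rw [h3] at h5
      have h6 : η * (poch s p * N ^ (t - 1 + s) * x ^ (-s - (p : ℝ))) =
        η * (poch s p * (N ^ (t - 1 + s) * x ^ (-s - (p : ℝ)))) := by ring
      rw [h6] at h1
      linarith
    calc |iteratedDerivWithin (p + 1) f (Set.Icc N (2 * N)) x|
        ≤ (1 + η) * (poch s p * (N ^ (t - 1 + s) * x ^ (-s - (p : ℝ)))) := h4
      _ ≤ (1 + η) * (poch s p * (N ^ t / N ^ (p + 1))) := by gcongr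
      _ = ((1 + η) * poch s p) * (N ^ t / N ^ (p + 1)) := by ring
      _ ≤ _ := by
        apply mul_le_mul_of_nonneg_right _ hQ.le
        have : 0 ≤ Aseq (p + 1) * (max (p + 2 : ℝ) (X (p + 1))) ^ (p + 1) := by positivity
        linarith
  · push Not at hpP
    have hNB : N ≤ max (p + 2 : ℝ) (X (p + 1)) := by
      by_cases h1 : p + 1 ≤ ⌊N⌋₊
      · have h2 := Nat.findGreatest_is_greatest (P := fun P => P₁ ≤ P ∧ X P ≤ N) (n := ⌊N⌋₊) (k := p + 1)
          (by rw [← hP]; omega) h1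
        have h3 : ¬ (X (p + 1) ≤ N) := fun h => h2 ⟨by have := hspec.1; omega, h⟩
        push Not at h3
        exact h3.le.trans (le_max_right _ _)
      · push Not at h1
        have h2 : N < ⌊N⌋₊ + 1 := Nat.lt_floor_add_one N
        have h3 : (⌊N⌋₊ : ℝ) < (p + 1 : ℕ) := by exact_mod_cast h1
        push_cast at h3
        refine le_trans ?_ (le_max_left _ _)
        linarith
    have h1 := hfA p x hx
    have h2 : Aseq (p + 1) ≤ Aseq (p + 1) * (max (p + 2 : ℝ) (X (p + 1))) ^ (p + 1) * (N ^ t / N ^ (p + 1)) := by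
      have h3 : N ^ (p + 1) ≤ (max (p + 2 : ℝ) (X (p + 1))) ^ (p + 1) := by gcongr
      have h4 : 1 ≤ N ^ t := Real.one_le_rpow hN1 (by linarith)
      have h5 : 1 ≤ (max (p + 2 : ℝ) (X (p + 1))) ^ (p + 1) * (N ^ t / N ^ (p + 1)) := by
        rw [← mul_div_assoc, le_div_iff₀ (by positivity), one_mul]
        calc N ^ (p + 1) = N ^ (p + 1) * 1 := (mul_one _).symm
          _ ≤ _ := mul_le_mul h3 h4 (by norm_num) (by positivity)
      calc Aseq (p + 1) = Aseq (p + 1) * 1 := (mul_one _).symm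
        _ ≤ Aseq (p + 1) * ((max (p + 2 : ℝ) (X (p + 1))) ^ (p + 1) * (N ^ t / N ^ (p + 1))) := by gcongr
        _ = _ := by ring
    have h6 : 0 ≤ (1 + η) * poch s p * (N ^ t / N ^ (p + 1)) := by positivity
    calc |iteratedDerivWithin (p + 1) f (Set.Icc N (2 * N)) x|
        ≤ (poch s p + 1) * (N ^ t / N ^ (p + 1)) + Aseq (p + 1) := h1
      _ ≤ (1 + η) * poch s p * (N ^ t / N ^ (p + 1)) + (poch s p + 1) * (N ^ t / N ^ (p + 1)) +
          Aseq (p + 1) * (max (p + 2 : ℝ) (X (p + 1))) ^ (p + 1) * (N ^ t / N ^ (p + 1)) := by linarith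
      _ = _ := by ring

end Pool.Agent.H502.XQ
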