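import Pool.Agent.H502.XQ.D10

/-!
# The fourth moment over the full range of the quadratic terms
-/

set_option autoImplicit false

open Finset

namespace Pool.Agent.H502.XQ

lemma sum_b' {B : ℝ} {R H : ℕ} (K : ℕ → ℕ → ℕ → ℝ)
    (hker : ∀ x₁ x₂ y : ℕ, x₁ < H → x₂ < H → y < H →
      ‖∑ b ∈ range R, E (b * (B / R * (2 * ((x₁ : ℝ) - y) * ((y : ℝ) - x₂))))‖ ≤ R * K x₁ x₂ y)
    (U : ℕ → ℂ) (hU : ∀ i, ‖U i‖ ≤ 2) (A : ℝ) (s : ℕ) :
    ∑ b ∈ range R, ‖C2 (fun i => U i * E (b * (B / R * (A + i) ^ 2))) H s‖ ^ 2 ≤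
      ∑ x ∈ (range H ×ˢ range H).filter (fun x => x.1 + x.2 = s),
        ∑ y ∈ (range H ×ˢ range H).filter (fun x => x.1 + x.2 = s),
          16 * (R * K x.1 x.2 y.1) := by
  set T := (range H ×ˢ range H).filter (fun x => x.1 + x.2 = s) with hT
  have key : ((∑ b ∈ range R, ‖C2 (fun i => U i * E (b * (B / R * (A + i) ^ 2))) H s‖ ^ 2 : ℝ) : ℂ) =
      ∑ x ∈ T, ∑ y ∈ T, (U x.1 * U x.2 * (starRingEnd ℂ) (U y.1 * U y.2)) *
        ∑ b ∈ range R, E (b * (B / R * (2 * ((x.1 : ℝ) - y.1) * ((y.1 : ℝ) - x.2)))) := by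
    push_cast
    have h1 : ∀ b ∈ range R, ((‖C2 (fun i => U i * E (b * (B / R * (A + i) ^ 2))) H s‖ : ℂ)) ^ 2 =
        ∑ x ∈ T, ∑ y ∈ T, (U x.1 * U x.2 * (starRingEnd ℂ) (U y.1 * U y.2)) *
          E (b * (B / R * (2 * ((x.1 : ℝ) - y.1) * ((y.1 : ℝ) - x.2)))) := by
      intro b _
      rw [← Complex.mul_conj']
      unfold C2
      rw [map_sum, sum_mul_sum]
      apply sum_congr rfl
      intro x hx
      apply sum_congr rfl
      intro y hy
      have hx1 : (x.1 : ℝ) + x.2 = s := by exact_mod_cast (mem_filter.mp hx).2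
      have hy1 : (y.1 : ℝ) + y.2 = s := by exact_mod_cast (mem_filter.mp hy).2
      have h2 : E (b * (B / R * (2 * ((x.1 : ℝ) - y.1) * ((y.1 : ℝ) - x.2)))) =
          E (b * (B / R * (A + x.1) ^ 2)) * E (b * (B / R * (A + x.2) ^ 2)) *
          (E (-(b * (B / R * (A + y.1) ^ 2))) * E (-(b * (B / R * (A + y.2) ^ 2)))) := by
        rw [← E_add, ← E_add, ← E_add]
        congr 1
        have e1 : (x.2 : ℝ) = s - x.1 := by linarith
        have e2 : (y.2 : ℝ) = s - y.1 := by linarith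
        rw [e1, e2]
        ring
      rw [h2]
      simp only [map_mul, conj_E]
      ring
    rw [sum_congr rfl h1, sum_comm]
    apply sum_congr rfl
    intro x _
    rw [sum_comm]
    apply sum_congr rfl
    intro y _
    rw [mul_sum]
  have h0 : 0 ≤ ∑ b ∈ range R, ‖C2 (fun i => U i * E (b * (B / R * (A + i) ^ 2))) H s‖ ^ 2 :=
    sum_nonneg fun _ _ => by positivity
  have h3 := congrArg norm key
  rw [Complex.norm_real, Real.norm_eq_abs, abs_of_nonneg h0] at h3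
  rw [h3]
  refine (norm_sum_le _ _).trans (sum_le_sum fun x hx => (norm_sum_le _ _).trans (sum_le_sum fun y hy => ?_))
  rw [norm_mul]
  have hxm := mem_product.mp (mem_filter.mp hx).1
  have hym := mem_product.mp (mem_filter.mp hy).1
  have h5 := hker x.1 x.2 y.1 (mem_range.mp hxm.1) (mem_range.mp hxm.2) (mem_range.mp hym.1)
  have h6 : ‖U x.1 * U x.2 * (starRingEnd ℂ) (U y.1 * U y.2)‖ ≤ 16 := by
    rw [norm_mul, norm_mul, Complex.norm_conj, norm_mul]
    have k1 : ‖U x.1‖ * ‖U x.2‖ ≤ 4 := by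
      nlinarith [hU x.1, hU x.2, norm_nonneg (U x.1), norm_nonneg (U x.2)]
    have k2 : ‖U y.1‖ * ‖U y.2‖ ≤ 4 := by
      nlinarith [hU y.1, hU y.2, norm_nonneg (U y.1), norm_nonneg (U y.2)]
    have k3 : 0 ≤ ‖U y.1‖ * ‖U y.2‖ := by positivity
    calc ‖U x.1‖ * ‖U x.2‖ * (‖U y.1‖ * ‖U y.2‖) ≤ 4 * 4 := mul_le_mul k1 k2 k3 (by norm_num)
      _ = 16 := by norm_num
  exact mul_le_mul h6 h5 (norm_nonneg _) (by norm_num)

/-- the fourth moment for a general kernel -/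
lemma fourth_gen {B : ℝ} {R H q : ℕ} (K : ℕ → ℕ → ℕ → ℝ) (hK0 : ∀ x₁ x₂ y, 0 ≤ K x₁ x₂ y)
    (hker : ∀ x₁ x₂ y : ℕ, x₁ < H → x₂ < H → y < H →
      ‖∑ b ∈ range R, E (b * (B / R * (2 * ((x₁ : ℝ) - y) * ((y : ℝ) - x₂))))‖ ≤ R * K x₁ x₂ y)
    (hq : 0 < q) (hH : 2 * H ≤ q) (U : ℕ → ℂ) (hU : ∀ i, ‖U i‖ ≤ 2) (A : ℝ) {Y : ℝ}
    (hY : ∑ y ∈ range H, ∑ x₁ ∈ range H, ∑ x₂ ∈ range H, K x₁ x₂ y ≤ Y) :
    ∑ b ∈ range R, ∑ a ∈ range q,
      ‖∑ i ∈ range H, (U i * E (b * (B / R * (A + i) ^ 2))) * E (a * ((i : ℝ) / q))‖ ^ 4 ≤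
      q * R * (16 * Y) := by
  have h1 : ∀ b ∈ range R, ∑ a ∈ range q,
      ‖∑ i ∈ range H, (U i * E (b * (B / R * (A + i) ^ 2))) * E (a * ((i : ℝ) / q))‖ ^ 4 =
      q * ∑ s ∈ range (2 * H), ‖C2 (fun i => U i * E (b * (B / R * (A + i) ^ 2))) H s‖ ^ 2 := by
    intro b _
    exact fourth_eq hq hH _
  rw [sum_congr rfl h1, ← mul_sum, sum_comm, mul_assoc]
  apply mul_le_mul_of_nonneg_left _ (by positivity)
  have hm : ∀ x ∈ range H ×ˢ range H, x.1 + x.2 ∈ range (2 * H) := by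
    intro x hx
    rw [mem_product, mem_range, mem_range] at hx
    rw [mem_range]
    omega
  calc ∑ s ∈ range (2 * H), ∑ b ∈ range R, ‖C2 (fun i => U i * E (b * (B / R * (A + i) ^ 2))) H s‖ ^ 2
      ≤ ∑ s ∈ range (2 * H), ∑ x ∈ (range H ×ˢ range H).filter (fun x => x.1 + x.2 = s),
          ∑ y ∈ range H, 16 * (R * K x.1 x.2 y) := by
        apply sum_le_sum
        intro s _
        refine (sum_b' K hker U hU A s).trans (sum_le_sum fun x _ => ?_)
        have hinj : Set.InjOn Prod.fst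
            (((range H ×ˢ range H).filter (fun x => x.1 + x.2 = s) : Finset (ℕ × ℕ)) : Set (ℕ × ℕ)) := by
          intro u hu w hw huw
          have h1 := (mem_filter.mp (mem_coe.mp hu)).2
          have h2 := (mem_filter.mp (mem_coe.mp hw)).2
          apply Prod.ext huw
          omega
        have h2 := sum_image (s := (range H ×ˢ range H).filter (fun x => x.1 + x.2 = s)) (g := Prod.fst)
          (f := fun y : ℕ => 16 * ((R : ℝ) * K x.1 x.2 y)) hinj
        rw [← h2]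
        apply sum_le_sum_of_subset_of_nonneg
        · intro y hy
          obtain ⟨u, hu, rfl⟩ := mem_image.mp hy
          exact (mem_product.mp (mem_filter.mp hu).1).1
        · intro y _ _
          have := hK0 x.1 x.2 y
          positivity
    _ = ∑ x ∈ range H ×ˢ range H, ∑ y ∈ range H, 16 * (R * K x.1 x.2 y) :=
        sum_fiberwise_of_maps_to hm _
    _ = 16 * (R * ∑ y ∈ range H, ∑ x₁ ∈ range H, ∑ x₂ ∈ range H, K x₁ x₂ y) := by
        rw [sum_comm]
        simp only [sum_product, mul_sum]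
    _ ≤ 16 * (R * Y) := by gcongr
    _ = _ := by ring

/-- the fourth moment over the full range -/
lemma fourth_one {R H q : ℕ} (hR : 2 * H ^ 2 < R) (hq : 0 < q) (hH : 2 * H ≤ q)
    (U : ℕ → ℂ) (hU : ∀ i, ‖U i‖ ≤ 2) (A : ℝ) :
    ∑ b ∈ range R, ∑ a ∈ range q,
      ‖∑ i ∈ range H, (U i * E (b * (1 / R * (A + i) ^ 2))) * E (a * ((i : ℝ) / q))‖ ^ 4 ≤
      q * R * (16 * (H * (2 * H))) := by
  have hR0 : 0 < R := by omega
  apply fourth_gen (fun x₁ x₂ y => (if x₁ = y then (1 : ℝ) else 0) + (if x₂ = y then 1 else 0)) ?_ ?_ hq hH U hU A ?_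
  · intro x₁ x₂ y
    positivity
  · intro x₁ x₂ y h1 h2 h3
    by_cases e1 : x₁ = y
    · refine (norm_sum_le _ _).trans ?_
      simp only [norm_E, sum_const, card_range, nsmul_eq_mul, mul_one, e1, if_true]
      have : (0 : ℝ) ≤ if x₂ = y then 1 else 0 := by positivity
      have hR1 : (0 : ℝ) ≤ R := Nat.cast_nonneg _
      nlinarith
    · by_cases e2 : x₂ = y
      · refine (norm_sum_le _ _).trans ?_
        simp only [norm_E, sum_const, card_range, nsmul_eq_mul, mul_one, e1, e2, if_true, if_false, zero_add]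
        exact le_refl _
      · rw [if_neg e1, if_neg e2, add_zero, mul_zero]
        have e3 : ∀ b ∈ range R, E (b * (1 / (R : ℝ) * (2 * ((x₁ : ℝ) - y) * ((y : ℝ) - x₂)))) =
            E (b * (((2 * ((x₁ : ℤ) - y) * ((y : ℤ) - x₂) : ℤ) : ℝ) / R)) := by
          intro b _
          congr 1
          push_cast
          ring
        rw [sum_congr rfl e3, geom_zero hR0, norm_zero]
        intro hd
        have n1 : (x₁ : ℤ) - y ≠ 0 := by
          intro h; apply e1; omega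
        have n2 : (y : ℤ) - x₂ ≠ 0 := by
          intro h; apply e2; omega
        have n3 : 2 * ((x₁ : ℤ) - y) * ((y : ℤ) - x₂) ≠ 0 := mul_ne_zero (mul_ne_zero two_ne_zero n1) n2
        have h6 := Int.le_of_dvd (abs_pos.mpr n3) ((dvd_abs _ _).mpr hd)
        have h7 : |2 * ((x₁ : ℤ) - y) * ((y : ℤ) - x₂)| ≤ 2 * (H : ℤ) ^ 2 := by
          rw [abs_mul, abs_mul, abs_of_pos (by norm_num : (0 : ℤ) < 2)]
          have g1 : |(x₁ : ℤ) - y| ≤ H := by rw [abs_le]; constructor <;> omega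
          have g2 : |(y : ℤ) - x₂| ≤ H := by rw [abs_le]; constructor <;> omega
          have g3 : |(x₁ : ℤ) - y| * |(y : ℤ) - x₂| ≤ H * H := mul_le_mul g1 g2 (abs_nonneg _) (by positivity)
          nlinarith
        have h8 : (2 * (H : ℤ) ^ 2) < R := by exact_mod_cast hR
        omega
  · apply le_of_eq_of_le (b := ∑ _y ∈ range H, (2 * (H : ℝ)))
    · apply sum_congr rfl
      intro y hy
      simp only [sum_add_distrib, sum_const, card_range, nsmul_eq_mul, sum_ite_eq', hy, if_true, mul_one]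
      rw [← mul_sum]
      simp only [sum_ite_eq', hy, if_true, mul_one]
      ring
    · rw [sum_const, card_range, nsmul_eq_mul]

/-- One choice of `(a, b)` for all windows, given the fourth moment. -/
lemma choose_ab' {B : ℝ} {R H q : ℕ} (J : ℕ) (hR : 0 < R)
    (hq : 0 < q) (hH : 2 * H ≤ q) (U : ℕ → ℕ → ℂ)
    (hU2 : ∀ j, (H : ℝ) ≤ ∑ i ∈ range H, ‖U j i‖ ^ 2) (A : ℕ → ℝ) {X : ℝ} (hX0 : 0 < X)
    (h4 : ∀ j, ∑ b ∈ range R, ∑ a ∈ range q,
      ‖∑ i ∈ range H, (U j i * E (b * (B / R * (A j + i) ^ 2))) * E (a * ((i : ℝ) / q))‖ ^ 4 ≤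
      q * R * (16 * (H * X))) :
    ∃ a ∈ range q, ∃ b ∈ range R,
      J * (H / (2 * √(32 * X))) ≤
      ∑ j ∈ range J, ‖∑ i ∈ range H, (U j i * E (b * (B / R * (A j + i) ^ 2))) * E (a * ((i : ℝ) / q))‖ := by
  by_contra hcon
  push Not at hcon
  have hq1 : (0 : ℝ) < q := by exact_mod_cast hq
  have hR1 : (0 : ℝ) < R := by exact_mod_cast hR
  set μ : ℝ := √(32 * X) with hμ
  have hμ0 : 0 < μ := by positivity
  have hμ2 : μ ^ 2 = 32 * X := Real.sq_sqrt (by positivity)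
  set D : ℕ → ℕ → ℕ → ℝ := fun j b a =>
    ‖∑ i ∈ range H, (U j i * E (b * (B / R * (A j + i) ^ 2))) * E (a * ((i : ℝ) / q))‖ with hD
  have hD0 : ∀ j b a, 0 ≤ D j b a := fun j b a => norm_nonneg _
  have h2 : ∀ j, (R : ℝ) * (q * H) ≤ ∑ b ∈ range R, ∑ a ∈ range q, D j b a ^ 2 := by
    intro j
    have h3 : ∀ b ∈ range R, (q : ℝ) * H ≤ ∑ a ∈ range q, D j b a ^ 2 := by
      intro b _
      have h4 := parseval hq (by omega : H ≤ q) (fun i => U j i * E (b * (B / R * (A j + i) ^ 2)))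
      have h5 : ∑ a ∈ range q, D j b a ^ 2 = q * ∑ i ∈ range H, ‖U j i‖ ^ 2 := by
        simp only [hD]
        rw [h4]
        congr 1
        apply sum_congr rfl
        intro i _
        rw [norm_mul, norm_E, mul_one]
      rw [h5]
      exact mul_le_mul_of_nonneg_left (hU2 j) hq1.le
    calc (R : ℝ) * (q * H) = ∑ _b ∈ range R, (q : ℝ) * H := by
          rw [sum_const, card_range, nsmul_eq_mul]
      _ ≤ _ := sum_le_sum h3
  have h4' : ∀ j, ∑ b ∈ range R, ∑ a ∈ range q, D j b a ^ 4 ≤ q * R * (16 * (H * X)) := fun j => h4 j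
  have h5 : ∀ j, (q : ℝ) * R * (H / (2 * μ)) ≤ ∑ b ∈ range R, ∑ a ∈ range q, D j b a := by
    intro j
    have e1 : ∑ b ∈ range R, ∑ a ∈ range q, ((D j b a ^ 2 - D j b a ^ 4 / μ ^ 2) / μ) ≤
        ∑ b ∈ range R, ∑ a ∈ range q, D j b a :=
      sum_le_sum fun b _ => sum_le_sum fun a _ => ptwise (hD0 j b a) hμ0
    refine le_trans ?_ e1
    have e2 : ∑ b ∈ range R, ∑ a ∈ range q, ((D j b a ^ 2 - D j b a ^ 4 / μ ^ 2) / μ) =
        (∑ b ∈ range R, ∑ a ∈ range q, D j b a ^ 2 -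
          (∑ b ∈ range R, ∑ a ∈ range q, D j b a ^ 4) / μ ^ 2) / μ := by
      simp only [sum_div, sum_sub_distrib, sub_div]
    rw [e2]
    have e3 : (∑ b ∈ range R, ∑ a ∈ range q, D j b a ^ 4) / μ ^ 2 ≤ q * R * (16 * (H * X)) / (32 * X) := by
      rw [hμ2]
      exact div_le_div_of_nonneg_right (h4' j) (by positivity)
    have e4 : (q : ℝ) * R * (16 * (H * X)) / (32 * X) = q * R * H / 2 := by
      field_simp
      ring
    rw [e4] at e3
    rw [le_div_iff₀ hμ0]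
    have e5 : (q : ℝ) * R * (H / (2 * μ)) * μ = q * R * H / 2 := by
      field_simp
    rw [e5]
    have := h2 j
    linarith
  have h6 : (J : ℝ) * (q * R * (H / (2 * μ))) ≤ ∑ b ∈ range R, ∑ a ∈ range q, ∑ j ∈ range J, D j b a := by
    calc (J : ℝ) * (q * R * (H / (2 * μ))) = ∑ _j ∈ range J, (q : ℝ) * R * (H / (2 * μ)) := by
          rw [sum_const, card_range, nsmul_eq_mul]
      _ ≤ ∑ j ∈ range J, ∑ b ∈ range R, ∑ a ∈ range q, D j b a := sum_le_sum fun j _ => h5 j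
      _ = _ := by
          rw [sum_comm]
          apply sum_congr rfl
          intro b _
          rw [sum_comm]
  have h7 : ∑ b ∈ range R, ∑ a ∈ range q, ∑ j ∈ range J, D j b a <
      ∑ _b ∈ range R, ∑ _a ∈ range q, J * (H / (2 * μ)) := by
    apply sum_lt_sum_of_nonempty (nonempty_range_iff.mpr hR.ne')
    intro b hb
    apply sum_lt_sum_of_nonempty (nonempty_range_iff.mpr hq.ne')
    intro a ha
    exact hcon a ha b hb
  simp only [sum_const, card_range, nsmul_eq_mul] at h7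
  have h8 : (R : ℝ) * (q * (J * (H / (2 * μ)))) = J * (q * R * (H / (2 * μ))) := by ring
  linarith

end Pool.Agent.H502.XQ
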