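import Pool.Agent.H502.XQ.D11

/-!
# No logarithm for `G ≥ N₀ N²`
-/

set_option autoImplicit false

open Finset

namespace Pool.Agent.H502.XQ

/-- One can choose a linear and a quadratic twist and a set of windows such that the sum is large. -/
lemma core1 {R h q : ℕ} (J m₀ : ℕ) (hR : 2 * h ^ 2 < R)
    (hq : 0 < q) (hH : 2 * h ≤ q) (hh : 4 ≤ h) (f₀ : ℝ → ℝ) :
    ∃ a < q, ∃ b < R, ∃ S : Finset ℕ,
      (1 / 8) * (J * ((h : ℝ) / (2 * √(32 * (2 * h))))) ≤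
      ‖∑ n ∈ range (J * h), E (f₀ ((m₀ + n : ℕ) : ℝ) + (((a : ℝ) / q) * ((m₀ + n : ℕ) : ℝ) +
        (b * (1 / R)) * ((m₀ + n : ℕ) : ℝ) ^ 2 + (1 / 2) * W h m₀ S ((m₀ + n : ℕ) : ℝ)))‖ := by
  have hh0 : 0 < h := by omega
  have hh1 : (0 : ℝ) < h := by exact_mod_cast hh0
  obtain ⟨a, ha, b, hb, hab⟩ := choose_ab' (B := 1) J (by omega : 0 < R) hq hH
    (fun j i => (E (psi ((i : ℝ) / h) / 2) - 1) * E (f₀ ((m₀ + (j * h + i) : ℕ) : ℝ)))
    (fun j => by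
      refine (sum_u hh).trans (le_of_eq ?_)
      apply sum_congr rfl
      intro i _
      rw [norm_mul, norm_E, mul_one])
    (fun j => ((m₀ + j * h : ℕ) : ℝ)) (X := 2 * h) (by positivity)
    (fun j => fourth_one hR hq hH _ (fun i => by
      rw [norm_mul, norm_E, mul_one]
      exact u_le h i) _)
  set g : ℕ → ℂ := fun n => E (f₀ (n : ℝ) + (((a : ℝ) / q) * (n : ℝ) + (b * (1 / R)) * (n : ℝ) ^ 2)) with hg
  set d : ℕ → ℂ := fun j => ∑ i ∈ range h, (E (psi ((i : ℝ) / h) / 2) - 1) * g (m₀ + (j * h + i)) with hd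
  have hdn : ∀ j ∈ range J, ‖∑ i ∈ range h, ((E (psi ((i : ℝ) / h) / 2) - 1) * E (f₀ ((m₀ + (j * h + i) : ℕ) : ℝ)) *
      E (b * (1 / R * (((m₀ + j * h : ℕ) : ℝ) + i) ^ 2))) * E (a * ((i : ℝ) / q))‖ = ‖d j‖ := by
    intro j _
    have h1 : d j = E (((a : ℝ) / q) * ((m₀ + j * h : ℕ) : ℝ)) *
        ∑ i ∈ range h, ((E (psi ((i : ℝ) / h) / 2) - 1) * E (f₀ ((m₀ + (j * h + i) : ℕ) : ℝ)) *
        E (b * (1 / R * (((m₀ + j * h : ℕ) : ℝ) + i) ^ 2))) * E (a * ((i : ℝ) / q)) := by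
      simp only [hd, hg]
      rw [mul_sum]
      apply sum_congr rfl
      intro i _
      have h2 : E (f₀ ((m₀ + (j * h + i) : ℕ) : ℝ) + (((a : ℝ) / q) * ((m₀ + (j * h + i) : ℕ) : ℝ) +
          (b * (1 / R)) * ((m₀ + (j * h + i) : ℕ) : ℝ) ^ 2)) =
          E (((a : ℝ) / q) * ((m₀ + j * h : ℕ) : ℝ)) * (E (f₀ ((m₀ + (j * h + i) : ℕ) : ℝ)) *
            E (b * (1 / R * (((m₀ + j * h : ℕ) : ℝ) + i) ^ 2)) * E (a * ((i : ℝ) / q))) := by
        rw [← E_add, ← E_add, ← E_add]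
        congr 1
        push_cast
        ring
      rw [h2]
      ring
    rw [h1, norm_mul, norm_E, one_mul]
  rw [sum_congr rfl hdn] at hab
  obtain ⟨S, hSJ, hS⟩ := subset_sum J d
  have hval : ∀ S' ⊆ range J, ∑ n ∈ range (J * h), E (f₀ ((m₀ + n : ℕ) : ℝ) + (((a : ℝ) / q) * ((m₀ + n : ℕ) : ℝ) +
        (b * (1 / R)) * ((m₀ + n : ℕ) : ℝ) ^ 2 + (1 / 2) * W h m₀ S' ((m₀ + n : ℕ) : ℝ))) =
      ∑ j ∈ range J, ∑ i ∈ range h, g (m₀ + (j * h + i)) + ∑ j ∈ S', d j := by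
    intro S' hS'
    rw [sum_range_mul']
    have h1 : ∑ j ∈ S', d j = ∑ j ∈ range J, if j ∈ S' then d j else 0 := by
      rw [← sum_filter]
      congr 1
      ext j
      rw [mem_filter]
      exact ⟨fun h => ⟨hS' h, h⟩, fun h => h.2⟩
    rw [h1, ← sum_add_distrib]
    apply sum_congr rfl
    intro j _
    have h2 : ∀ i ∈ range h, E (f₀ ((m₀ + (j * h + i) : ℕ) : ℝ) + (((a : ℝ) / q) * ((m₀ + (j * h + i) : ℕ) : ℝ) +
        (b * (1 / R)) * ((m₀ + (j * h + i) : ℕ) : ℝ) ^ 2 + (1 / 2) * W h m₀ S' ((m₀ + (j * h + i) : ℕ) : ℝ))) =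
        g (m₀ + (j * h + i)) + if j ∈ S' then (E (psi ((i : ℝ) / h) / 2) - 1) * g (m₀ + (j * h + i)) else 0 := by
      intro i hi
      have h3 := W_nat hh0 (m₀ : ℝ) S' (j := j) (i := i) (mem_range.mp hi)
      have h4 : ((m₀ + (j * h + i) : ℕ) : ℝ) = (m₀ : ℝ) + ((j * h + i : ℕ) : ℝ) := by push_cast; ring
      have h5 : W h m₀ S' ((m₀ + (j * h + i) : ℕ) : ℝ) = if j ∈ S' then psi ((i : ℝ) / h) else 0 := by
        rw [h4]; exact h3
      rw [h5]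
      split_ifs with hj
      · have h6 : E (f₀ ((m₀ + (j * h + i) : ℕ) : ℝ) + (((a : ℝ) / q) * ((m₀ + (j * h + i) : ℕ) : ℝ) +
          (b * (1 / R)) * ((m₀ + (j * h + i) : ℕ) : ℝ) ^ 2 + (1 / 2) * psi ((i : ℝ) / h))) =
          g (m₀ + (j * h + i)) * E (psi ((i : ℝ) / h) / 2) := by
          simp only [hg]
          rw [← E_add]
          congr 1
          ring
        rw [h6]
        ring
      · simp only [hg]
        rw [add_zero]
        congr 1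
        ring
    rw [sum_congr rfl h2, sum_add_distrib]
    congr 1
    split_ifs with hj
    · rfl
    · simp
  have hS1 := hval S hSJ
  have hS2 := hval ∅ (empty_subset _)
  rw [sum_empty, add_zero] at hS2
  by_contra hcon
  push Not at hcon
  have c1 := hcon a (mem_range.mp ha) b (mem_range.mp hb) S
  have c2 := hcon a (mem_range.mp ha) b (mem_range.mp hb) ∅
  rw [hS1] at c1
  rw [hS2] at c2
  have h3 : ‖∑ j ∈ S, d j‖ ≤ ‖∑ j ∈ range J, ∑ i ∈ range h, g (m₀ + (j * h + i)) + ∑ j ∈ S, d j‖ +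
      ‖∑ j ∈ range J, ∑ i ∈ range h, g (m₀ + (j * h + i))‖ := by
    have h4 : ∑ j ∈ S, d j = (∑ j ∈ range J, ∑ i ∈ range h, g (m₀ + (j * h + i)) + ∑ j ∈ S, d j) -
      ∑ j ∈ range J, ∑ i ∈ range h, g (m₀ + (j * h + i)) := by ring
    calc ‖∑ j ∈ S, d j‖ = ‖(∑ j ∈ range J, ∑ i ∈ range h, g (m₀ + (j * h + i)) + ∑ j ∈ S, d j) -
      ∑ j ∈ range J, ∑ i ∈ range h, g (m₀ + (j * h + i))‖ := by rw [← h4]
      _ ≤ _ := norm_sub_le _ _
  linarith

/-- the size of the sums for `F ≥ N²` -/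
noncomputable def size1 (P : ℕ) (N F : ℝ) : ℝ := min (√N * F ^ (1 / (2 * (P : ℝ)))) N

lemma size1_sq {P : ℕ} {N F : ℝ} (hN : 0 < N) (hF : 0 < F) :
    0 ≤ size1 P N F ∧ size1 P N F ^ 2 ≤ N ^ 2 ∧ size1 P N F ^ 2 ≤ N * F ^ (1 / (P : ℝ)) := by
  have h0 : 0 ≤ size1 P N F := by unfold size1; positivity
  have h1 : size1 P N F ≤ N := min_le_right _ _
  have h3 : size1 P N F ≤ √N * F ^ (1 / (2 * (P : ℝ))) := min_le_left _ _
  refine ⟨h0, by gcongr, ?_⟩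
  calc size1 P N F ^ 2 ≤ (√N * F ^ (1 / (2 * (P : ℝ)))) ^ 2 := by gcongr
      _ = N * F ^ (1 / (P : ℝ)) := by
        rw [mul_pow, Real.sq_sqrt hN.le, ← Real.rpow_natCast (F ^ (1 / (2 * (P : ℝ)))) 2, ← Real.rpow_mul hF.le]
        congr 2
        push_cast
        by_cases hP : (P : ℝ) = 0
        · rw [hP]; simp
        · field_simp

/-- **The main estimate** -/
theorem main1 (P : ℕ) (hP : 1 ≤ P) (η : ℝ) (hη : 0 < η) :
    ∃ c : ℝ, 0 < c ∧ ∃ N₀ : ℝ, 16 ≤ N₀ ∧ ∀ N F : ℝ, N₀ ≤ N → N₀ * N ^ 2 ≤ F → ∀ f₀ : ℝ → ℝ,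
      ∃ w : ℝ → ℝ, ContDiff ℝ ((⊤ : ℕ∞) : WithTop ℕ∞) w ∧
        (∀ p ≤ P, ∀ x ∈ Set.Icc N (2 * N), |iteratedDeriv p w x| ≤ η * F / N ^ p) ∧
        (∀ p : ℕ, ∀ x ∈ Set.Icc N (2 * N), |iteratedDeriv p w x| ≤ η * F / N ^ p + Aseq p) ∧
        ∃ N' : ℝ, N ≤ N' ∧ N' ≤ 2 * N ∧
          c * size1 P N F ≤ ‖∑ n ∈ Icc ⌈N⌉₊ ⌊N'⌋₊, E (f₀ n + w n)‖ := by
  obtain ⟨M, hM1, hM⟩ := psi_bound P
  have hM0 : 0 < M := by linarith
  have hP0 : (0 : ℝ) < P := by exact_mod_cast hP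
  set K₂ : ℝ := 5 + (M / η) ^ (1 / (P : ℝ)) with hK₂
  have hK₂0 : 0 < K₂ := by positivity
  refine ⟨√(1 / (512 ^ 2 * K₂)), by positivity, 16 + 16 / η + 16 ^ P * (M / η), by
    have : 0 < 16 / η + 16 ^ P * (M / η) := by positivity
    linarith, ?_⟩
  intro N F hN hF f₀
  have hpos1 : 0 < 16 / η := by positivity
  have hpos2 : 0 < 16 ^ P * (M / η) := by positivity
  have hN16 : 16 ≤ N := by linarith
  have hN0 : 0 < N := by linarith
  have hF' : (16 + 16 / η + 16 ^ P * (M / η)) * N ≤ F := by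
    refine le_trans (mul_le_mul_of_nonneg_left (by nlinarith) (by positivity)) hF
  have hFη2 : 16 / η * N ^ 2 ≤ F := le_trans (mul_le_mul_of_nonneg_right (by linarith) (by positivity)) hF
  have hF16 : 16 * N ≤ F := le_trans (mul_le_mul_of_nonneg_right (by linarith) hN0.le) hF'
  have hFη : 16 / η * N ≤ F := le_trans (mul_le_mul_of_nonneg_right (by linarith) hN0.le) hF'
  have hFM : 16 ^ P * (M / η) * N ≤ F := le_trans (mul_le_mul_of_nonneg_right (by linarith) hN0.le) hF'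
  have hF0 : 0 < F := by linarith
  have hFM' : 16 ^ P * (M / η) ≤ F := by
    refine le_trans ?_ hFM
    exact le_mul_of_one_le_right hpos2.le (by linarith)
  set κ : ℝ := N * (M / (η * F)) ^ (1 / (P : ℝ)) with hκ
  have hκ0 : 0 < κ := by positivity
  set h : ℕ := max 4 ⌈κ⌉₊ with hh
  have hh4 : 4 ≤ h := le_max_left _ _
  have hh0 : (0 : ℝ) < h := by exact_mod_cast (by omega : 0 < h)
  have hhκ : κ ≤ h := (Nat.le_ceil κ).trans (by exact_mod_cast (le_max_right _ _))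
  have hq1 : (⌈κ⌉₊ : ℝ) < κ + 1 := Nat.ceil_lt_add_one hκ0.le
  have hhle : (h : ℝ) ≤ 5 + κ := by
    rw [hh]
    push_cast
    refine max_le (by linarith) (by linarith)
  have hκN : (M / (η * F)) ^ (1 / (P : ℝ)) ≤ 1 / 16 := by
    have h1 : M / (η * F) ≤ (1 / 16) ^ P := by
      rw [div_le_iff₀ (by positivity), one_div, inv_pow]
      rw [inv_mul_eq_div, le_div_iff₀ (by positivity)]
      have h2 : 16 ^ P * (M / η) * η ≤ F * η := mul_le_mul_of_nonneg_right hFM' hη.le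
      have h3 : 16 ^ P * (M / η) * η = M * 16 ^ P := by field_simp
      linarith
    calc (M / (η * F)) ^ (1 / (P : ℝ)) ≤ ((1 / 16 : ℝ) ^ P) ^ (1 / (P : ℝ)) := by
          apply Real.rpow_le_rpow (by positivity) h1 (by positivity)
      _ = 1 / 16 := by
          rw [one_div (P : ℝ)]
          exact Real.pow_rpow_inv_natCast (by norm_num) (by omega)
  have hκN2 : κ ≤ N / 16 := by
    rw [hκ]
    nlinarith
  have hhN : (h : ℝ) ≤ N / 4 := by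
    rw [hh]
    push_cast
    refine max_le (by linarith) (by linarith)
  -- the derivative condition
  have hder : ∀ p ≤ P, (h : ℝ)⁻¹ ^ p * M ≤ η * F / N ^ p := by
    intro p hp
    have h1 : (h : ℝ) / N ≤ 1 := by rw [div_le_one hN0]; linarith
    have h2 : ((h : ℝ) / N) ^ P ≤ ((h : ℝ) / N) ^ p := pow_le_pow_of_le_one (by positivity) h1 hp
    have h3 : M / (η * F) ≤ ((h : ℝ) / N) ^ P := by
      calc M / (η * F) = ((M / (η * F)) ^ (1 / (P : ℝ))) ^ P := by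
            rw [one_div]
            exact (Real.rpow_inv_natCast_pow (by positivity) (by omega)).symm
        _ ≤ ((h : ℝ) / N) ^ P := by
            apply pow_le_pow_left₀ (by positivity)
            rw [le_div_iff₀ hN0]
            calc (M / (η * F)) ^ (1 / (P : ℝ)) * N = κ := by rw [hκ]; ring
              _ ≤ h := hhκ
    have h4 := h3.trans h2
    rw [div_le_iff₀ (by positivity), div_pow] at h4
    rw [inv_pow, inv_mul_eq_div, div_le_div_iff₀ (by positivity) (by positivity)]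
    have h5 : (h : ℝ) ^ p / N ^ p * (η * F) * N ^ p = η * F * h ^ p := by field_simp
    have h6 : M * N ^ p ≤ (h : ℝ) ^ p / N ^ p * (η * F) * N ^ p := mul_le_mul_of_nonneg_right h4 (by positivity)
    linarith
  have hB1 : (1 : ℝ) ≤ η * F / (16 * N ^ 2) := by
    rw [le_div_iff₀ (by positivity), one_mul]
    have e1 : 16 / η * N ^ 2 * η ≤ F * η := mul_le_mul_of_nonneg_right hFη2 hη.le
    have e2 : 16 / η * N ^ 2 * η = 16 * N ^ 2 := by field_simp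
    linarith
  set R : ℕ := 2 * h ^ 2 + 1 with hR
  have hR0 : 0 < R := by omega
  have hRh : 2 * h ^ 2 < R := by omega
  set J : ℕ := ⌊N / (2 * h)⌋₊ with hJ
  have hJ1 : (J : ℝ) ≤ N / (2 * h) := Nat.floor_le (by positivity)
  have hJ2 : N / (2 * h) < J + 1 := Nat.lt_floor_add_one _
  have hN4h : 1 ≤ N / (4 * h) := by
    rw [one_le_div (by positivity)]
    linarith
  have hN42 : N / (2 * h) = 2 * (N / (4 * h)) := by
    field_simp
    ring
  have hJ3 : N / (4 * h) ≤ J := by linarith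
  have hJh1 : (J : ℝ) * h ≤ N / 2 := by
    calc (J : ℝ) * h ≤ N / (2 * h) * h := by gcongr
      _ = N / 2 := by field_simp
  have hJh2 : N / 4 ≤ (J : ℝ) * h := by
    calc N / 4 = N / (4 * h) * h := by field_simp
      _ ≤ J * h := by gcongr
  have hJh3 : 1 ≤ J * h := by
    have : (1 : ℝ) ≤ (J : ℝ) * h := by linarith
    exact_mod_cast this
  obtain ⟨a, ha, b, hb, S, hS⟩ := core1 (q := 2 * h) J ⌈N⌉₊ hRh (by omega) le_rfl hh4 f₀
  have hR0' : (0 : ℝ) < R := by exact_mod_cast hR0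
  have hα0 : 0 ≤ (a : ℝ) / ((2 * h : ℕ) : ℝ) := by positivity
  have hα1 : (a : ℝ) / ((2 * h : ℕ) : ℝ) ≤ 1 := by
    rw [div_le_one (by exact_mod_cast (by omega : 0 < 2 * h))]
    exact_mod_cast ha.le
  have hβ0 : 0 ≤ (b : ℝ) * (1 / R) := by positivity
  have hβ1 : (b : ℝ) * (1 / R) ≤ 1 := by
    have : (b : ℝ) ≤ R := by exact_mod_cast hb.le
    calc (b : ℝ) * (1 / R) ≤ R * (1 / R) := by gcongr
      _ = 1 := by field_simp
  refine ⟨fun x => (((a : ℝ) / ((2 * h : ℕ) : ℝ)) * x + (b * (1 / R)) * x ^ 2) + (1 / 2) * W h (⌈N⌉₊ : ℝ) S x, ?_, ?_, ?_, ?_⟩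
  · have h1 : ContDiff ℝ ((⊤ : ℕ∞) : WithTop ℕ∞) (W h (⌈N⌉₊ : ℝ) S) := contDiff_W _ _ _ _ le_rfl
    exact (by fun_prop : ContDiff ℝ ((⊤ : ℕ∞) : WithTop ℕ∞)
      (fun x : ℝ => ((a : ℝ) / ((2 * h : ℕ) : ℝ)) * x + (b * (1 / R)) * x ^ 2)).add (contDiff_const.mul h1)
  · intro p hp x hx
    have hle : (p : WithTop ℕ∞) ≤ ((⊤ : ℕ∞) : WithTop ℕ∞) := by exact_mod_cast le_top
    have h1 : ContDiff ℝ (p : WithTop ℕ∞) (fun x => (1 / 2) * W h (⌈N⌉₊ : ℝ) S x) :=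
      contDiff_const.mul (contDiff_W _ _ _ _ hle)
    have h2 : ContDiff ℝ (p : WithTop ℕ∞)
      (fun x : ℝ => ((a : ℝ) / ((2 * h : ℕ) : ℝ)) * x + (b * (1 / R)) * x ^ 2) := by fun_prop
    rw [iteratedDeriv_fun_add h2.contDiffAt h1.contDiffAt, iteratedDeriv_const_mul_field]
    refine (abs_add_le _ _).trans ?_
    have h3 := quad_le hη hN0 hF0 hFη hB1 hα0 hα1 hβ0 hβ1 p hx
    have h4 := deriv_W hh0 (⌈N⌉₊ : ℝ) S hM0.le (hM p hp) x
    have h5 := h4.trans (hder p hp)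
    have h6 : |(1 / 2 : ℝ) * iteratedDeriv p (W h (⌈N⌉₊ : ℝ) S) x| ≤ (1 / 2) * (η * F / N ^ p) := by
      rw [abs_mul, abs_of_pos (by norm_num : (0 : ℝ) < 1 / 2)]
      gcongr
    linarith
  · intro p x hx
    have hle : (p : WithTop ℕ∞) ≤ ((⊤ : ℕ∞) : WithTop ℕ∞) := by exact_mod_cast le_top
    have h1 : ContDiff ℝ (p : WithTop ℕ∞) (fun x => (1 / 2) * W h (⌈N⌉₊ : ℝ) S x) :=
      contDiff_const.mul (contDiff_W _ _ _ _ hle)
    have h2 : ContDiff ℝ (p : WithTop ℕ∞)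
      (fun x : ℝ => ((a : ℝ) / ((2 * h : ℕ) : ℝ)) * x + (b * (1 / R)) * x ^ 2) := by fun_prop
    rw [iteratedDeriv_fun_add h2.contDiffAt h1.contDiffAt, iteratedDeriv_const_mul_field]
    refine (abs_add_le _ _).trans ?_
    have h3 := quad_le hη hN0 hF0 hFη hB1 hα0 hα1 hβ0 hβ1 p hx
    have h4 := deriv_W hh0 (⌈N⌉₊ : ℝ) S (Aseq_nonneg p) (le_Aseq p) x
    have h41 : (1 : ℝ) ≤ h := by exact_mod_cast (by omega : 1 ≤ h)
    have h5 : (h : ℝ)⁻¹ ^ p ≤ 1 := pow_le_one₀ (by positivity) (inv_le_one_of_one_le₀ h41)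
    have h6 : |(1 / 2 : ℝ) * iteratedDeriv p (W h (⌈N⌉₊ : ℝ) S) x| ≤ Aseq p := by
      rw [abs_mul, abs_of_pos (by norm_num : (0 : ℝ) < 1 / 2)]
      have h7 : (h : ℝ)⁻¹ ^ p * Aseq p ≤ 1 * Aseq p := mul_le_mul_of_nonneg_right h5 (Aseq_nonneg p)
      have h8 := Aseq_nonneg p
      have h9 := h4.trans h7
      linarith [abs_nonneg (iteratedDeriv p (W h (⌈N⌉₊ : ℝ) S) x)]
    have h10 : 0 ≤ η * F / N ^ p := by positivity
    linarith
  · refine ⟨((⌈N⌉₊ + J * h - 1 : ℕ) : ℝ), ?_, ?_, ?_⟩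
    · have h1 := Nat.le_ceil N
      have h2 : ⌈N⌉₊ ≤ ⌈N⌉₊ + J * h - 1 := by omega
      have h3 : (⌈N⌉₊ : ℝ) ≤ ((⌈N⌉₊ + J * h - 1 : ℕ) : ℝ) := by exact_mod_cast h2
      linarith
    · have h1 := Nat.ceil_lt_add_one hN0.le
      have h2 : ((⌈N⌉₊ + J * h - 1 : ℕ) : ℝ) + 1 = ⌈N⌉₊ + J * h := by
        have : ⌈N⌉₊ + J * h - 1 + 1 = ⌈N⌉₊ + J * h := by omega
        exact_mod_cast this
      linarith
    · rw [Nat.floor_natCast]
      have h1 : Icc ⌈N⌉₊ (⌈N⌉₊ + J * h - 1) = Ico ⌈N⌉₊ (⌈N⌉₊ + J * h) := by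
        ext n
        rw [mem_Icc, mem_Ico]
        omega
      rw [h1, sum_Ico_eq_sum_range, Nat.add_sub_cancel_left]
      have h2 : ∑ k ∈ range (J * h), E (f₀ ((⌈N⌉₊ + k : ℕ) : ℝ) + (((a : ℝ) / ((2 * h : ℕ) : ℝ)) * ((⌈N⌉₊ + k : ℕ) : ℝ) +
          (b * (1 / R)) * ((⌈N⌉₊ + k : ℕ) : ℝ) ^ 2 + (1 / 2) * W h (⌈N⌉₊ : ℝ) S ((⌈N⌉₊ + k : ℕ) : ℝ))) =
          ∑ k ∈ range (J * h), E (f₀ ((⌈N⌉₊ + k : ℕ) : ℝ) + ((((a : ℝ) / ((2 * h : ℕ) : ℝ)) * ((⌈N⌉₊ + k : ℕ) : ℝ) +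
          (b * (1 / R)) * ((⌈N⌉₊ + k : ℕ) : ℝ) ^ 2) + (1 / 2) * W h (⌈N⌉₊ : ℝ) S ((⌈N⌉₊ + k : ℕ) : ℝ))) := rfl
      refine le_trans ?_ hS
      -- the size
      obtain ⟨m0, m1, m2⟩ := size1_sq (P := P) hN0 hF0
      set m : ℝ := size1 P N F with hm
      set s : ℝ := √(32 * (2 * (h : ℝ))) with hs
      have hs0 : 0 < s := by positivity
      have hs2 : s ^ 2 = 64 * h := by
        rw [hs, Real.sq_sqrt (by positivity)]
        ring
      have hmh : m ^ 2 * h ≤ N ^ 2 * K₂ := by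
        have e1 : m ^ 2 * κ ≤ N ^ 2 * (M / η) ^ (1 / (P : ℝ)) := by
          calc m ^ 2 * κ ≤ (N * F ^ (1 / (P : ℝ))) * κ := by gcongr
            _ = N ^ 2 * (F ^ (1 / (P : ℝ)) * (M / (η * F)) ^ (1 / (P : ℝ))) := by rw [hκ]; ring
            _ = N ^ 2 * (M / η) ^ (1 / (P : ℝ)) := by
                rw [← Real.mul_rpow hF0.le (by positivity)]
                congr 2
                field_simp
        calc m ^ 2 * h ≤ m ^ 2 * (5 + κ) := by gcongr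
          _ = 5 * m ^ 2 + m ^ 2 * κ := by ring
          _ ≤ 5 * N ^ 2 + N ^ 2 * (M / η) ^ (1 / (P : ℝ)) := by linarith
          _ = N ^ 2 * K₂ := by rw [hK₂]; ring
      set c : ℝ := √(1 / (512 ^ 2 * K₂)) with hc
      have hc0 : 0 < c := by positivity
      have hc2 : c ^ 2 = 1 / (512 ^ 2 * K₂) := Real.sq_sqrt (by positivity)
      have hfin : c * m * (64 * s) ≤ N := by
        rw [← sq_le_sq₀ (by positivity) (by positivity)]
        calc (c * m * (64 * s)) ^ 2 = c ^ 2 * m ^ 2 * (4096 * s ^ 2) := by ring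
          _ = c ^ 2 * (512 ^ 2) * (m ^ 2 * h) := by rw [hs2]; ring
          _ ≤ c ^ 2 * (512 ^ 2) * (N ^ 2 * K₂) := by gcongr
          _ = N ^ 2 := by
              rw [hc2]
              field_simp
      calc c * m ≤ N / (64 * s) := by
            rw [le_div_iff₀ (by positivity)]
            exact hfin
        _ = (1 / 8) * ((N / (4 * h)) * ((h : ℝ) / (2 * s))) := by
            field_simp
            ring
        _ ≤ (1 / 8) * (J * ((h : ℝ) / (2 * s))) := by gcongr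

end Pool.Agent.H502.XQ
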