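import Pool.Agent.H502.XQ.D12

/-!
# The two ranges together
-/

set_option autoImplicit false

open Finset

namespace Pool.Agent.H502.XQ

lemma size_eq_size1 {P : ℕ} {N F : ℝ} (hN : 0 < N) (hF : N ^ 2 ≤ F) : size P N F = size1 P N F := by
  unfold size size1
  have h1 : N ≤ √F := by
    rw [show N = √(N ^ 2) from (Real.sqrt_sq hN.le).symm]
    exact Real.sqrt_le_sqrt hF
  rw [min_assoc, min_eq_right]
  exact (min_le_right _ _).trans h1

/-- **The main estimate in both ranges** -/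
theorem main2 (P : ℕ) (hP : 1 ≤ P) (η : ℝ) (hη : 0 < η) :
    ∃ c : ℝ, 0 < c ∧ ∃ N₀ : ℝ, 16 ≤ N₀ ∧ ∀ N F : ℝ, N₀ ≤ N → N₀ * N ≤ F → ∀ f₀ : ℝ → ℝ,
      ∃ w : ℝ → ℝ, ContDiff ℝ ((⊤ : ℕ∞) : WithTop ℕ∞) w ∧
        (∀ p ≤ P, ∀ x ∈ Set.Icc N (2 * N), |iteratedDeriv p w x| ≤ η * F / N ^ p) ∧
        (∀ p : ℕ, ∀ x ∈ Set.Icc N (2 * N), |iteratedDeriv p w x| ≤ η * F / N ^ p + Aseq p) ∧
        ∃ N' : ℝ, N ≤ N' ∧ N' ≤ 2 * N ∧
          c * size P N F / Real.log N ≤ ‖∑ n ∈ Icc ⌈N⌉₊ ⌊N'⌋₊, E (f₀ n + w n)‖ ∧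
          (N₀ * N ^ 2 ≤ F → c * size P N F ≤ ‖∑ n ∈ Icc ⌈N⌉₊ ⌊N'⌋₊, E (f₀ n + w n)‖) := by
  obtain ⟨c, hc, N₀, hN₀, h⟩ := main P hP η hη
  obtain ⟨c', hc', N₀', hN₀', h'⟩ := main1 P hP η hη
  refine ⟨min c c', lt_min hc hc', max N₀ N₀', le_trans hN₀ (le_max_left _ _), ?_⟩
  intro N F hN hF f₀
  have hNa : N₀ ≤ N := (le_max_left _ _).trans hN
  have hNb : N₀' ≤ N := (le_max_right _ _).trans hN
  have hN0 : 0 < N := by linarith
  have hF0 : 0 < F := by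
    refine lt_of_lt_of_le ?_ hF
    have : 0 < max N₀ N₀' := lt_of_lt_of_le (by linarith) (le_max_left N₀ N₀')
    positivity
  have hs0 : 0 ≤ size P N F := (size_sq hN0 hF0).1
  have hlog : 1 ≤ Real.log N := by
    rw [Real.le_log_iff_exp_le hN0]
    have := Real.exp_one_lt_d9
    linarith
  by_cases hbig : max N₀ N₀' * N ^ 2 ≤ F
  · obtain ⟨w, hw, hwd, hwA, N', h1, h2, h3⟩ := h' N F hNb
      (le_trans (mul_le_mul_of_nonneg_right (le_max_right _ _) (by positivity)) hbig) f₀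
    have hN2F : N ^ 2 ≤ F := by
      refine le_trans ?_ hbig
      have : 1 ≤ max N₀ N₀' := le_trans (by linarith) (le_max_left N₀ N₀')
      nlinarith [sq_nonneg N]
    rw [← size_eq_size1 hN0 hN2F] at h3
    have h4 : min c c' * size P N F ≤ c' * size P N F := mul_le_mul_of_nonneg_right (min_le_right _ _) hs0
    have h5 : 0 ≤ min c c' * size P N F := mul_nonneg (le_min hc.le hc'.le) hs0
    exact ⟨w, hw, hwd, hwA, N', h1, h2, (div_le_self h5 hlog).trans (h4.trans h3), fun _ => h4.trans h3⟩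
  · obtain ⟨w, hw, hwd, hwA, N', h1, h2, h3⟩ := h N F hNa
      (le_trans (mul_le_mul_of_nonneg_right (le_max_left _ _) hN0.le) hF) f₀
    refine ⟨w, hw, hwd, hwA, N', h1, h2, le_trans ?_ h3, fun hb => absurd hb hbig⟩
    have h4 : min c c' * size P N F ≤ c * size P N F := mul_le_mul_of_nonneg_right (min_le_left _ _) hs0
    exact div_le_div_of_nonneg_right h4 (by linarith)

/-- **Large sums in the class** -/
theorem class_main2 (P : ℕ) (hP : 1 ≤ P) (s η : ℝ) (hs : 0 < s) (hη : 0 < η) :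
    ∃ c : ℝ, 0 < c ∧ ∃ N₀ : ℝ, 16 ≤ N₀ ∧ ∀ N y : ℝ, N₀ ≤ N → N₀ ≤ y * N ^ (-s) →
      ∃ f : ℝ → ℝ, ClassP N P s y η f ∧
        (∀ p : ℕ, ∀ x ∈ Set.Icc N (2 * N), |iteratedDerivWithin (p + 1) f (Set.Icc N (2 * N)) x| ≤
          (poch s p + 1) * (y * N ^ (-s - (p : ℝ))) + Aseq (p + 1)) ∧ ∃ N' : ℝ, N ≤ N' ∧ N' ≤ 2 * N ∧
        c * size P N (y * N ^ (-s) * N) / Real.log N ≤ ‖∑ n ∈ Icc ⌈N⌉₊ ⌊N'⌋₊, E (f n)‖ ∧
        (N₀ * N ≤ y * N ^ (-s) → c * size P N (y * N ^ (-s) * N) ≤ ‖∑ n ∈ Icc ⌈N⌉₊ ⌊N'⌋₊, E (f n)‖) := by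
  obtain ⟨c, hc, N₀, hN₀, hmain⟩ := main2 P hP 1 one_pos
  have hm0 : 0 < min s 1 := by positivity
  set δ : ℝ := min 1 (η * ((min s 1) ^ P * 2 ^ (-s - (P : ℝ)))) with hδ
  have hδ0 : 0 < δ := by positivity
  have hδ1 : δ ≤ 1 := min_le_left _ _
  refine ⟨c * √δ, by positivity, N₀ / δ, ?_, ?_⟩
  · rw [le_div_iff₀ hδ0]
    nlinarith
  intro N y hN hL
  have hN₀' : N₀ ≤ N₀ / δ := by
    rw [le_div_iff₀ hδ0]
    nlinarith
  have hN1 : N₀ ≤ N := hN₀'.trans hN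
  have hN0 : 0 < N := by linarith
  have hNs : 0 < N ^ (-s) := Real.rpow_pos_of_pos hN0 _
  have hL0 : 0 < y * N ^ (-s) := by linarith
  have hy : 0 < y := pos_of_mul_pos_left hL0 hNs.le
  have hF0 : 0 < y * N ^ (-s) * N := by positivity
  have hG : N₀ * N ≤ δ * (y * N ^ (-s) * N) := by
    have h1 : N₀ ≤ y * N ^ (-s) * δ := by
      rw [div_le_iff₀ hδ0] at hL
      exact hL
    have h2 : N₀ * N ≤ (y * N ^ (-s) * δ) * N := mul_le_mul_of_nonneg_right h1 hN0.le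
    linarith
  obtain ⟨w, hw, hwd, hwA, N', hN'1, hN'2, hsum, hsum2⟩ := hmain N _ hN1 hG (model s y)
  refine ⟨fun x => model s y x + w x, ⟨?_, ?_⟩, ?_, N', hN'1, hN'2, ?_, ?_⟩
  · intro x hx
    exact ((model_contDiffAt s y (hN0.trans_le hx.1) _).add hw.contDiffAt).contDiffWithinAt
  · intro p hp x hx
    have hx0 : 0 < x := hN0.trans_le hx.1
    have hle : ((p + 1 : ℕ) : WithTop ℕ∞) ≤ ((⊤ : ℕ∞) : WithTop ℕ∞) := by exact_mod_cast le_top
    have hcw : ContDiffAt ℝ ((p + 1 : ℕ) : WithTop ℕ∞) w x := hw.contDiffAt.of_le hle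
    have hcm : ContDiffAt ℝ ((p + 1 : ℕ) : WithTop ℕ∞) (model s y) x := model_contDiffAt s y hx0 _
    rw [iteratedDerivWithin_eq_iteratedDeriv (uniqueDiffOn_Icc (by linarith)) (hcm.add hcw) hx,
      iteratedDeriv_fun_add hcm hcw, model_iter s y p x hx0, add_sub_cancel_left]
    refine (hwd (p + 1) (by omega) x hx).trans ?_
    have h1 : 1 * (δ * (y * N ^ (-s) * N)) / N ^ (p + 1) = δ * (y * N ^ (-s - (p : ℝ))) := by
      rw [Real.rpow_sub hN0, Real.rpow_natCast]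
      field_simp
      ring
    rw [h1]
    have h2 : (2 * N) ^ (-s - (p : ℝ)) ≤ x ^ (-s - (p : ℝ)) := by
      apply Real.rpow_le_rpow_of_nonpos hx0 hx.2
      have : (0 : ℝ) ≤ p := Nat.cast_nonneg _
      linarith
    rw [Real.mul_rpow (by norm_num) hN0.le] at h2
    have h3 : (2 : ℝ) ^ (-s - (P : ℝ)) ≤ 2 ^ (-s - (p : ℝ)) := by
      apply Real.rpow_le_rpow_of_exponent_le (by norm_num)
      have : (p : ℝ) ≤ P := by exact_mod_cast hp.le
      linarith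
    have h4 := poch_ge hs hp.le
    have hpoch : 0 < poch s p := lt_of_lt_of_le (by positivity) h4
    have hNp : 0 < N ^ (-s - (p : ℝ)) := Real.rpow_pos_of_pos hN0 _
    calc δ * (y * N ^ (-s - (p : ℝ))) ≤ (η * ((min s 1) ^ P * 2 ^ (-s - (P : ℝ)))) * (y * N ^ (-s - (p : ℝ))) := by
          gcongr
          exact min_le_right _ _
      _ ≤ (η * (poch s p * 2 ^ (-s - (p : ℝ)))) * (y * N ^ (-s - (p : ℝ))) := by gcongr
      _ = η * (poch s p * y * (2 ^ (-s - (p : ℝ)) * N ^ (-s - (p : ℝ)))) := by ring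
      _ ≤ η * (poch s p * y * x ^ (-s - (p : ℝ))) := by gcongr
  · intro p x hx
    have hx0 : 0 < x := hN0.trans_le hx.1
    have hle : ((p + 1 : ℕ) : WithTop ℕ∞) ≤ ((⊤ : ℕ∞) : WithTop ℕ∞) := by exact_mod_cast le_top
    have hcw : ContDiffAt ℝ ((p + 1 : ℕ) : WithTop ℕ∞) w x := hw.contDiffAt.of_le hle
    have hcm : ContDiffAt ℝ ((p + 1 : ℕ) : WithTop ℕ∞) (model s y) x := model_contDiffAt s y hx0 _
    rw [iteratedDerivWithin_eq_iteratedDeriv (uniqueDiffOn_Icc (by linarith)) (hcm.add hcw) hx,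
      iteratedDeriv_fun_add hcm hcw, model_iter s y p x hx0]
    refine (abs_add_le _ _).trans ?_
    have h0 := hwA (p + 1) x hx
    have h1 : 1 * (δ * (y * N ^ (-s) * N)) / N ^ (p + 1) = δ * (y * N ^ (-s - (p : ℝ))) := by
      rw [Real.rpow_sub hN0, Real.rpow_natCast]
      field_simp
      ring
    rw [h1] at h0
    have hpoch : 0 < poch s p := lt_of_lt_of_le (by positivity) (poch_ge hs (le_refl p))
    have hNp : 0 < N ^ (-s - (p : ℝ)) := Real.rpow_pos_of_pos hN0 _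
    have hxp : 0 < x ^ (-s - (p : ℝ)) := Real.rpow_pos_of_pos hx0 _
    have h2 : x ^ (-s - (p : ℝ)) ≤ N ^ (-s - (p : ℝ)) := by
      apply Real.rpow_le_rpow_of_nonpos hN0 hx.1
      have : (0 : ℝ) ≤ p := Nat.cast_nonneg _
      linarith
    have h3 : |(-1 : ℝ) ^ p * poch s p * y * x ^ (-s - (p : ℝ))| ≤ poch s p * (y * N ^ (-s - (p : ℝ))) := by
      rw [abs_mul, abs_mul, abs_mul, abs_pow, abs_neg, abs_one, one_pow, one_mul, abs_of_pos hpoch,
        abs_of_pos hy, abs_of_pos hxp, mul_assoc]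
      gcongr
    have h4 : δ * (y * N ^ (-s - (p : ℝ))) ≤ 1 * (y * N ^ (-s - (p : ℝ))) :=
      mul_le_mul_of_nonneg_right hδ1 (by positivity)
    linarith
  · refine le_trans ?_ hsum
    have hlog : 0 < Real.log N := Real.log_pos (by linarith)
    rw [div_le_div_iff_of_pos_right hlog, mul_assoc]
    exact mul_le_mul_of_nonneg_left (size_scale hP hN0 hF0 hδ0 hδ1) hc.le
  · intro hL2
    refine le_trans ?_ (hsum2 ?_)
    · rw [mul_assoc]
      exact mul_le_mul_of_nonneg_left (size_scale hP hN0 hF0 hδ0 hδ1) hc.le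
    · rw [div_mul_eq_mul_div, div_le_iff₀ hδ0] at hL2
      calc N₀ * N ^ 2 = (N₀ * N) * N := by ring
        _ ≤ (y * N ^ (-s) * δ) * N := mul_le_mul_of_nonneg_right hL2 hN0.le
        _ = δ * (y * N ^ (-s) * N) := by ring

end Pool.Agent.H502.XQ
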