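import Pool.Agent.H502.XQ.D13

/-!
# Upper bounds for all derivatives, near every function, uniformly in `F`
-/

set_option autoImplicit false

open Finset

namespace Pool.Agent.H502.XQ

/-- for a large number `P` of conditions the sums are larger than `√N g(F)` -/
lemma large_P' {δ A η : ℝ} (hδ : 0 < δ) (hη : 0 < η) {g : ℝ → ℝ}
    (hg : ∀ ε : ℝ, 0 < ε → ∃ X : ℝ, ∀ x : ℝ, X ≤ x → g x ≤ x ^ ε) {P : ℕ} (hP1 : 1 ≤ P) (hPA : A ≤ P)
    (hPδ : (1 + δ) / δ ≤ P) :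
    ∃ X : ℝ, ∀ N F : ℝ, X ≤ N → N ^ (1 + δ) ≤ F → F ≤ N ^ A → ∀ f₀ : ℝ → ℝ, ∃ w : ℝ → ℝ,
      ContDiff ℝ ((⊤ : ℕ∞) : WithTop ℕ∞) w ∧
      (∀ p ≤ P, ∀ x ∈ Set.Icc N (2 * N), |iteratedDeriv p w x| ≤ η * F / N ^ p) ∧
      (∀ p : ℕ, ∀ x ∈ Set.Icc N (2 * N), |iteratedDeriv p w x| ≤ η * F / N ^ p + Aseq p) ∧
      ∃ N' : ℝ, N ≤ N' ∧ N' ≤ 2 * N ∧ √N * g F ≤ ‖∑ n ∈ Icc ⌈N⌉₊ ⌊N'⌋₊, E (f₀ n + w n)‖ := by
  obtain ⟨c, hc, N₀, hN₀, hmain⟩ := main2 P hP1 η hη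
  have hP0 : (0 : ℝ) < P := by exact_mod_cast hP1
  set ε : ℝ := 1 / (8 * P) with hε
  have hε0 : 0 < ε := by positivity
  obtain ⟨X₁, hX₁⟩ := hg ε hε0
  have hlo := (isLittleO_log_rpow_atTop (r := ε) hε0).def (c := 1) one_pos
  have htend := (tendsto_rpow_atTop (y := 2 * ε) (by positivity)).eventually_ge_atTop (1 / c)
  have htend2 := (tendsto_rpow_atTop (y := δ) hδ).eventually_ge_atTop N₀
  obtain ⟨X₂, hX₂⟩ := Filter.eventually_atTop.mp (hlo.and htend)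
  obtain ⟨X₃, hX₃⟩ := Filter.eventually_atTop.mp htend2
  refine ⟨max (max X₁ X₂) (max N₀ X₃), fun N F hN hF1 hF2 f₀ => ?_⟩
  have hNX1 : X₁ ≤ N := ((le_max_left _ _).trans (le_max_left _ _)).trans hN
  have hNX2 : X₂ ≤ N := ((le_max_right _ _).trans (le_max_left _ _)).trans hN
  have hNN0 : N₀ ≤ N := ((le_max_left _ _).trans (le_max_right _ _)).trans hN
  have hNX3 : X₃ ≤ N := ((le_max_right _ _).trans (le_max_right _ _)).trans hN
  have hN16 : 16 ≤ N := by linarith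
  have hN0 : 0 < N := by linarith
  have hN1 : 1 ≤ N := by linarith
  have hNF : N ≤ F := by
    calc N = N ^ (1 : ℝ) := (Real.rpow_one N).symm
      _ ≤ N ^ (1 + δ) := Real.rpow_le_rpow_of_exponent_le hN1 (by linarith)
      _ ≤ F := hF1
  have hF0 : 0 < F := by linarith
  have hF1' : 1 ≤ F := by linarith
  obtain ⟨hlog, hpow⟩ := hX₂ F (hNX2.trans hNF)
  have hgF := hX₁ F (hNX1.trans hNF)
  have hNδ : N₀ ≤ N ^ δ := hX₃ N hNX3
  have hN₀N : N₀ * N ≤ F := by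
    calc N₀ * N ≤ N ^ δ * N := mul_le_mul_of_nonneg_right hNδ hN0.le
      _ = N ^ (1 + δ) := by
          nth_rewrite 2 [← Real.rpow_one N]
          rw [← Real.rpow_add hN0]
          congr 1
          ring
      _ ≤ F := hF1
  obtain ⟨w, hw, hwd, hwA, N', h1, h2, h3, -⟩ := hmain N F hNN0 hN₀N f₀
  refine ⟨w, hw, hwd, hwA, N', h1, h2, le_trans ?_ h3⟩
  have hlogN : 0 < Real.log N := Real.log_pos (by linarith)
  have hlogNF : Real.log N ≤ Real.log F := Real.log_le_log hN0 hNF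
  have hlogF : 0 < Real.log F := by linarith
  rw [Real.norm_eq_abs, Real.norm_eq_abs, abs_of_pos hlogF, one_mul,
    abs_of_pos (Real.rpow_pos_of_pos hF0 _)] at hlog
  -- the size
  have hsz : √N * F ^ (4 * ε) ≤ size P N F := by
    have e1 : 1 / (2 * (P : ℝ)) = 4 * ε := by
      rw [hε]
      field_simp
      norm_num
    unfold size
    rw [e1]
    refine le_min (le_min ?_ le_rfl) ?_
    · have k1 : N ≤ F ^ (1 - 8 * ε) := by
        have e2 : 8 * ε = 1 / P := by rw [hε]; field_simp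
        have e3 : 1 ≤ (1 + δ) * (1 - 1 / (P : ℝ)) := by
          rw [div_le_iff₀ hδ] at hPδ
          have : (1 + δ) * (1 - 1 / (P : ℝ)) = 1 + (δ * P - (1 + δ)) / P := by
            field_simp
            ring
          rw [this]
          have : 0 ≤ (δ * P - (1 + δ)) / P := div_nonneg (by linarith) hP0.le
          linarith
        rw [e2]
        have e4 : 0 ≤ 1 - 1 / (P : ℝ) := by
          have : 1 / (P : ℝ) ≤ 1 := by
            rw [div_le_one hP0]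
            exact_mod_cast hP1
          linarith
        calc N = N ^ (1 : ℝ) := (Real.rpow_one N).symm
          _ ≤ N ^ ((1 + δ) * (1 - 1 / (P : ℝ))) := Real.rpow_le_rpow_of_exponent_le hN1 e3
          _ = (N ^ (1 + δ)) ^ (1 - 1 / (P : ℝ)) := Real.rpow_mul hN0.le _ _
          _ ≤ F ^ (1 - 1 / (P : ℝ)) := Real.rpow_le_rpow (by positivity) hF1 e4
      calc √N * F ^ (4 * ε) ≤ √(F ^ (1 - 8 * ε)) * F ^ (4 * ε) := by gcongr
        _ = √F := by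
            rw [Real.sqrt_eq_rpow, Real.sqrt_eq_rpow, ← Real.rpow_mul hF0.le, ← Real.rpow_add hF0]
            congr 1
            ring
    · have k2 : F ^ (4 * ε) ≤ N ^ (1 / 2 : ℝ) := by
        calc F ^ (4 * ε) ≤ (N ^ A) ^ (4 * ε) := Real.rpow_le_rpow hF0.le hF2 (by positivity)
          _ = N ^ (A * (4 * ε)) := (Real.rpow_mul hN0.le _ _).symm
          _ ≤ N ^ (1 / 2 : ℝ) := by
              apply Real.rpow_le_rpow_of_exponent_le hN1
              rw [← e1, mul_one_div, div_le_iff₀ (by positivity)]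
              linarith
      calc √N * F ^ (4 * ε) ≤ √N * N ^ (1 / 2 : ℝ) := by gcongr
        _ = N := by
            rw [← Real.sqrt_eq_rpow, Real.mul_self_sqrt hN0.le]
  rw [le_div_iff₀ hlogN]
  have hFε : 0 < F ^ ε := Real.rpow_pos_of_pos hF0 _
  have hcp : 1 ≤ c * F ^ (2 * ε) := by
    have : 1 / c ≤ F ^ (2 * ε) := hpow
    rw [div_le_iff₀ hc] at this
    linarith
  calc √N * g F * Real.log N ≤ √N * (F ^ ε * F ^ ε) := by
        have hg0 : g F * Real.log N ≤ F ^ ε * F ^ ε := by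
          by_cases hgn : 0 ≤ g F
          · exact mul_le_mul hgF (hlogNF.trans hlog) hlogN.le hFε.le
          · push Not at hgn
            have : g F * Real.log N ≤ 0 := mul_nonpos_of_nonpos_of_nonneg hgn.le hlogN.le
            have : 0 ≤ F ^ ε * F ^ ε := by positivity
            linarith
        rw [mul_assoc]
        exact mul_le_mul_of_nonneg_left hg0 (Real.sqrt_nonneg _)
    _ = √N * F ^ (2 * ε) * 1 := by
        rw [← Real.rpow_add hF0, mul_one]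
        congr 2
        ring
    _ ≤ √N * F ^ (2 * ε) * (c * F ^ (2 * ε)) := by gcongr
    _ = c * (√N * F ^ (4 * ε)) := by
        have : F ^ (4 * ε) = F ^ (2 * ε) * F ^ (2 * ε) := by
          rw [← Real.rpow_add hF0]
          congr 1
          ring
        rw [this]
        ring
    _ ≤ c * size P N F := by gcongr

/-- **No fixed function of subpolynomial growth, near every function** -/
theorem smooth_every (δ A η : ℝ) (P₀ : ℕ) (hδ : 0 < δ) (hη : 0 < η) (g : ℝ → ℝ)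
    (hg : ∀ ε : ℝ, 0 < ε → ∃ X : ℝ, ∀ x : ℝ, X ≤ x → g x ≤ x ^ ε) :
    ∃ C : ℕ → ℝ, ∃ N₀ : ℝ, 16 ≤ N₀ ∧ ∀ N F : ℝ, N₀ ≤ N → N ^ (1 + δ) ≤ F → F ≤ N ^ A → ∀ f₀ : ℝ → ℝ,
      ∃ w : ℝ → ℝ, ContDiff ℝ ((⊤ : ℕ∞) : WithTop ℕ∞) w ∧
      (∀ p ≤ P₀, ∀ x ∈ Set.Icc N (2 * N), |iteratedDeriv p w x| ≤ η * F / N ^ p) ∧
      (∀ p : ℕ, ∀ x ∈ Set.Icc N (2 * N), |iteratedDeriv p w x| ≤ C p * F / N ^ p) ∧
      ∃ N' : ℝ, N ≤ N' ∧ N' ≤ 2 * N ∧ √N * g F ≤ ‖∑ n ∈ Icc ⌈N⌉₊ ⌊N'⌋₊, E (f₀ n + w n)‖ := by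
  classical
  set P₁ : ℕ := max (max P₀ 1) (max ⌈A⌉₊ ⌈(1 + δ) / δ⌉₊) with hP₁
  have hP₁0 : P₀ ≤ P₁ := (le_max_left _ _).trans (le_max_left _ _)
  have hP₁1 : 1 ≤ P₁ := (le_max_right _ _).trans (le_max_left _ _)
  have hP₁t : A ≤ P₁ := (Nat.le_ceil A).trans (by exact_mod_cast (le_max_left _ _).trans (le_max_right _ _))
  have hP₁t2 : (1 + δ) / δ ≤ P₁ :=
    (Nat.le_ceil _).trans (by exact_mod_cast (le_max_right _ _).trans (le_max_right _ _))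
  have hex : ∀ P : ℕ, ∃ X : ℝ, P₁ ≤ P → ∀ N F : ℝ, X ≤ N → N ^ (1 + δ) ≤ F → F ≤ N ^ A → ∀ f₀ : ℝ → ℝ,
      ∃ w : ℝ → ℝ, ContDiff ℝ ((⊤ : ℕ∞) : WithTop ℕ∞) w ∧
      (∀ p ≤ P, ∀ x ∈ Set.Icc N (2 * N), |iteratedDeriv p w x| ≤ η * F / N ^ p) ∧
      (∀ p : ℕ, ∀ x ∈ Set.Icc N (2 * N), |iteratedDeriv p w x| ≤ η * F / N ^ p + Aseq p) ∧
      ∃ N' : ℝ, N ≤ N' ∧ N' ≤ 2 * N ∧ √N * g F ≤ ‖∑ n ∈ Icc ⌈N⌉₊ ⌊N'⌋₊, E (f₀ n + w n)‖ := by
    intro P
    by_cases h : P₁ ≤ P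
    · have hc : (P₁ : ℝ) ≤ P := by exact_mod_cast h
      obtain ⟨X, hX⟩ := large_P' hδ hη hg (hP₁1.trans h) (hP₁t.trans hc) (hP₁t2.trans hc)
      exact ⟨X, fun _ => hX⟩
    · exact ⟨0, fun h' => absurd h' h⟩
  choose X hX using hex
  refine ⟨fun p => η + Aseq p * (max (p + 1 : ℝ) (X p)) ^ p, max (max (X P₁) P₁) 16, le_max_right _ _, ?_⟩
  intro N F hN hF1 hF2 f₀
  have hN16 : 16 ≤ N := (le_max_right _ _).trans hN
  have hNP : (P₁ : ℝ) ≤ N := ((le_max_right _ _).trans (le_max_left _ _)).trans hN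
  have hNX : X P₁ ≤ N := ((le_max_left _ _).trans (le_max_left _ _)).trans hN
  have hN0 : 0 < N := by linarith
  have hN1 : 1 ≤ N := by linarith
  have hF : 1 ≤ F := le_trans (Real.one_le_rpow hN1 (by linarith)) hF1
  set P : ℕ := Nat.findGreatest (fun P => P₁ ≤ P ∧ X P ≤ N) ⌊N⌋₊ with hP
  have hspec : P₁ ≤ P ∧ X P ≤ N := by
    have := Nat.findGreatest_spec (P := fun P => P₁ ≤ P ∧ X P ≤ N) (n := ⌊N⌋₊) (m := P₁)
      (Nat.le_floor hNP) ⟨le_rfl, hNX⟩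
    exact this
  obtain ⟨w, hw, hwd, hwA, hN'⟩ := hX P hspec.1 N F hspec.2 hF1 hF2 f₀
  refine ⟨w, hw, fun p hp => hwd p (hp.trans (hP₁0.trans hspec.1)), ?_, hN'⟩
  intro p x hx
  have hA := Aseq_nonneg p
  have hmx : (0 : ℝ) ≤ max (p + 1 : ℝ) (X p) := by
    refine le_trans ?_ (le_max_left _ _)
    positivity
  by_cases hpP : p ≤ P
  · refine (hwd p hpP x hx).trans ?_
    apply div_le_div_of_nonneg_right _ (by positivity)
    apply mul_le_mul_of_nonneg_right _ (by linarith)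
    have : 0 ≤ Aseq p * (max (p + 1 : ℝ) (X p)) ^ p := by positivity
    linarith
  · push Not at hpP
    have hNB : N ≤ max (p + 1 : ℝ) (X p) := by
      by_cases h1 : p ≤ ⌊N⌋₊
      · have h2 := Nat.findGreatest_is_greatest (P := fun P => P₁ ≤ P ∧ X P ≤ N) (n := ⌊N⌋₊) (k := p)
          (by rw [← hP]; exact hpP) h1
        have h3 : ¬ (X p ≤ N) := fun h => h2 ⟨by have := hspec.1; omega, h⟩
        push Not at h3
        exact h3.le.trans (le_max_right _ _)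
      · push Not at h1
        have h2 : N < ⌊N⌋₊ + 1 := Nat.lt_floor_add_one N
        have h3 : (⌊N⌋₊ : ℝ) < (p : ℕ) := by exact_mod_cast h1
        refine le_trans ?_ (le_max_left _ _)
        linarith
    have h1 := hwA p x hx
    have h2 : Aseq p ≤ Aseq p * (max (p + 1 : ℝ) (X p)) ^ p * F / N ^ p := by
      have h3 : N ^ p ≤ (max (p + 1 : ℝ) (X p)) ^ p := by gcongr
      rw [le_div_iff₀ (by positivity)]
      calc Aseq p * N ^ p = Aseq p * (N ^ p) * 1 := (mul_one _).symm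
        _ ≤ Aseq p * (max (p + 1 : ℝ) (X p)) ^ p * F := by gcongr
    calc |iteratedDeriv p w x| ≤ η * F / N ^ p + Aseq p := h1
      _ ≤ η * F / N ^ p + Aseq p * (max (p + 1 : ℝ) (X p)) ^ p * F / N ^ p := by linarith
      _ = _ := by ring

/-- **The class version** -/
theorem smooth_class2 (δ A s η : ℝ) (P₀ : ℕ) (hδ : 0 < δ) (hs : 0 < s) (hη : 0 < η) (g : ℝ → ℝ)
    (hg : ∀ ε : ℝ, 0 < ε → ∃ X : ℝ, ∀ x : ℝ, X ≤ x → g x ≤ x ^ ε) :
    ∃ C : ℕ → ℝ, ∃ N₀ : ℝ, ∀ N y : ℝ, N₀ ≤ N → N ^ (1 + δ) ≤ y * N ^ (1 - s) → y * N ^ (1 - s) ≤ N ^ A →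
      ∃ f : ℝ → ℝ, ClassP N P₀ s y η f ∧
      (∀ p : ℕ, ∀ x ∈ Set.Icc N (2 * N), |iteratedDerivWithin (p + 1) f (Set.Icc N (2 * N)) x| ≤
        C p * (y * N ^ (1 - s)) / N ^ (p + 1)) ∧ ∃ N' : ℝ, N ≤ N' ∧ N' ≤ 2 * N ∧
      √N * g (y * N ^ (1 - s)) ≤ ‖∑ n ∈ Icc ⌈N⌉₊ ⌊N'⌋₊, E (f n)‖ := by
  have hm0 : 0 < min s 1 := by positivity
  set κ : ℝ := η * ((min s 1) ^ P₀ * 2 ^ (-s - (P₀ : ℝ))) with hκ
  have hκ0 : 0 < κ := by positivity
  obtain ⟨C, N₀, hN₀, hmain⟩ := smooth_every δ A κ P₀ hδ hκ0 g hg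
  refine ⟨fun p => poch s p + C (p + 1), N₀, ?_⟩
  intro N y hN hF1 hF2
  have hN0 : 0 < N := by linarith
  set F : ℝ := y * N ^ (1 - s) with hF
  have hF0 : 0 < F := lt_of_lt_of_le (Real.rpow_pos_of_pos hN0 _) hF1
  have hy : 0 < y := pos_of_mul_pos_left hF0 (Real.rpow_pos_of_pos hN0 _).le
  have hFp : ∀ p : ℕ, F / N ^ (p + 1) = y * N ^ (-s - (p : ℝ)) := by
    intro p
    rw [hF, mul_div_assoc, ← Real.rpow_natCast N (p + 1), ← Real.rpow_sub hN0]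
    congr 2
    push_cast
    ring
  obtain ⟨w, hw, hwd, hwC, N', hN'1, hN'2, hsum⟩ := hmain N F hN hF1 hF2 (model s y)
  refine ⟨fun x => model s y x + w x, ⟨?_, ?_⟩, ?_, N', hN'1, hN'2, hsum⟩
  · intro x hx
    exact ((model_contDiffAt s y (hN0.trans_le hx.1) _).add hw.contDiffAt).contDiffWithinAt
  · intro p hp x hx
    have hx0 : 0 < x := hN0.trans_le hx.1
    have hle : ((p + 1 : ℕ) : WithTop ℕ∞) ≤ ((⊤ : ℕ∞) : WithTop ℕ∞) := by exact_mod_cast le_top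
    have hcw : ContDiffAt ℝ ((p + 1 : ℕ) : WithTop ℕ∞) w x := hw.contDiffAt.of_le hle
    have hcm : ContDiffAt ℝ ((p + 1 : ℕ) : WithTop ℕ∞) (model s y) x := model_contDiffAt s y hx0 _
    rw [iteratedDerivWithin_eq_iteratedDeriv (uniqueDiffOn_Icc (by linarith)) (hcm.add hcw) hx,
      iteratedDeriv_fun_add hcm hcw, model_iter s y p x hx0, add_sub_cancel_left]
    refine (hwd (p + 1) (by omega) x hx).trans ?_
    rw [mul_div_assoc, hFp p]
    have h2 : (2 * N) ^ (-s - (p : ℝ)) ≤ x ^ (-s - (p : ℝ)) := by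
      apply Real.rpow_le_rpow_of_nonpos hx0 hx.2
      have : (0 : ℝ) ≤ p := Nat.cast_nonneg _
      linarith
    rw [Real.mul_rpow (by norm_num) hN0.le] at h2
    have h3 : (2 : ℝ) ^ (-s - (P₀ : ℝ)) ≤ 2 ^ (-s - (p : ℝ)) := by
      apply Real.rpow_le_rpow_of_exponent_le (by norm_num)
      have : (p : ℝ) ≤ P₀ := by exact_mod_cast hp.le
      linarith
    have h4 := poch_ge hs hp.le
    have hpoch : 0 < poch s p := lt_of_lt_of_le (by positivity) h4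
    have hNp : 0 < N ^ (-s - (p : ℝ)) := Real.rpow_pos_of_pos hN0 _
    calc κ * (y * N ^ (-s - (p : ℝ)))
        ≤ (η * (poch s p * 2 ^ (-s - (p : ℝ)))) * (y * N ^ (-s - (p : ℝ))) := by
          rw [hκ]
          gcongr
      _ = η * (poch s p * y * (2 ^ (-s - (p : ℝ)) * N ^ (-s - (p : ℝ)))) := by ring
      _ ≤ η * (poch s p * y * x ^ (-s - (p : ℝ))) := by gcongr
  · intro p x hx
    have hx0 : 0 < x := hN0.trans_le hx.1
    have hle : ((p + 1 : ℕ) : WithTop ℕ∞) ≤ ((⊤ : ℕ∞) : WithTop ℕ∞) := by exact_mod_cast le_top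
    have hcw : ContDiffAt ℝ ((p + 1 : ℕ) : WithTop ℕ∞) w x := hw.contDiffAt.of_le hle
    have hcm : ContDiffAt ℝ ((p + 1 : ℕ) : WithTop ℕ∞) (model s y) x := model_contDiffAt s y hx0 _
    rw [iteratedDerivWithin_eq_iteratedDeriv (uniqueDiffOn_Icc (by linarith)) (hcm.add hcw) hx,
      iteratedDeriv_fun_add hcm hcw, model_iter s y p x hx0]
    refine (abs_add_le _ _).trans ?_
    have h0 := hwC (p + 1) x hx
    have hpoch : 0 < poch s p := lt_of_lt_of_le (by positivity) (poch_ge hs (le_refl p))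
    have hxp : 0 < x ^ (-s - (p : ℝ)) := Real.rpow_pos_of_pos hx0 _
    have h2 : x ^ (-s - (p : ℝ)) ≤ N ^ (-s - (p : ℝ)) := by
      apply Real.rpow_le_rpow_of_nonpos hN0 hx.1
      have : (0 : ℝ) ≤ p := Nat.cast_nonneg _
      linarith
    have h3 : |(-1 : ℝ) ^ p * poch s p * y * x ^ (-s - (p : ℝ))| ≤ poch s p * (F / N ^ (p + 1)) := by
      rw [hFp p, abs_mul, abs_mul, abs_mul, abs_pow, abs_neg, abs_one, one_pow, one_mul, abs_of_pos hpoch,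
        abs_of_pos hy, abs_of_pos hxp, mul_assoc]
      gcongr
    calc |(-1 : ℝ) ^ p * poch s p * y * x ^ (-s - (p : ℝ))| + |iteratedDeriv (p + 1) w x|
        ≤ poch s p * (F / N ^ (p + 1)) + C (p + 1) * F / N ^ (p + 1) := by linarith
      _ = (poch s p + C (p + 1)) * F / N ^ (p + 1) := by ring

end Pool.Agent.H502.XQ
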