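import Pool.Agent.H502.XQ.D1

/-!
# The mean value of the fourth powers
-/

set_option autoImplicit false

open Finset

namespace Pool.Agent.H502.XQ

/-- the coefficients of the square -/
noncomputable def C2 (v : ℕ → ℂ) (H s : ℕ) : ℂ :=
  ∑ x ∈ (range H ×ˢ range H).filter (fun x => x.1 + x.2 = s), v x.1 * v x.2

lemma sq_eq (v : ℕ → ℂ) (H : ℕ) (y : ℝ) :
    (∑ i ∈ range H, v i * E (i * y)) ^ 2 = ∑ s ∈ range (2 * H), C2 v H s * E (s * y) := by
  rw [sq, sum_mul_sum, ← sum_product']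
  have hm : ∀ x ∈ range H ×ˢ range H, x.1 + x.2 ∈ range (2 * H) := by
    intro x hx
    rw [mem_product, mem_range, mem_range] at hx
    rw [mem_range]
    omega
  rw [← sum_fiberwise_of_maps_to hm]
  apply sum_congr rfl
  intro s _
  unfold C2
  rw [sum_mul]
  apply sum_congr rfl
  intro x hx
  have h1 : x.1 + x.2 = s := (mem_filter.mp hx).2
  have h2 : (s : ℝ) * y = x.1 * y + x.2 * y := by
    rw [← h1]; push_cast; ring
  rw [h2, E_add]
  ring

lemma fourth_eq {q H : ℕ} (hq : 0 < q) (hH : 2 * H ≤ q) (v : ℕ → ℂ) :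
    ∑ a ∈ range q, ‖∑ i ∈ range H, v i * E (a * ((i : ℝ) / q))‖ ^ 4 =
      q * ∑ s ∈ range (2 * H), ‖C2 v H s‖ ^ 2 := by
  rw [← parseval hq hH]
  apply sum_congr rfl
  intro a _
  have h1 : ∑ i ∈ range H, v i * E (a * ((i : ℝ) / q)) = ∑ i ∈ range H, v i * E (i * ((a : ℝ) / q)) := by
    apply sum_congr rfl
    intro i _
    congr 2
    ring
  have h2 : ∑ s ∈ range (2 * H), C2 v H s * E (a * ((s : ℝ) / q)) =
      ∑ s ∈ range (2 * H), C2 v H s * E (s * ((a : ℝ) / q)) := by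
    apply sum_congr rfl
    intro i _
    congr 2
    ring
  rw [h1, h2, ← sq_eq, norm_pow]
  ring

/-- the kernel -/
noncomputable def kap (B z : ℝ) : ℝ := if z = 0 then 1 else 1 / (2 * B * |z|)

lemma kap_nonneg {B : ℝ} (hB : 0 < B) (z : ℝ) : 0 ≤ kap B z := by
  unfold kap
  split_ifs
  · norm_num
  · positivity

lemma sum_kernel {B : ℝ} (hB : 0 < B) {R : ℕ} (hR : 0 < R) {z : ℝ} (hz : 2 * B * |z| ≤ R) :
    ‖∑ b ∈ range R, E (b * (B / R * z))‖ ≤ R * kap B z := by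
  have hR0 : (0 : ℝ) < R := by exact_mod_cast hR
  unfold kap
  split_ifs with h
  · subst h
    refine (norm_sum_le _ _).trans ?_
    simp [norm_E]
  · have h1 : B / R * z ≠ 0 := mul_ne_zero (by positivity) h
    have hz0 : 0 < |z| := abs_pos.mpr h
    have h2 : |B / R * z| = B * |z| / R := by
      rw [abs_mul, abs_of_pos (by positivity : (0 : ℝ) < B / R)]
      ring
    have h3 : |B / R * z| ≤ 1 / 2 := by
      rw [h2, div_le_iff₀ hR0]
      linarith
    refine (geom_le h1 h3 R).trans (le_of_eq ?_)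
    rw [h2]
    field_simp

lemma sum_b {B : ℝ} (hB : 0 < B) {R H : ℕ} (hR : 0 < R) (hRH : 4 * B * (H : ℝ) ^ 2 ≤ R)
    (U : ℕ → ℂ) (hU : ∀ i, ‖U i‖ ≤ 2) (A : ℝ) (s : ℕ) :
    ∑ b ∈ range R, ‖C2 (fun i => U i * E (b * (B / R * (A + i) ^ 2))) H s‖ ^ 2 ≤
      ∑ x ∈ (range H ×ˢ range H).filter (fun x => x.1 + x.2 = s),
        ∑ y ∈ (range H ×ˢ range H).filter (fun x => x.1 + x.2 = s),
          16 * (R * kap B (2 * ((x.1 : ℝ) - y.1) * ((y.1 : ℝ) - x.2))) := by
  set T := (range H ×ˢ range H).filter (fun x => x.1 + x.2 = s) with hT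
  have key : ((∑ b ∈ range R, ‖C2 (fun i => U i * E (b * (B / R * (A + i) ^ 2))) H s‖ ^ 2 : ℝ) : ℂ) =
      ∑ x ∈ T, ∑ y ∈ T, (U x.1 * U x.2 * (starRingEnd ℂ) (U y.1 * U y.2)) *
        ∑ b ∈ range R, E (b * (B / R * (2 * ((x.1 : ℝ) - y.1) * ((y.1 : ℝ) - x.2)))) := by
    push_cast
    have h1 : ∀ b ∈ range R, ((‖C2 (fun i => U i * E (b * (B / R * (A + i) ^ 2))) H s‖ : ℂ)) ^ 2 =
        ∑ x ∈ T, ∑ y ∈ T, (U x.1 * U x.2 * (starRingEnd ℂ) (U y.1 * U y.2)) *
          E (b * (B / R * (2 * ((x.1 : ℝ) - y.1) * ((y.1 : ℝ) - x.2)))) := by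
      intro b _
      rw [← Complex.mul_conj']
      unfold C2
      rw [map_sum, sum_mul_sum]
      apply sum_congr rfl
      intro x hx
      apply sum_congr rfl
      intro y hy
      have hx1 : (x.1 : ℝ) + x.2 = s := by exact_mod_cast (mem_filter.mp hx).2
      have hy1 : (y.1 : ℝ) + y.2 = s := by exact_mod_cast (mem_filter.mp hy).2
      have h2 : E (b * (B / R * (2 * ((x.1 : ℝ) - y.1) * ((y.1 : ℝ) - x.2)))) =
          E (b * (B / R * (A + x.1) ^ 2)) * E (b * (B / R * (A + x.2) ^ 2)) *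
          (E (-(b * (B / R * (A + y.1) ^ 2))) * E (-(b * (B / R * (A + y.2) ^ 2)))) := by
        rw [← E_add, ← E_add, ← E_add]
        congr 1
        have e1 : (x.2 : ℝ) = s - x.1 := by linarith
        have e2 : (y.2 : ℝ) = s - y.1 := by linarith
        rw [e1, e2]
        ring
      rw [h2]
      simp only [map_mul, conj_E]
      ring
    rw [sum_congr rfl h1, sum_comm]
    apply sum_congr rfl
    intro x _
    rw [sum_comm]
    apply sum_congr rfl
    intro y _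
    rw [mul_sum]
  have h0 : 0 ≤ ∑ b ∈ range R, ‖C2 (fun i => U i * E (b * (B / R * (A + i) ^ 2))) H s‖ ^ 2 :=
    sum_nonneg fun _ _ => by positivity
  have h3 := congrArg norm key
  rw [Complex.norm_real, Real.norm_eq_abs, abs_of_nonneg h0] at h3
  rw [h3]
  refine (norm_sum_le _ _).trans (sum_le_sum fun x hx => (norm_sum_le _ _).trans (sum_le_sum fun y hy => ?_))
  rw [norm_mul]
  have hxm := mem_product.mp (mem_filter.mp hx).1
  have hym := mem_product.mp (mem_filter.mp hy).1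
  have a1 : (x.1 : ℝ) < H := by exact_mod_cast mem_range.mp hxm.1
  have a2 : (x.2 : ℝ) < H := by exact_mod_cast mem_range.mp hxm.2
  have a3 : (y.1 : ℝ) < H := by exact_mod_cast mem_range.mp hym.1
  have b1 : (0 : ℝ) ≤ x.1 := Nat.cast_nonneg _
  have b2 : (0 : ℝ) ≤ x.2 := Nat.cast_nonneg _
  have b3 : (0 : ℝ) ≤ y.1 := Nat.cast_nonneg _
  have c1 : |(x.1 : ℝ) - y.1| ≤ H := by rw [abs_le]; constructor <;> linarith
  have c2 : |(y.1 : ℝ) - x.2| ≤ H := by rw [abs_le]; constructor <;> linarith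
  have h4 : |2 * ((x.1 : ℝ) - y.1) * ((y.1 : ℝ) - x.2)| ≤ 2 * (H : ℝ) ^ 2 := by
    rw [abs_mul, abs_mul, abs_of_pos (by norm_num : (0 : ℝ) < 2)]
    have : |(x.1 : ℝ) - y.1| * |(y.1 : ℝ) - x.2| ≤ H * H := mul_le_mul c1 c2 (abs_nonneg _) (by positivity)
    nlinarith
  have h5 := sum_kernel hB hR (z := 2 * ((x.1 : ℝ) - y.1) * ((y.1 : ℝ) - x.2)) (by
    have : 2 * B * |2 * ((x.1 : ℝ) - y.1) * ((y.1 : ℝ) - x.2)| ≤ 2 * B * (2 * (H : ℝ) ^ 2) := by gcongr
    linarith)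
  have h6 : ‖U x.1 * U x.2 * (starRingEnd ℂ) (U y.1 * U y.2)‖ ≤ 16 := by
    rw [norm_mul, norm_mul, Complex.norm_conj, norm_mul]
    have k1 : ‖U x.1‖ * ‖U x.2‖ ≤ 4 := by
      nlinarith [hU x.1, hU x.2, norm_nonneg (U x.1), norm_nonneg (U x.2)]
    have k2 : ‖U y.1‖ * ‖U y.2‖ ≤ 4 := by
      nlinarith [hU y.1, hU y.2, norm_nonneg (U y.1), norm_nonneg (U y.2)]
    have k3 : 0 ≤ ‖U y.1‖ * ‖U y.2‖ := by positivity
    calc ‖U x.1‖ * ‖U x.2‖ * (‖U y.1‖ * ‖U y.2‖) ≤ 4 * 4 := mul_le_mul k1 k2 k3 (by norm_num)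
      _ = 16 := by norm_num
  exact mul_le_mul h6 h5 (norm_nonneg _) (by norm_num)

lemma harm_le (n : ℕ) : ∑ k ∈ range n, 1 / ((k : ℝ) + 1) ≤ 1 + Real.log n := by
  have h := harmonic_le_one_add_log n
  have h2 : ((harmonic n : ℚ) : ℝ) = ∑ k ∈ range n, 1 / ((k : ℝ) + 1) := by
    unfold harmonic
    push_cast
    apply sum_congr rfl
    intro k _
    rw [one_div]
  rwa [h2] at h

lemma harm_le' {n H : ℕ} (h1 : n ≤ H) (hH : 1 ≤ H) :
    ∑ k ∈ range n, 1 / ((k : ℝ) + 1) ≤ 1 + Real.log H := by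
  refine (sum_le_sum_of_subset_of_nonneg (range_mono h1) fun _ _ _ => by positivity).trans (harm_le H)

lemma sum_inv {y H : ℕ} (hy : y < H) :
    ∑ x ∈ range H, 1 / |(x : ℝ) - y| ≤ 2 * (1 + Real.log H) := by
  have hs : range H = (range y ∪ {y}) ∪ Ico (y + 1) H := by
    ext x
    simp only [mem_range, mem_union, mem_singleton, mem_Ico]
    omega
  have hd1 : Disjoint (range y) ({y} : Finset ℕ) := by
    rw [disjoint_singleton_right, mem_range]; omega
  have hd2 : Disjoint (range y ∪ {y}) (Ico (y + 1) H) := by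
    rw [disjoint_left]
    intro x hx hx2
    simp only [mem_union, mem_range, mem_singleton] at hx
    rw [mem_Ico] at hx2
    omega
  rw [hs, sum_union hd2, sum_union hd1]
  simp only [sum_singleton, sub_self, abs_zero, div_zero, add_zero]
  have h1 : ∑ x ∈ range y, 1 / |(x : ℝ) - y| = ∑ k ∈ range y, 1 / ((k : ℝ) + 1) := by
    rw [← sum_range_reflect]
    apply sum_congr rfl
    intro k hk
    have hk' := mem_range.mp hk
    have e1 : ((y - 1 - k : ℕ) : ℝ) = y - 1 - k := by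
      have : y - 1 - k + 1 + k = y := by omega
      have h2 : ((y - 1 - k : ℕ) : ℝ) + 1 + k = y := by exact_mod_cast this
      linarith
    rw [e1]
    congr 1
    rw [abs_sub_comm, abs_of_nonneg (by have : (0 : ℝ) ≤ k := Nat.cast_nonneg _; linarith)]
    ring
  have h2 : ∑ x ∈ Ico (y + 1) H, 1 / |(x : ℝ) - y| = ∑ k ∈ range (H - (y + 1)), 1 / ((k : ℝ) + 1) := by
    rw [sum_Ico_eq_sum_range]
    apply sum_congr rfl
    intro k _
    push_cast
    congr 1
    rw [abs_of_nonneg (by have : (0 : ℝ) ≤ k := Nat.cast_nonneg _; linarith)]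
    ring
  rw [h1, h2]
  have h3 := harm_le' (n := y) (H := H) hy.le (by omega)
  have h4 := harm_le' (n := H - (y + 1)) (H := H) (by omega) (by omega)
  linarith

lemma kap_le {B : ℝ} (hB : 0 < B) (x₁ x₂ y : ℕ) :
    kap B (2 * ((x₁ : ℝ) - y) * ((y : ℝ) - x₂)) ≤
      (if x₁ = y then 1 else 0) + (if x₂ = y then 1 else 0) +
        1 / (4 * B) * ((1 / |(x₁ : ℝ) - y|) * (1 / |(x₂ : ℝ) - y|)) := by
  unfold kap
  have hp : 0 ≤ 1 / (4 * B) * ((1 / |(x₁ : ℝ) - y|) * (1 / |(x₂ : ℝ) - y|)) := by positivity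
  by_cases h1 : x₁ = y
  · subst h1
    simp only [sub_self, mul_zero, zero_mul, if_true]
    split_ifs <;> linarith
  · by_cases h2 : x₂ = y
    · subst h2
      simp only [sub_self, mul_zero, if_true]
      split_ifs <;> linarith
    · have e1 : (x₁ : ℝ) - y ≠ 0 := by
        intro h; apply h1; exact_mod_cast sub_eq_zero.mp h
      have e2 : (x₂ : ℝ) - y ≠ 0 := by
        intro h; apply h2; exact_mod_cast sub_eq_zero.mp h
      have e3 : (y : ℝ) - x₂ ≠ 0 := by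
        intro h; apply e2; linarith
      rw [if_neg (mul_ne_zero (mul_ne_zero two_ne_zero e1) e3), if_neg h1, if_neg h2, zero_add, zero_add]
      apply le_of_eq
      rw [abs_mul, abs_mul, abs_of_pos (by norm_num : (0 : ℝ) < 2), abs_sub_comm (y : ℝ) x₂]
      have p1 : |(x₁ : ℝ) - y| ≠ 0 := abs_ne_zero.mpr e1
      have p2 : |(x₂ : ℝ) - y| ≠ 0 := abs_ne_zero.mpr e2
      field_simp
      ring

lemma sum_kap {B : ℝ} (hB : 0 < B) {H : ℕ} :
    ∑ y ∈ range H, ∑ x₁ ∈ range H, ∑ x₂ ∈ range H, kap B (2 * ((x₁ : ℝ) - y) * ((y : ℝ) - x₂)) ≤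
      H * (2 * H + (1 + Real.log H) ^ 2 / B) := by
  calc ∑ y ∈ range H, ∑ x₁ ∈ range H, ∑ x₂ ∈ range H, kap B (2 * ((x₁ : ℝ) - y) * ((y : ℝ) - x₂))
      ≤ ∑ _y ∈ range H, (2 * (H : ℝ) + (1 + Real.log H) ^ 2 / B) := by
        apply sum_le_sum
        intro y hy
        have hy' := mem_range.mp hy
        have h1 : ∑ x₁ ∈ range H, ∑ x₂ ∈ range H, kap B (2 * ((x₁ : ℝ) - y) * ((y : ℝ) - x₂)) ≤
            ∑ x₁ ∈ range H, ∑ x₂ ∈ range H, ((if x₁ = y then (1 : ℝ) else 0) + (if x₂ = y then 1 else 0) +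
              1 / (4 * B) * ((1 / |(x₁ : ℝ) - y|) * (1 / |(x₂ : ℝ) - y|))) :=
          sum_le_sum fun x₁ _ => sum_le_sum fun x₂ _ => kap_le hB x₁ x₂ y
        refine h1.trans ?_
        simp only [sum_add_distrib, ← mul_sum, ← sum_mul, sum_const, card_range, nsmul_eq_mul,
          sum_ite_eq', hy, if_true]
        have h2 := sum_inv hy'
        have h3 : 0 ≤ ∑ x ∈ range H, 1 / |(x : ℝ) - y| := sum_nonneg fun _ _ => by positivity
        have h4 : (∑ x ∈ range H, 1 / |(x : ℝ) - y|) * (∑ x ∈ range H, 1 / |(x : ℝ) - y|) ≤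
            (2 * (1 + Real.log H)) * (2 * (1 + Real.log H)) :=
          mul_le_mul h2 h2 h3 (h3.trans h2)
        have h5 : 1 / (4 * B) * ((∑ x ∈ range H, 1 / |(x : ℝ) - y|) * (∑ x ∈ range H, 1 / |(x : ℝ) - y|)) ≤
            1 / (4 * B) * ((2 * (1 + Real.log H)) * (2 * (1 + Real.log H))) := by gcongr
        have h6 : 1 / (4 * B) * ((2 * (1 + Real.log H)) * (2 * (1 + Real.log H))) = (1 + Real.log H) ^ 2 / B := by
          field_simp
          ring
        rw [h6] at h5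
        linarith
    _ = _ := by
        rw [sum_const, card_range, nsmul_eq_mul]

/-- the fourth moment -/
lemma fourth_le {B : ℝ} (hB : 0 < B) {R H q : ℕ} (hR : 0 < R) (hRH : 4 * B * (H : ℝ) ^ 2 ≤ R)
    (hq : 0 < q) (hH : 2 * H ≤ q) (U : ℕ → ℂ) (hU : ∀ i, ‖U i‖ ≤ 2) (A : ℝ) :
    ∑ b ∈ range R, ∑ a ∈ range q,
      ‖∑ i ∈ range H, (U i * E (b * (B / R * (A + i) ^ 2))) * E (a * ((i : ℝ) / q))‖ ^ 4 ≤
      q * R * (16 * (H * (2 * H + (1 + Real.log H) ^ 2 / B))) := by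
  have h1 : ∀ b ∈ range R, ∑ a ∈ range q,
      ‖∑ i ∈ range H, (U i * E (b * (B / R * (A + i) ^ 2))) * E (a * ((i : ℝ) / q))‖ ^ 4 =
      q * ∑ s ∈ range (2 * H), ‖C2 (fun i => U i * E (b * (B / R * (A + i) ^ 2))) H s‖ ^ 2 := by
    intro b _
    exact fourth_eq hq hH _
  rw [sum_congr rfl h1, ← mul_sum, sum_comm, mul_assoc]
  apply mul_le_mul_of_nonneg_left _ (by positivity)
  have hm : ∀ x ∈ range H ×ˢ range H, x.1 + x.2 ∈ range (2 * H) := by
    intro x hx
    rw [mem_product, mem_range, mem_range] at hx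
    rw [mem_range]
    omega
  calc ∑ s ∈ range (2 * H), ∑ b ∈ range R, ‖C2 (fun i => U i * E (b * (B / R * (A + i) ^ 2))) H s‖ ^ 2
      ≤ ∑ s ∈ range (2 * H), ∑ x ∈ (range H ×ˢ range H).filter (fun x => x.1 + x.2 = s),
          ∑ y ∈ range H, 16 * (R * kap B (2 * ((x.1 : ℝ) - y) * ((y : ℝ) - x.2))) := by
        apply sum_le_sum
        intro s _
        refine (sum_b hB hR hRH U hU A s).trans (sum_le_sum fun x _ => ?_)
        have hinj : Set.InjOn Prod.fst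
            (((range H ×ˢ range H).filter (fun x => x.1 + x.2 = s) : Finset (ℕ × ℕ)) : Set (ℕ × ℕ)) := by
          intro u hu w hw huw
          have h1 := (mem_filter.mp (mem_coe.mp hu)).2
          have h2 := (mem_filter.mp (mem_coe.mp hw)).2
          apply Prod.ext huw
          omega
        have h2 := sum_image (s := (range H ×ˢ range H).filter (fun x => x.1 + x.2 = s)) (g := Prod.fst)
          (f := fun y : ℕ => 16 * ((R : ℝ) * kap B (2 * ((x.1 : ℝ) - y) * ((y : ℝ) - x.2)))) hinj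
        rw [← h2]
        apply sum_le_sum_of_subset_of_nonneg
        · intro y hy
          obtain ⟨u, hu, rfl⟩ := mem_image.mp hy
          exact (mem_product.mp (mem_filter.mp hu).1).1
        · intro y _ _
          have := kap_nonneg hB (2 * ((x.1 : ℝ) - y) * ((y : ℝ) - x.2))
          positivity
    _ = ∑ x ∈ range H ×ˢ range H, ∑ y ∈ range H, 16 * (R * kap B (2 * ((x.1 : ℝ) - y) * ((y : ℝ) - x.2))) :=
        sum_fiberwise_of_maps_to hm _
    _ = 16 * (R * ∑ y ∈ range H, ∑ x₁ ∈ range H, ∑ x₂ ∈ range H,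
          kap B (2 * ((x₁ : ℝ) - y) * ((y : ℝ) - x₂))) := by
        rw [sum_comm]
        simp only [sum_product, mul_sum]
    _ ≤ 16 * (R * (H * (2 * H + (1 + Real.log H) ^ 2 / B))) := by
        have := sum_kap hB (H := H)
        gcongr
    _ = _ := by ring

end Pool.Agent.H502.XQ
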