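import Pool.Agent.H502.XQ.D2

/-!
# One linear and quadratic twist for all windows, and the choice of a set of windows
-/

set_option autoImplicit false

open Finset

namespace Pool.Agent.H502.XQ

lemma ptwise {t μ : ℝ} (ht : 0 ≤ t) (hμ : 0 < μ) : (t ^ 2 - t ^ 4 / μ ^ 2) / μ ≤ t := by
  rw [div_le_iff₀ hμ]
  by_cases h : t ≤ μ
  · have h1 : 0 ≤ t ^ 4 / μ ^ 2 := by positivity
    nlinarith
  · push Not at h
    have h1 : t ^ 2 ≤ t ^ 4 / μ ^ 2 := by
      rw [le_div_iff₀ (by positivity)]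
      nlinarith [sq_nonneg t, mul_pos hμ hμ, sq_nonneg (t * t), mul_self_le_mul_self hμ.le h.le]
    have : 0 ≤ t * μ := by positivity
    linarith

/-- One choice of `(a, b)` for all windows. -/
lemma choose_ab {B : ℝ} (hB : 0 < B) {R H q : ℕ} (J : ℕ) (hR : 0 < R) (hRH : 4 * B * (H : ℝ) ^ 2 ≤ R)
    (hq : 0 < q) (hH : 2 * H ≤ q) (hH0 : 0 < H) (U : ℕ → ℕ → ℂ) (hU : ∀ j i, ‖U j i‖ ≤ 2)
    (hU2 : ∀ j, (H : ℝ) ≤ ∑ i ∈ range H, ‖U j i‖ ^ 2) (A : ℕ → ℝ) :
    ∃ a ∈ range q, ∃ b ∈ range R,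
      J * (H / (2 * √(32 * (2 * H + (1 + Real.log H) ^ 2 / B)))) ≤
      ∑ j ∈ range J, ‖∑ i ∈ range H, (U j i * E (b * (B / R * (A j + i) ^ 2))) * E (a * ((i : ℝ) / q))‖ := by
  by_contra hcon
  push Not at hcon
  have hH1 : (0 : ℝ) < H := by exact_mod_cast hH0
  have hq1 : (0 : ℝ) < q := by exact_mod_cast hq
  have hR1 : (0 : ℝ) < R := by exact_mod_cast hR
  set X : ℝ := 2 * H + (1 + Real.log H) ^ 2 / B with hX
  have hX0 : 0 < X := by positivity
  set μ : ℝ := √(32 * X) with hμ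
  have hμ0 : 0 < μ := by positivity
  have hμ2 : μ ^ 2 = 32 * X := Real.sq_sqrt (by positivity)
  set D : ℕ → ℕ → ℕ → ℝ := fun j b a =>
    ‖∑ i ∈ range H, (U j i * E (b * (B / R * (A j + i) ^ 2))) * E (a * ((i : ℝ) / q))‖ with hD
  have hD0 : ∀ j b a, 0 ≤ D j b a := fun j b a => norm_nonneg _
  -- second moment
  have h2 : ∀ j, (R : ℝ) * (q * H) ≤ ∑ b ∈ range R, ∑ a ∈ range q, D j b a ^ 2 := by
    intro j
    have h3 : ∀ b ∈ range R, (q : ℝ) * H ≤ ∑ a ∈ range q, D j b a ^ 2 := by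
      intro b _
      have h4 := parseval hq (by omega : H ≤ q) (fun i => U j i * E (b * (B / R * (A j + i) ^ 2)))
      have h5 : ∑ a ∈ range q, D j b a ^ 2 = q * ∑ i ∈ range H, ‖U j i‖ ^ 2 := by
        simp only [hD]
        rw [h4]
        congr 1
        apply sum_congr rfl
        intro i _
        rw [norm_mul, norm_E, mul_one]
      rw [h5]
      exact mul_le_mul_of_nonneg_left (hU2 j) hq1.le
    calc (R : ℝ) * (q * H) = ∑ _b ∈ range R, (q : ℝ) * H := by
          rw [sum_const, card_range, nsmul_eq_mul]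
      _ ≤ _ := sum_le_sum h3
  have h4 : ∀ j, ∑ b ∈ range R, ∑ a ∈ range q, D j b a ^ 4 ≤ q * R * (16 * (H * X)) := by
    intro j
    exact fourth_le hB hR hRH hq hH (U j) (hU j) (A j)
  -- sum over all
  have h5 : ∀ j, (q : ℝ) * R * (H / (2 * μ)) ≤ ∑ b ∈ range R, ∑ a ∈ range q, D j b a := by
    intro j
    have e1 : ∑ b ∈ range R, ∑ a ∈ range q, ((D j b a ^ 2 - D j b a ^ 4 / μ ^ 2) / μ) ≤
        ∑ b ∈ range R, ∑ a ∈ range q, D j b a :=
      sum_le_sum fun b _ => sum_le_sum fun a _ => ptwise (hD0 j b a) hμ0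
    refine le_trans ?_ e1
    have e2 : ∑ b ∈ range R, ∑ a ∈ range q, ((D j b a ^ 2 - D j b a ^ 4 / μ ^ 2) / μ) =
        (∑ b ∈ range R, ∑ a ∈ range q, D j b a ^ 2 -
          (∑ b ∈ range R, ∑ a ∈ range q, D j b a ^ 4) / μ ^ 2) / μ := by
      simp only [sum_div, sum_sub_distrib, sub_div]
    rw [e2]
    have e3 : (∑ b ∈ range R, ∑ a ∈ range q, D j b a ^ 4) / μ ^ 2 ≤ q * R * (16 * (H * X)) / (32 * X) := by
      rw [hμ2]
      exact div_le_div_of_nonneg_right (h4 j) (by positivity)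
    have e4 : (q : ℝ) * R * (16 * (H * X)) / (32 * X) = q * R * H / 2 := by
      field_simp
      ring
    rw [e4] at e3
    rw [le_div_iff₀ hμ0]
    have e5 : (q : ℝ) * R * (H / (2 * μ)) * μ = q * R * H / 2 := by
      field_simp
    rw [e5]
    have := h2 j
    linarith
  have h6 : (J : ℝ) * (q * R * (H / (2 * μ))) ≤ ∑ b ∈ range R, ∑ a ∈ range q, ∑ j ∈ range J, D j b a := by
    calc (J : ℝ) * (q * R * (H / (2 * μ))) = ∑ _j ∈ range J, (q : ℝ) * R * (H / (2 * μ)) := by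
          rw [sum_const, card_range, nsmul_eq_mul]
      _ ≤ ∑ j ∈ range J, ∑ b ∈ range R, ∑ a ∈ range q, D j b a := sum_le_sum fun j _ => h5 j
      _ = _ := by
          rw [sum_comm]
          apply sum_congr rfl
          intro b _
          rw [sum_comm]
  have h7 : ∑ b ∈ range R, ∑ a ∈ range q, ∑ j ∈ range J, D j b a <
      ∑ _b ∈ range R, ∑ _a ∈ range q, J * (H / (2 * μ)) := by
    apply sum_lt_sum_of_nonempty (nonempty_range_iff.mpr hR.ne')
    intro b hb
    apply sum_lt_sum_of_nonempty (nonempty_range_iff.mpr hq.ne')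
    intro a ha
    exact hcon a ha b hb
  simp only [sum_const, card_range, nsmul_eq_mul] at h7
  have h8 : (R : ℝ) * (q * (J * (H / (2 * μ)))) = J * (q * R * (H / (2 * μ))) := by ring
  linarith

/-- a subset of complex numbers with a large sum -/
lemma subset_sum (J : ℕ) (z : ℕ → ℂ) :
    ∃ S ⊆ range J, (1 / 4) * ∑ j ∈ range J, ‖z j‖ ≤ ‖∑ j ∈ S, z j‖ := by
  classical
  by_contra hcon
  push Not at hcon
  have k1 := hcon ((range J).filter (fun j => 0 ≤ (z j).re)) (filter_subset _ _)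
  have k2 := hcon ((range J).filter (fun j => ¬ 0 ≤ (z j).re)) (filter_subset _ _)
  have k3 := hcon ((range J).filter (fun j => 0 ≤ (z j).im)) (filter_subset _ _)
  have k4 := hcon ((range J).filter (fun j => ¬ 0 ≤ (z j).im)) (filter_subset _ _)
  have m1 := (Complex.abs_re_le_norm (∑ j ∈ (range J).filter (fun j => 0 ≤ (z j).re), z j)).trans_lt k1
  have m2 := (Complex.abs_re_le_norm (∑ j ∈ (range J).filter (fun j => ¬ 0 ≤ (z j).re), z j)).trans_lt k2
  have m3 := (Complex.abs_im_le_norm (∑ j ∈ (range J).filter (fun j => 0 ≤ (z j).im), z j)).trans_lt k3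
  have m4 := (Complex.abs_im_le_norm (∑ j ∈ (range J).filter (fun j => ¬ 0 ≤ (z j).im), z j)).trans_lt k4
  rw [Complex.re_sum] at m1 m2
  rw [Complex.im_sum] at m3 m4
  have n1 := (le_abs_self _).trans_lt m1
  have n2 := (neg_le_abs _).trans_lt m2
  have n3 := (le_abs_self _).trans_lt m3
  have n4 := (neg_le_abs _).trans_lt m4
  have r1 : ∑ j ∈ range J, |(z j).re| = ∑ j ∈ (range J).filter (fun j => 0 ≤ (z j).re), (z j).re +
      -∑ j ∈ (range J).filter (fun j => ¬ 0 ≤ (z j).re), (z j).re := by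
    rw [← sum_filter_add_sum_filter_not (range J) (fun j => 0 ≤ (z j).re), ← sum_neg_distrib]
    congr 1
    · apply sum_congr rfl
      intro j hj
      exact abs_of_nonneg (mem_filter.mp hj).2
    · apply sum_congr rfl
      intro j hj
      exact abs_of_neg (not_le.mp (mem_filter.mp hj).2)
  have r2 : ∑ j ∈ range J, |(z j).im| = ∑ j ∈ (range J).filter (fun j => 0 ≤ (z j).im), (z j).im +
      -∑ j ∈ (range J).filter (fun j => ¬ 0 ≤ (z j).im), (z j).im := by
    rw [← sum_filter_add_sum_filter_not (range J) (fun j => 0 ≤ (z j).im), ← sum_neg_distrib]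
    congr 1
    · apply sum_congr rfl
      intro j hj
      exact abs_of_nonneg (mem_filter.mp hj).2
    · apply sum_congr rfl
      intro j hj
      exact abs_of_neg (not_le.mp (mem_filter.mp hj).2)
  have r3 : ∑ j ∈ range J, ‖z j‖ ≤ ∑ j ∈ range J, |(z j).re| + ∑ j ∈ range J, |(z j).im| := by
    rw [← sum_add_distrib]
    exact sum_le_sum fun j _ => Complex.norm_le_abs_re_add_abs_im (z j)
  linarith

end Pool.Agent.H502.XQ
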