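import Pool.Agent.H502.XQ.D3

/-!
# The bump functions
-/

set_option autoImplicit false

open Finset

namespace Pool.Agent.H502.XQ

/-- the basic bump: `1` on `[1/4, 3/4]`, supported inside `(0, 1)` -/
noncomputable def psi : ContDiffBump (1 / 2 : ℝ) := ⟨1 / 4, 3 / 8, by norm_num, by norm_num⟩

lemma psi_one {x : ℝ} (h1 : 1 / 4 ≤ x) (h2 : x ≤ 3 / 4) : psi x = 1 := by
  apply psi.one_of_mem_closedBall
  rw [Metric.mem_closedBall, Real.dist_eq]
  change |x - 1 / 2| ≤ 1 / 4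
  rw [abs_le]
  constructor <;> linarith

lemma psi_zero' {x : ℝ} (h : x ≤ 0 ∨ 1 ≤ x) (p : ℕ) : iteratedDeriv p psi x = 0 := by
  rw [iteratedDeriv_eq_iteratedFDeriv]
  have h1 : iteratedFDeriv ℝ p psi x = 0 := by
    by_contra hne
    have h2 : x ∈ Function.support (iteratedFDeriv ℝ p psi) := hne
    have h3 := support_iteratedFDeriv_subset p h2
    rw [psi.tsupport_eq, Metric.mem_closedBall, Real.dist_eq] at h3
    change |x - 1 / 2| ≤ 3 / 8 at h3
    rw [abs_le] at h3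
    rcases h with h | h
    · linarith [h3.1]
    · linarith [h3.2]
  rw [h1]
  simp

lemma psi_zero {x : ℝ} (h : x ≤ 0 ∨ 1 ≤ x) : psi x = 0 := by
  have := psi_zero' h 0
  rwa [iteratedDeriv_zero] at this

lemma psi_bound (P : ℕ) : ∃ M : ℝ, 1 ≤ M ∧ ∀ p ≤ P, ∀ x, |iteratedDeriv p psi x| ≤ M := by
  have h1 : ∀ p : ℕ, ∃ C : ℝ, ∀ x, ‖iteratedFDeriv ℝ p psi x‖ ≤ C := by
    intro p
    have hc : Continuous (iteratedFDeriv ℝ p psi) :=
      (psi.contDiff (n := (⊤ : ℕ∞))).continuous_iteratedFDeriv (by exact_mod_cast le_top)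
    exact (psi.hasCompactSupport.iteratedFDeriv p).exists_bound_of_continuous hc
  choose C hC using h1
  refine ⟨1 + ∑ p ∈ range (P + 1), |C p|, ?_, ?_⟩
  · have : 0 ≤ ∑ p ∈ range (P + 1), |C p| := sum_nonneg fun _ _ => abs_nonneg _
    linarith
  · intro p hp x
    rw [← Real.norm_eq_abs, ← norm_iteratedFDeriv_eq_norm_iteratedDeriv]
    have h2 := single_le_sum (f := fun p => |C p|) (fun i _ => abs_nonneg _) (mem_range.mpr (Nat.lt_succ_of_le hp))
    have h3 := le_abs_self (C p)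
    have h4 := hC p x
    linarith

lemma psi_bound_seq : ∃ A : ℕ → ℝ, (∀ p, 0 ≤ A p) ∧ ∀ p x, |iteratedDeriv p psi x| ≤ A p := by
  have h := fun p : ℕ => psi_bound p
  choose A hA1 hA2 using h
  exact ⟨A, fun p => by linarith [hA1 p], fun p x => hA2 p p le_rfl x⟩

/-- bounds for the derivatives of the basic bump -/
noncomputable def Aseq : ℕ → ℝ := Classical.choose psi_bound_seq

lemma Aseq_nonneg (p : ℕ) : 0 ≤ Aseq p := (Classical.choose_spec psi_bound_seq).1 p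

lemma le_Aseq (p : ℕ) (x : ℝ) : |iteratedDeriv p psi x| ≤ Aseq p := (Classical.choose_spec psi_bound_seq).2 p x

/-- a sum of bumps -/
noncomputable def W (h m₀ : ℝ) (S : Finset ℕ) (x : ℝ) : ℝ := ∑ j ∈ S, psi (h⁻¹ * (x - (m₀ + h * j)))

lemma contDiff_piece (h c : ℝ) (n : WithTop ℕ∞) (hn : n ≤ ((⊤ : ℕ∞) : WithTop ℕ∞)) :
    ContDiff ℝ n (fun x : ℝ => psi (h⁻¹ * (x - c))) := by
  have h1 : ContDiff ℝ ((⊤ : ℕ∞) : WithTop ℕ∞) (fun x : ℝ => h⁻¹ * (x - c)) := by fun_prop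
  have h2 : ContDiff ℝ ((⊤ : ℕ∞) : WithTop ℕ∞) (psi : ℝ → ℝ) := psi.contDiff
  exact (h2.comp h1).of_le hn

lemma contDiff_W (h m₀ : ℝ) (S : Finset ℕ) (n : WithTop ℕ∞) (hn : n ≤ ((⊤ : ℕ∞) : WithTop ℕ∞)) :
    ContDiff ℝ n (W h m₀ S) := by
  unfold W
  exact ContDiff.sum fun j _ => contDiff_piece h _ n hn

lemma deriv_piece (h c : ℝ) (p : ℕ) (x : ℝ) :
    iteratedDeriv p (fun x : ℝ => psi (h⁻¹ * (x - c))) x = h⁻¹ ^ p * iteratedDeriv p psi (h⁻¹ * (x - c)) := by
  have h1 := congrFun (iteratedDeriv_comp_sub_const p (fun z : ℝ => psi (h⁻¹ * z)) c) x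
  rw [h1]
  have h2 := congrFun (iteratedDeriv_comp_const_mul (n := p) (f := (psi : ℝ → ℝ))
    (psi.contDiff) h⁻¹) (x - c)
  simpa using h2

lemma deriv_W {h : ℝ} (hh : 0 < h) (m₀ : ℝ) (S : Finset ℕ) {M : ℝ} {p : ℕ} (hM : 0 ≤ M)
    (hM2 : ∀ x, |iteratedDeriv p psi x| ≤ M) (x : ℝ) :
    |iteratedDeriv p (W h m₀ S) x| ≤ h⁻¹ ^ p * M := by
  have hle : (p : WithTop ℕ∞) ≤ ((⊤ : ℕ∞) : WithTop ℕ∞) := by exact_mod_cast le_top
  have h1 : iteratedDeriv p (W h m₀ S) x =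
      ∑ j ∈ S, h⁻¹ ^ p * iteratedDeriv p psi (h⁻¹ * (x - (m₀ + h * j))) := by
    have h2 := iteratedDeriv_fun_sum (n := p) (x := x) (I := S)
      (f := fun (j : ℕ) (x : ℝ) => psi (h⁻¹ * (x - (m₀ + h * j))))
      (fun j _ => (contDiff_piece h _ p hle).contDiffAt)
    have h3 : (fun z : ℝ => ∑ j ∈ S, (fun (j : ℕ) (x : ℝ) => psi (h⁻¹ * (x - (m₀ + h * j)))) j z) = W h m₀ S := by
      funext z
      rfl
    rw [h3] at h2
    rw [h2]
    apply sum_congr rfl
    intro j _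
    exact deriv_piece h _ p x
  rw [h1, ← mul_sum, abs_mul, abs_of_nonneg (by positivity : 0 ≤ h⁻¹ ^ p)]
  apply mul_le_mul_of_nonneg_left _ (by positivity)
  set y : ℝ := h⁻¹ * (x - m₀) with hy
  have h4 : ∀ j : ℕ, h⁻¹ * (x - (m₀ + h * j)) = y - j := by
    intro j
    rw [hy]
    field_simp
    ring
  calc |∑ j ∈ S, iteratedDeriv p psi (h⁻¹ * (x - (m₀ + h * j)))|
      ≤ ∑ j ∈ S, |iteratedDeriv p psi (h⁻¹ * (x - (m₀ + h * j)))| := abs_sum_le_sum_abs _ _
    _ ≤ ∑ j ∈ S, (if j = ⌊y⌋₊ then M else 0) := by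
        apply sum_le_sum
        intro j _
        rw [h4 j]
        split_ifs with hj
        · exact hM2 _
        · by_cases h5 : y - j ≤ 0 ∨ 1 ≤ y - j
          · rw [psi_zero' h5]; simp
          · exfalso
            push Not at h5
            apply hj
            symm
            rw [Nat.floor_eq_iff (by have : (0 : ℝ) ≤ j := Nat.cast_nonneg _; linarith [h5.1])]
            constructor <;> linarith [h5.1, h5.2]
    _ ≤ M := by
        rw [sum_ite_eq']
        split_ifs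
        · exact le_refl _
        · exact hM

lemma W_nat {h : ℕ} (hh : 0 < h) (m₀ : ℝ) (S : Finset ℕ) {j i : ℕ} (hi : i < h) :
    W h m₀ S (m₀ + (j * h + i : ℕ)) = if j ∈ S then psi ((i : ℝ) / h) else 0 := by
  have hh0 : (0 : ℝ) < h := by exact_mod_cast hh
  have hi0 : (i : ℝ) < h := by exact_mod_cast hi
  have hi1 : (0 : ℝ) ≤ i := Nat.cast_nonneg _
  unfold W
  have h1 : ∀ j' ∈ S, psi ((h : ℝ)⁻¹ * (m₀ + (j * h + i : ℕ) - (m₀ + h * j'))) =
      if j = j' then psi ((i : ℝ) / h) else 0 := by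
    intro j' _
    have h2 : (h : ℝ)⁻¹ * (m₀ + (j * h + i : ℕ) - (m₀ + h * j')) = (j : ℝ) - j' + i / h := by
      push_cast
      field_simp
      ring
    rw [h2]
    split_ifs with hj
    · subst hj
      simp
    · apply psi_zero
      have hlt : (i : ℝ) / h < 1 := by rw [div_lt_one hh0]; exact hi0
      have hge : 0 ≤ (i : ℝ) / h := by positivity
      rcases Nat.lt_or_gt_of_ne hj with h3 | h3
      · left
        have h4 : (j : ℝ) + 1 ≤ j' := by exact_mod_cast h3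
        linarith
      · right
        have h4 : (j' : ℝ) + 1 ≤ j := by exact_mod_cast h3
        linarith
  rw [sum_congr rfl h1, sum_ite_eq]

/-- derivatives of the quadratic polynomial -/
lemma deriv_quad (α β : ℝ) (p : ℕ) (x : ℝ) :
    iteratedDeriv p (fun x : ℝ => α * x + β * x ^ 2) x =
      if p = 0 then α * x + β * x ^ 2 else if p = 1 then α + 2 * β * x else if p = 2 then 2 * β else 0 := by
  have d1 : deriv (fun x : ℝ => α * x + β * x ^ 2) = fun x => α + 2 * β * x := by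
    funext x
    have : HasDerivAt (fun x : ℝ => α * x + β * x ^ 2) (α * 1 + β * ((2 : ℕ) * x ^ (2 - 1) * 1)) x :=
      ((hasDerivAt_id x).const_mul α).add (((hasDerivAt_id x).pow 2).const_mul β)
    rw [this.deriv]
    push_cast
    ring
  have d2 : deriv (fun x : ℝ => α + 2 * β * x) = fun _ => 2 * β := by
    funext x
    have : HasDerivAt (fun x : ℝ => α + 2 * β * x) (2 * β * 1) x :=
      ((hasDerivAt_id x).const_mul (2 * β)).const_add α
    rw [this.deriv]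
    ring
  rcases p with _ | _ | _ | n
  · simp [iteratedDeriv_zero]
  · rw [iteratedDeriv_succ', iteratedDeriv_zero, d1]
    simp
  · rw [iteratedDeriv_succ', iteratedDeriv_succ', iteratedDeriv_zero, d1, d2]
    simp
  · rw [iteratedDeriv_succ', iteratedDeriv_succ', iteratedDeriv_succ', d1, d2]
    simp [iteratedDeriv_const]

lemma sum_u {h : ℕ} (hh : 4 ≤ h) :
    (h : ℝ) ≤ ∑ i ∈ range h, ‖E (psi ((i : ℝ) / h) / 2) - 1‖ ^ 2 := by
  have hh0 : (0 : ℝ) < h := by exact_mod_cast (by omega : 0 < h)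
  have hs : Icc ((h + 3) / 4) (3 * h / 4) ⊆ range h := by
    intro i hi
    rw [mem_Icc] at hi
    rw [mem_range]
    omega
  have h1 : ∑ i ∈ Icc ((h + 3) / 4) (3 * h / 4), (4 : ℝ) ≤ ∑ i ∈ range h, ‖E (psi ((i : ℝ) / h) / 2) - 1‖ ^ 2 := by
    refine le_trans (sum_le_sum fun i hi => ?_) (sum_le_sum_of_subset_of_nonneg hs fun _ _ _ => by positivity)
    rw [mem_Icc] at hi
    have g1 : h ≤ 4 * i := by omega
    have g2 : 4 * i ≤ 3 * h := by omega
    have g1' : (h : ℝ) ≤ 4 * i := by exact_mod_cast g1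
    have g2' : (4 : ℝ) * i ≤ 3 * h := by exact_mod_cast g2
    rw [psi_one (by rw [le_div_iff₀ hh0]; linarith) (by rw [div_le_iff₀ hh0]; linarith)]
    have h2 : E (1 / 2) = -1 := by
      unfold E
      have : 2 * (Real.pi : ℂ) * Complex.I * ((1 / 2 : ℝ) : ℂ) = Real.pi * Complex.I := by
        push_cast; ring
      rw [this, Complex.exp_pi_mul_I]
    rw [h2]
    norm_num
  rw [sum_const, nsmul_eq_mul, Nat.card_Icc] at h1
  refine le_trans ?_ h1
  have h3 : h ≤ (3 * h / 4 + 1 - (h + 3) / 4) * 4 := by omega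
  exact_mod_cast h3

lemma u_le (h : ℕ) (i : ℕ) : ‖E (psi ((i : ℝ) / h) / 2) - 1‖ ≤ 2 := by
  refine (norm_sub_le _ _).trans ?_
  rw [norm_E, norm_one]
  norm_num

end Pool.Agent.H502.XQ
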