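import Pool.Agent.H502.XQ.D6

/-!
# The choice of the parameters
-/

set_option autoImplicit false

open Finset

namespace Pool.Agent.H502.XQ

/-- the size of the sums -/
noncomputable def size (P : ℕ) (N F : ℝ) : ℝ := min (min (√F) (√N * F ^ (1 / (2 * (P : ℝ))))) N

lemma size_sq {P : ℕ} {N F : ℝ} (hN : 0 < N) (hF : 0 < F) :
    0 ≤ size P N F ∧ size P N F ^ 2 ≤ N ^ 2 ∧ size P N F ^ 2 ≤ F ∧
      size P N F ^ 2 ≤ N * F ^ (1 / (P : ℝ)) := by
  have h0 : 0 ≤ size P N F := by unfold size; positivity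
  have h1 : size P N F ≤ N := min_le_right _ _
  have h2 : size P N F ≤ √F := (min_le_left _ _).trans (min_le_left _ _)
  have h3 : size P N F ≤ √N * F ^ (1 / (2 * (P : ℝ))) := (min_le_left _ _).trans (min_le_right _ _)
  refine ⟨h0, by gcongr, ?_, ?_⟩
  · calc size P N F ^ 2 ≤ √F ^ 2 := by gcongr
      _ = F := Real.sq_sqrt hF.le
  · calc size P N F ^ 2 ≤ (√N * F ^ (1 / (2 * (P : ℝ)))) ^ 2 := by gcongr
      _ = N * F ^ (1 / (P : ℝ)) := by
        rw [mul_pow, Real.sq_sqrt hN.le, ← Real.rpow_natCast (F ^ (1 / (2 * (P : ℝ)))) 2, ← Real.rpow_mul hF.le]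
        congr 2
        push_cast
        by_cases hP : (P : ℝ) = 0
        · rw [hP]; simp
        · field_simp

lemma quad_le {η N F B α β : ℝ} (hη : 0 < η) (hN : 0 < N) (hF : 0 < F) (hF2 : 16 / η * N ≤ F)
    (hB : B ≤ η * F / (16 * N ^ 2)) (hα0 : 0 ≤ α) (hα1 : α ≤ 1) (hβ0 : 0 ≤ β) (hβ1 : β ≤ B) (p : ℕ)
    {x : ℝ} (hx : x ∈ Set.Icc N (2 * N)) :
    |iteratedDeriv p (fun x : ℝ => α * x + β * x ^ 2) x| ≤ (1 / 2) * (η * F / N ^ p) := by
  have hx0 : 0 < x := hN.trans_le hx.1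
  have hx2 := hx.2
  have hβ : β * N ^ 2 ≤ η * F / 16 := by
    have : β ≤ η * F / (16 * N ^ 2) := hβ1.trans hB
    rw [le_div_iff₀ (by positivity)] at this
    linarith
  have hNF : N ≤ η * F / 16 := by
    have h1 : 16 / η * N * η = 16 * N := by field_simp
    have h2 : 16 / η * N * η ≤ F * η := mul_le_mul_of_nonneg_right hF2 hη.le
    linarith
  rw [deriv_quad]
  split_ifs with h0 h1 h2
  · subst h0
    rw [abs_of_nonneg (by positivity), pow_zero, div_one]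
    have e1 : α * x ≤ 1 * (2 * N) := mul_le_mul hα1 hx2 hx0.le (by norm_num)
    have e2 : β * x ^ 2 ≤ β * (2 * N) ^ 2 := by gcongr
    nlinarith
  · subst h1
    rw [abs_of_nonneg (by positivity), pow_one]
    rw [show (1 / 2 : ℝ) * (η * F / N) = (η * F / 2) / N by ring, le_div_iff₀ hN]
    have e1 : α * N ≤ 1 * N := mul_le_mul_of_nonneg_right hα1 hN.le
    have e2 : β * x * N ≤ β * (2 * N) * N := by gcongr
    nlinarith
  · subst h2
    rw [abs_of_nonneg (by positivity)]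
    rw [show (1 / 2 : ℝ) * (η * F / N ^ 2) = (η * F / 2) / N ^ 2 by ring, le_div_iff₀ (by positivity)]
    nlinarith
  · rw [abs_zero]
    positivity

/-- **The main estimate** -/
theorem main (P : ℕ) (hP : 1 ≤ P) (η : ℝ) (hη : 0 < η) :
    ∃ c : ℝ, 0 < c ∧ ∃ N₀ : ℝ, 16 ≤ N₀ ∧ ∀ N F : ℝ, N₀ ≤ N → N₀ * N ≤ F → ∀ f₀ : ℝ → ℝ,
      ∃ w : ℝ → ℝ, ContDiff ℝ ((⊤ : ℕ∞) : WithTop ℕ∞) w ∧
        (∀ p ≤ P, ∀ x ∈ Set.Icc N (2 * N), |iteratedDeriv p w x| ≤ η * F / N ^ p) ∧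
        (∀ p : ℕ, ∀ x ∈ Set.Icc N (2 * N), |iteratedDeriv p w x| ≤ η * F / N ^ p + Aseq p) ∧
        ∃ N' : ℝ, N ≤ N' ∧ N' ≤ 2 * N ∧
          c * size P N F / Real.log N ≤ ‖∑ n ∈ Icc ⌈N⌉₊ ⌊N'⌋₊, E (f₀ n + w n)‖ := by
  obtain ⟨M, hM1, hM⟩ := psi_bound P
  have hM0 : 0 < M := by linarith
  have hP0 : (0 : ℝ) < P := by exact_mod_cast hP
  set c₁ : ℝ := min 1 (η / 16) with hc₁
  have hc₁0 : 0 < c₁ := by positivity
  have hc₁1 : c₁ ≤ 1 := min_le_left _ _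
  set K₂ : ℝ := 7 + (M / η) ^ (1 / (P : ℝ)) with hK₂
  have hK₂0 : 0 < K₂ := by positivity
  refine ⟨√(c₁ / (4096 * 384 * K₂)), by positivity, 16 + 16 / η + 16 ^ P * (M / η), by
    have : 0 < 16 / η + 16 ^ P * (M / η) := by positivity
    linarith, ?_⟩
  intro N F hN hF f₀
  have hpos1 : 0 < 16 / η := by positivity
  have hpos2 : 0 < 16 ^ P * (M / η) := by positivity
  have hN16 : 16 ≤ N := by linarith
  have hN0 : 0 < N := by linarith
  have hF16 : 16 * N ≤ F := le_trans (mul_le_mul_of_nonneg_right (by linarith) hN0.le) hF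
  have hFη : 16 / η * N ≤ F := le_trans (mul_le_mul_of_nonneg_right (by linarith) hN0.le) hF
  have hFM : 16 ^ P * (M / η) * N ≤ F := le_trans (mul_le_mul_of_nonneg_right (by linarith) hN0.le) hF
  have hF0 : 0 < F := by linarith
  have hFM' : 16 ^ P * (M / η) ≤ F := by
    refine le_trans ?_ hFM
    exact le_mul_of_one_le_right hpos2.le (by linarith)
  set κ : ℝ := N * (M / (η * F)) ^ (1 / (P : ℝ)) with hκ
  have hκ0 : 0 < κ := by positivity
  set h : ℕ := max 4 (max ⌈κ⌉₊ ⌈N ^ 2 / F⌉₊) with hh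
  have hh4 : 4 ≤ h := le_max_left _ _
  have hh0 : (0 : ℝ) < h := by exact_mod_cast (by omega : 0 < h)
  have hhκ : κ ≤ h := (Nat.le_ceil κ).trans (by exact_mod_cast (le_max_left _ _).trans (le_max_right _ _))
  have hhF : N ^ 2 / F ≤ h := (Nat.le_ceil _).trans (by exact_mod_cast (le_max_right _ _).trans (le_max_right _ _))
  have hq1 : (⌈κ⌉₊ : ℝ) < κ + 1 := Nat.ceil_lt_add_one hκ0.le
  have hq2 : (⌈N ^ 2 / F⌉₊ : ℝ) < N ^ 2 / F + 1 := Nat.ceil_lt_add_one (by positivity)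
  have hnf0 : 0 ≤ N ^ 2 / F := by positivity
  have hhle : (h : ℝ) ≤ 6 + κ + N ^ 2 / F := by
    rw [hh]
    push_cast
    refine max_le (by linarith) (max_le (by linarith) (by linarith))
  have hκN : (M / (η * F)) ^ (1 / (P : ℝ)) ≤ 1 / 16 := by
    have h1 : M / (η * F) ≤ (1 / 16) ^ P := by
      rw [div_le_iff₀ (by positivity), one_div, inv_pow]
      rw [inv_mul_eq_div, le_div_iff₀ (by positivity)]
      have h2 : 16 ^ P * (M / η) * η ≤ F * η := mul_le_mul_of_nonneg_right hFM' hη.le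
      have h3 : 16 ^ P * (M / η) * η = M * 16 ^ P := by field_simp
      linarith
    calc (M / (η * F)) ^ (1 / (P : ℝ)) ≤ ((1 / 16 : ℝ) ^ P) ^ (1 / (P : ℝ)) := by
          apply Real.rpow_le_rpow (by positivity) h1 (by positivity)
      _ = 1 / 16 := by
          rw [one_div (P : ℝ)]
          exact Real.pow_rpow_inv_natCast (by norm_num) (by omega)
  have hκN2 : κ ≤ N / 16 := by
    rw [hκ]
    nlinarith
  have hFN2 : N ^ 2 / F ≤ N / 16 := by
    rw [div_le_div_iff₀ hF0 (by norm_num)]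
    nlinarith
  have hhN : (h : ℝ) ≤ N / 4 := by
    rw [hh]
    push_cast
    refine max_le (by linarith) (max_le (by linarith) (by linarith))
  -- the derivative condition
  have hder : ∀ p ≤ P, (h : ℝ)⁻¹ ^ p * M ≤ η * F / N ^ p := by
    intro p hp
    have h1 : (h : ℝ) / N ≤ 1 := by rw [div_le_one hN0]; linarith
    have h2 : ((h : ℝ) / N) ^ P ≤ ((h : ℝ) / N) ^ p := pow_le_pow_of_le_one (by positivity) h1 hp
    have h3 : M / (η * F) ≤ ((h : ℝ) / N) ^ P := by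
      calc M / (η * F) = ((M / (η * F)) ^ (1 / (P : ℝ))) ^ P := by
            rw [one_div]
            exact (Real.rpow_inv_natCast_pow (by positivity) (by omega)).symm
        _ ≤ ((h : ℝ) / N) ^ P := by
            apply pow_le_pow_left₀ (by positivity)
            rw [le_div_iff₀ hN0]
            calc (M / (η * F)) ^ (1 / (P : ℝ)) * N = κ := by rw [hκ]; ring
              _ ≤ h := hhκ
    have h4 := h3.trans h2
    rw [div_le_iff₀ (by positivity), div_pow] at h4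
    rw [inv_pow, inv_mul_eq_div, div_le_div_iff₀ (by positivity) (by positivity)]
    have h5 : (h : ℝ) ^ p / N ^ p * (η * F) * N ^ p = η * F * h ^ p := by field_simp
    have h6 : M * N ^ p ≤ (h : ℝ) ^ p / N ^ p * (η * F) * N ^ p := mul_le_mul_of_nonneg_right h4 (by positivity)
    linarith
  set B : ℝ := min 1 (η * F / (16 * N ^ 2)) with hB
  have hB0 : 0 < B := by positivity
  have hB1 : B ≤ η * F / (16 * N ^ 2) := min_le_right _ _
  have hhB : c₁ ≤ h * B := by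
    rw [hB, mul_min_of_nonneg _ _ hh0.le]
    apply le_min
    · have : (4 : ℝ) ≤ h := by exact_mod_cast hh4
      linarith
    · calc c₁ ≤ η / 16 := min_le_right _ _
        _ = N ^ 2 / F * (η * F / (16 * N ^ 2)) := by field_simp
        _ ≤ h * (η * F / (16 * N ^ 2)) := by gcongr
  set R : ℕ := ⌈4 * B * (h : ℝ) ^ 2⌉₊ + 1 with hR
  have hR0 : 0 < R := by omega
  have hRh : 4 * B * (h : ℝ) ^ 2 ≤ R := by
    rw [hR]
    push_cast
    have := Nat.le_ceil (4 * B * (h : ℝ) ^ 2)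
    linarith
  set J : ℕ := ⌊N / (2 * h)⌋₊ with hJ
  have hJ1 : (J : ℝ) ≤ N / (2 * h) := Nat.floor_le (by positivity)
  have hJ2 : N / (2 * h) < J + 1 := Nat.lt_floor_add_one _
  have hN4h : 1 ≤ N / (4 * h) := by
    rw [one_le_div (by positivity)]
    linarith
  have hN42 : N / (2 * h) = 2 * (N / (4 * h)) := by
    field_simp
    ring
  have hJ3 : N / (4 * h) ≤ J := by linarith
  have hJh1 : (J : ℝ) * h ≤ N / 2 := by
    calc (J : ℝ) * h ≤ N / (2 * h) * h := by gcongr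
      _ = N / 2 := by field_simp
  have hJh2 : N / 4 ≤ (J : ℝ) * h := by
    calc N / 4 = N / (4 * h) * h := by field_simp
      _ ≤ J * h := by gcongr
  have hJh3 : 1 ≤ J * h := by
    have : (1 : ℝ) ≤ (J : ℝ) * h := by linarith
    exact_mod_cast this
  obtain ⟨a, ha, b, hb, S, hS⟩ := core hB0 (q := 2 * h) J ⌈N⌉₊ hR0 hRh (by omega) le_rfl hh4 f₀
  have hR0' : (0 : ℝ) < R := by exact_mod_cast hR0
  have hα0 : 0 ≤ (a : ℝ) / ((2 * h : ℕ) : ℝ) := by positivity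
  have hα1 : (a : ℝ) / ((2 * h : ℕ) : ℝ) ≤ 1 := by
    rw [div_le_one (by exact_mod_cast (by omega : 0 < 2 * h))]
    exact_mod_cast ha.le
  have hβ0 : 0 ≤ (b : ℝ) * (B / R) := by positivity
  have hβ1 : (b : ℝ) * (B / R) ≤ B := by
    have : (b : ℝ) ≤ R := by exact_mod_cast hb.le
    calc (b : ℝ) * (B / R) ≤ R * (B / R) := by gcongr
      _ = B := by field_simp
  refine ⟨fun x => (((a : ℝ) / ((2 * h : ℕ) : ℝ)) * x + (b * (B / R)) * x ^ 2) + (1 / 2) * W h (⌈N⌉₊ : ℝ) S x, ?_, ?_, ?_, ?_⟩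
  · have h1 : ContDiff ℝ ((⊤ : ℕ∞) : WithTop ℕ∞) (W h (⌈N⌉₊ : ℝ) S) := contDiff_W _ _ _ _ le_rfl
    exact (by fun_prop : ContDiff ℝ ((⊤ : ℕ∞) : WithTop ℕ∞)
      (fun x : ℝ => ((a : ℝ) / ((2 * h : ℕ) : ℝ)) * x + (b * (B / R)) * x ^ 2)).add (contDiff_const.mul h1)
  · intro p hp x hx
    have hle : (p : WithTop ℕ∞) ≤ ((⊤ : ℕ∞) : WithTop ℕ∞) := by exact_mod_cast le_top
    have h1 : ContDiff ℝ (p : WithTop ℕ∞) (fun x => (1 / 2) * W h (⌈N⌉₊ : ℝ) S x) :=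
      contDiff_const.mul (contDiff_W _ _ _ _ hle)
    have h2 : ContDiff ℝ (p : WithTop ℕ∞)
      (fun x : ℝ => ((a : ℝ) / ((2 * h : ℕ) : ℝ)) * x + (b * (B / R)) * x ^ 2) := by fun_prop
    rw [iteratedDeriv_fun_add h2.contDiffAt h1.contDiffAt, iteratedDeriv_const_mul_field]
    refine (abs_add_le _ _).trans ?_
    have h3 := quad_le hη hN0 hF0 hFη hB1 hα0 hα1 hβ0 hβ1 p hx
    have h4 := deriv_W hh0 (⌈N⌉₊ : ℝ) S hM0.le (hM p hp) x
    have h5 := h4.trans (hder p hp)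
    have h6 : |(1 / 2 : ℝ) * iteratedDeriv p (W h (⌈N⌉₊ : ℝ) S) x| ≤ (1 / 2) * (η * F / N ^ p) := by
      rw [abs_mul, abs_of_pos (by norm_num : (0 : ℝ) < 1 / 2)]
      gcongr
    linarith
  · intro p x hx
    have hle : (p : WithTop ℕ∞) ≤ ((⊤ : ℕ∞) : WithTop ℕ∞) := by exact_mod_cast le_top
    have h1 : ContDiff ℝ (p : WithTop ℕ∞) (fun x => (1 / 2) * W h (⌈N⌉₊ : ℝ) S x) :=
      contDiff_const.mul (contDiff_W _ _ _ _ hle)
    have h2 : ContDiff ℝ (p : WithTop ℕ∞)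
      (fun x : ℝ => ((a : ℝ) / ((2 * h : ℕ) : ℝ)) * x + (b * (B / R)) * x ^ 2) := by fun_prop
    rw [iteratedDeriv_fun_add h2.contDiffAt h1.contDiffAt, iteratedDeriv_const_mul_field]
    refine (abs_add_le _ _).trans ?_
    have h3 := quad_le hη hN0 hF0 hFη hB1 hα0 hα1 hβ0 hβ1 p hx
    have h4 := deriv_W hh0 (⌈N⌉₊ : ℝ) S (Aseq_nonneg p) (le_Aseq p) x
    have h41 : (1 : ℝ) ≤ h := by exact_mod_cast (by omega : 1 ≤ h)
    have h5 : (h : ℝ)⁻¹ ^ p ≤ 1 := pow_le_one₀ (by positivity) (inv_le_one_of_one_le₀ h41)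
    have h6 : |(1 / 2 : ℝ) * iteratedDeriv p (W h (⌈N⌉₊ : ℝ) S) x| ≤ Aseq p := by
      rw [abs_mul, abs_of_pos (by norm_num : (0 : ℝ) < 1 / 2)]
      have h7 : (h : ℝ)⁻¹ ^ p * Aseq p ≤ 1 * Aseq p := mul_le_mul_of_nonneg_right h5 (Aseq_nonneg p)
      have h8 := Aseq_nonneg p
      have h9 := h4.trans h7
      linarith [abs_nonneg (iteratedDeriv p (W h (⌈N⌉₊ : ℝ) S) x)]
    have h10 : 0 ≤ η * F / N ^ p := by positivity
    linarith
  · refine ⟨((⌈N⌉₊ + J * h - 1 : ℕ) : ℝ), ?_, ?_, ?_⟩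
    · have h1 := Nat.le_ceil N
      have h2 : ⌈N⌉₊ ≤ ⌈N⌉₊ + J * h - 1 := by omega
      have h3 : (⌈N⌉₊ : ℝ) ≤ ((⌈N⌉₊ + J * h - 1 : ℕ) : ℝ) := by exact_mod_cast h2
      linarith
    · have h1 := Nat.ceil_lt_add_one hN0.le
      have h2 : ((⌈N⌉₊ + J * h - 1 : ℕ) : ℝ) + 1 = ⌈N⌉₊ + J * h := by
        have : ⌈N⌉₊ + J * h - 1 + 1 = ⌈N⌉₊ + J * h := by omega
        exact_mod_cast this
      linarith
    · rw [Nat.floor_natCast]
      have h1 : Icc ⌈N⌉₊ (⌈N⌉₊ + J * h - 1) = Ico ⌈N⌉₊ (⌈N⌉₊ + J * h) := by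
        ext n
        rw [mem_Icc, mem_Ico]
        omega
      rw [h1, sum_Ico_eq_sum_range, Nat.add_sub_cancel_left]
      have h2 : ∑ k ∈ range (J * h), E (f₀ ((⌈N⌉₊ + k : ℕ) : ℝ) + (((a : ℝ) / ((2 * h : ℕ) : ℝ)) * ((⌈N⌉₊ + k : ℕ) : ℝ) +
          (b * (B / R)) * ((⌈N⌉₊ + k : ℕ) : ℝ) ^ 2 + (1 / 2) * W h (⌈N⌉₊ : ℝ) S ((⌈N⌉₊ + k : ℕ) : ℝ))) =
          ∑ k ∈ range (J * h), E (f₀ ((⌈N⌉₊ + k : ℕ) : ℝ) + ((((a : ℝ) / ((2 * h : ℕ) : ℝ)) * ((⌈N⌉₊ + k : ℕ) : ℝ) +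
          (b * (B / R)) * ((⌈N⌉₊ + k : ℕ) : ℝ) ^ 2) + (1 / 2) * W h (⌈N⌉₊ : ℝ) S ((⌈N⌉₊ + k : ℕ) : ℝ))) := rfl
      refine le_trans ?_ hS
      -- the size
      set ℓ : ℝ := 1 + Real.log h with hℓ
      have hlog1 : 0 ≤ Real.log h := Real.log_nonneg (by
        have : (4 : ℝ) ≤ h := by exact_mod_cast hh4
        linarith)
      have hℓ1 : 1 ≤ ℓ := by linarith
      have hlogN : 1 ≤ Real.log N := by
        rw [Real.le_log_iff_exp_le hN0]
        have := Real.exp_one_lt_d9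
        linarith
      have hℓ2 : ℓ ≤ 2 * Real.log N := by
        have : Real.log h ≤ Real.log N := Real.log_le_log hh0 (by linarith)
        linarith
      set X : ℝ := 2 * h + ℓ ^ 2 / B with hX
      have hX0 : 0 < X := by positivity
      have hX1 : X ≤ 3 * h * ℓ ^ 2 / c₁ := by
        have e1 : ℓ ^ 2 / B ≤ h * ℓ ^ 2 / c₁ := by
          rw [div_le_div_iff₀ hB0 hc₁0]
          nlinarith [sq_nonneg ℓ, mul_le_mul_of_nonneg_left hhB (sq_nonneg ℓ)]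
        have e2 : 2 * (h : ℝ) ≤ 2 * h * ℓ ^ 2 / c₁ := by
          rw [le_div_iff₀ hc₁0]
          have : c₁ ≤ ℓ ^ 2 := by nlinarith
          nlinarith
        have e3 : 3 * h * ℓ ^ 2 / c₁ = 2 * h * ℓ ^ 2 / c₁ + h * ℓ ^ 2 / c₁ := by ring
        linarith
      set s : ℝ := √(32 * X) with hs
      have hs0 : 0 < s := by positivity
      have hs2 : s ^ 2 = 32 * X := Real.sq_sqrt (by positivity)
      obtain ⟨m0, m1, m2, m3⟩ := size_sq (P := P) hN0 hF0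
      set m : ℝ := size P N F with hm
      have hmh : m ^ 2 * h ≤ N ^ 2 * K₂ := by
        have e1 : m ^ 2 * κ ≤ N ^ 2 * (M / η) ^ (1 / (P : ℝ)) := by
          calc m ^ 2 * κ ≤ (N * F ^ (1 / (P : ℝ))) * κ := by gcongr
            _ = N ^ 2 * (F ^ (1 / (P : ℝ)) * (M / (η * F)) ^ (1 / (P : ℝ))) := by rw [hκ]; ring
            _ = N ^ 2 * (M / η) ^ (1 / (P : ℝ)) := by
                rw [← Real.mul_rpow hF0.le (by positivity)]
                congr 2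
                field_simp
        have e2 : m ^ 2 * (N ^ 2 / F) ≤ N ^ 2 := by
          calc m ^ 2 * (N ^ 2 / F) ≤ F * (N ^ 2 / F) := by gcongr
            _ = N ^ 2 := by field_simp
        calc m ^ 2 * h ≤ m ^ 2 * (6 + κ + N ^ 2 / F) := by gcongr
          _ = 6 * m ^ 2 + m ^ 2 * κ + m ^ 2 * (N ^ 2 / F) := by ring
          _ ≤ 6 * N ^ 2 + N ^ 2 * (M / η) ^ (1 / (P : ℝ)) + N ^ 2 := by linarith
          _ = N ^ 2 * K₂ := by rw [hK₂]; ring
      set c : ℝ := √(c₁ / (4096 * 384 * K₂)) with hc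
      have hc0 : 0 < c := by positivity
      have hc2 : c ^ 2 = c₁ / (4096 * 384 * K₂) := Real.sq_sqrt (by positivity)
      have hfin : c * m * (64 * s) ≤ N * Real.log N := by
        rw [← sq_le_sq₀ (by positivity) (by positivity)]
        calc (c * m * (64 * s)) ^ 2 = c ^ 2 * m ^ 2 * (4096 * s ^ 2) := by ring
          _ = c ^ 2 * m ^ 2 * (4096 * (32 * X)) := by rw [hs2]
          _ ≤ c ^ 2 * m ^ 2 * (4096 * (32 * (3 * h * ℓ ^ 2 / c₁))) := by gcongr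
          _ = c ^ 2 * (4096 * 96 / c₁) * (m ^ 2 * h) * ℓ ^ 2 := by ring
          _ ≤ c ^ 2 * (4096 * 96 / c₁) * (N ^ 2 * K₂) * (2 * Real.log N) ^ 2 := by gcongr
          _ = (N * Real.log N) ^ 2 := by
              rw [hc2]
              field_simp
              ring
      calc c * m / Real.log N ≤ N / (64 * s) := by
            rw [div_le_div_iff₀ (by positivity) (by positivity)]
            exact hfin
        _ = (1 / 8) * ((N / (4 * h)) * ((h : ℝ) / (2 * s))) := by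
            field_simp
            ring
        _ ≤ (1 / 8) * (J * ((h : ℝ) / (2 * s))) := by gcongr

end Pool.Agent.H502.XQ
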