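import Pool.Agent.H502.XQ.D7

/-!
# The classical class with finitely many conditions
-/

set_option autoImplicit false

open Finset

namespace Pool.Agent.H502.XQ

/-- `(s)_p` -/
noncomputable def poch (s : ℝ) (p : ℕ) : ℝ := ∏ i ∈ range p, (s + i)

/-- the class `F(N, P, s, y, η)` -/
def ClassP (N : ℝ) (P : ℕ) (s y η : ℝ) (f : ℝ → ℝ) : Prop :=
  ContDiffOn ℝ ((⊤ : ℕ∞) : WithTop ℕ∞) f (Set.Icc N (2 * N)) ∧
  ∀ p < P, ∀ x ∈ Set.Icc N (2 * N),
    |iteratedDerivWithin (p + 1) f (Set.Icc N (2 * N)) x - (-1) ^ p * poch s p * y * x ^ (-s - (p : ℝ))| ≤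
      η * (poch s p * y * x ^ (-s - (p : ℝ)))

/-- the model function: `f' = y x ^ (-s)` -/
noncomputable def model (s y x : ℝ) : ℝ := if s = 1 then y * Real.log x else y * x ^ (1 - s) / (1 - s)

lemma model_deriv (s y : ℝ) {x : ℝ} (hx : 0 < x) : HasDerivAt (model s y) (y * x ^ (-s)) x := by
  unfold model
  by_cases hs : s = 1
  · simp only [hs, if_true]
    have h := (Real.hasDerivAt_log hx.ne').const_mul y
    rwa [← Real.rpow_neg_one] at h
  · simp only [hs, if_false]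
    have hs' : 1 - s ≠ 0 := fun h => hs (by linarith)
    have h := ((Real.hasDerivAt_rpow_const (x := x) (p := 1 - s) (Or.inl hx.ne')).const_mul y).div_const (1 - s)
    have e : y * ((1 - s) * x ^ (1 - s - 1)) / (1 - s) = y * x ^ (-s) := by
      rw [show 1 - s - 1 = -s by ring]
      field_simp
    rwa [e] at h

lemma model_contDiffAt (s y : ℝ) {x : ℝ} (hx : 0 < x) (n : WithTop ℕ∞) : ContDiffAt ℝ n (model s y) x := by
  unfold model
  by_cases hs : s = 1
  · simp only [hs, if_true]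
    exact contDiffAt_const.mul (Real.contDiffAt_log.mpr hx.ne')
  · simp only [hs, if_false]
    exact (contDiffAt_const.mul (Real.contDiffAt_rpow_const_of_ne hx.ne')).div_const _

lemma model_iter (s y : ℝ) (p : ℕ) : ∀ x : ℝ, 0 < x →
    iteratedDeriv (p + 1) (model s y) x = (-1) ^ p * poch s p * y * x ^ (-s - (p : ℝ)) := by
  induction p with
  | zero =>
    intro x hx
    rw [zero_add, iteratedDeriv_one, (model_deriv s y hx).deriv]
    simp [poch]
  | succ p ih =>
    intro x hx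
    rw [iteratedDeriv_succ]
    have h1 : iteratedDeriv (p + 1) (model s y) =ᶠ[nhds x]
        fun x => (-1) ^ p * poch s p * y * x ^ (-s - (p : ℝ)) := by
      filter_upwards [lt_mem_nhds hx] with z hz
      exact ih z hz
    rw [h1.deriv_eq]
    have h2 := (Real.hasDerivAt_rpow_const (x := x) (p := -s - (p : ℝ)) (Or.inl hx.ne')).const_mul
      ((-1) ^ p * poch s p * y)
    rw [h2.deriv]
    have h3 : poch s (p + 1) = poch s p * (s + p) := by
      unfold poch
      rw [prod_range_succ]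
    have h4 : -s - (p : ℝ) - 1 = -s - ((p + 1 : ℕ) : ℝ) := by push_cast; ring
    rw [h3, h4, pow_succ]
    ring

lemma poch_ge {s : ℝ} (hs : 0 < s) {p P : ℕ} (hp : p ≤ P) : (min s 1) ^ P ≤ poch s p := by
  have h0 : 0 < min s 1 := by positivity
  calc (min s 1) ^ P ≤ (min s 1) ^ p := pow_le_pow_of_le_one h0.le (min_le_right _ _) hp
    _ = ∏ _i ∈ range p, min s 1 := by rw [prod_const, card_range]
    _ ≤ poch s p := by
        unfold poch
        apply prod_le_prod (fun _ _ => h0.le)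
        intro i _
        have : (0 : ℝ) ≤ i := Nat.cast_nonneg _
        linarith [min_le_left s 1]

lemma size_scale {P : ℕ} (hP : 1 ≤ P) {N F δ : ℝ} (hN : 0 < N) (hF : 0 < F) (hδ : 0 < δ) (hδ1 : δ ≤ 1) :
    √δ * size P N F ≤ size P N (δ * F) := by
  have hs1 : √δ ≤ 1 := by
    rw [Real.sqrt_le_left (by norm_num)]
    linarith
  have hs0 : 0 ≤ √δ := Real.sqrt_nonneg _
  have hP0 : (1 : ℝ) ≤ P := by exact_mod_cast hP
  unfold size
  have h0 : 0 ≤ min (min (√F) (√N * F ^ (1 / (2 * (P : ℝ))))) N := by positivity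
  refine le_min (le_min ?_ ?_) ?_
  · rw [Real.sqrt_mul hδ.le]
    exact mul_le_mul_of_nonneg_left ((min_le_left _ _).trans (min_le_left _ _)) hs0
  · rw [Real.mul_rpow hδ.le hF.le]
    have h1 : √δ ≤ δ ^ (1 / (2 * (P : ℝ))) := by
      rw [Real.sqrt_eq_rpow]
      apply Real.rpow_le_rpow_of_exponent_ge hδ hδ1
      rw [div_le_div_iff₀ (by positivity) (by norm_num)]
      linarith
    calc √δ * min (min (√F) (√N * F ^ (1 / (2 * (P : ℝ))))) N ≤
        δ ^ (1 / (2 * (P : ℝ))) * (√N * F ^ (1 / (2 * (P : ℝ)))) :=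
          mul_le_mul h1 ((min_le_left _ _).trans (min_le_right _ _)) h0 (by positivity)
      _ = √N * (δ ^ (1 / (2 * (P : ℝ))) * F ^ (1 / (2 * (P : ℝ)))) := by ring
  · calc √δ * min (min (√F) (√N * F ^ (1 / (2 * (P : ℝ))))) N ≤ 1 * N :=
          mul_le_mul hs1 (min_le_right _ _) h0 (by norm_num)
      _ = N := one_mul _

/-- **Large sums in the class** -/
theorem class_main (P : ℕ) (hP : 1 ≤ P) (s η : ℝ) (hs : 0 < s) (hη : 0 < η) :
    ∃ c : ℝ, 0 < c ∧ ∃ N₀ : ℝ, 16 ≤ N₀ ∧ ∀ N y : ℝ, N₀ ≤ N → N₀ ≤ y * N ^ (-s) →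
      ∃ f : ℝ → ℝ, ClassP N P s y η f ∧
        (∀ p : ℕ, ∀ x ∈ Set.Icc N (2 * N), |iteratedDerivWithin (p + 1) f (Set.Icc N (2 * N)) x| ≤
          (poch s p + 1) * (y * N ^ (-s - (p : ℝ))) + Aseq (p + 1)) ∧ ∃ N' : ℝ, N ≤ N' ∧ N' ≤ 2 * N ∧
        c * size P N (y * N ^ (-s) * N) / Real.log N ≤ ‖∑ n ∈ Icc ⌈N⌉₊ ⌊N'⌋₊, E (f n)‖ := by
  obtain ⟨c, hc, N₀, hN₀, hmain⟩ := main P hP 1 one_pos
  have hm0 : 0 < min s 1 := by positivity
  set δ : ℝ := min 1 (η * ((min s 1) ^ P * 2 ^ (-s - (P : ℝ)))) with hδ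
  have hδ0 : 0 < δ := by positivity
  have hδ1 : δ ≤ 1 := min_le_left _ _
  refine ⟨c * √δ, by positivity, N₀ / δ, ?_, ?_⟩
  · rw [le_div_iff₀ hδ0]
    nlinarith
  intro N y hN hL
  have hN₀' : N₀ ≤ N₀ / δ := by
    rw [le_div_iff₀ hδ0]
    nlinarith
  have hN1 : N₀ ≤ N := hN₀'.trans hN
  have hN0 : 0 < N := by linarith
  have hNs : 0 < N ^ (-s) := Real.rpow_pos_of_pos hN0 _
  have hL0 : 0 < y * N ^ (-s) := by linarith
  have hy : 0 < y := pos_of_mul_pos_left hL0 hNs.le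
  have hF0 : 0 < y * N ^ (-s) * N := by positivity
  have hG : N₀ * N ≤ δ * (y * N ^ (-s) * N) := by
    have h1 : N₀ ≤ y * N ^ (-s) * δ := by
      rw [div_le_iff₀ hδ0] at hL
      exact hL
    have h2 : N₀ * N ≤ (y * N ^ (-s) * δ) * N := mul_le_mul_of_nonneg_right h1 hN0.le
    linarith
  obtain ⟨w, hw, hwd, hwA, N', hN'1, hN'2, hsum⟩ := hmain N _ hN1 hG (model s y)
  refine ⟨fun x => model s y x + w x, ⟨?_, ?_⟩, ?_, N', hN'1, hN'2, ?_⟩
  · intro x hx
    exact ((model_contDiffAt s y (hN0.trans_le hx.1) _).add hw.contDiffAt).contDiffWithinAt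
  · intro p hp x hx
    have hx0 : 0 < x := hN0.trans_le hx.1
    have hle : ((p + 1 : ℕ) : WithTop ℕ∞) ≤ ((⊤ : ℕ∞) : WithTop ℕ∞) := by exact_mod_cast le_top
    have hcw : ContDiffAt ℝ ((p + 1 : ℕ) : WithTop ℕ∞) w x := hw.contDiffAt.of_le hle
    have hcm : ContDiffAt ℝ ((p + 1 : ℕ) : WithTop ℕ∞) (model s y) x := model_contDiffAt s y hx0 _
    rw [iteratedDerivWithin_eq_iteratedDeriv (uniqueDiffOn_Icc (by linarith)) (hcm.add hcw) hx,
      iteratedDeriv_fun_add hcm hcw, model_iter s y p x hx0, add_sub_cancel_left]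
    refine (hwd (p + 1) (by omega) x hx).trans ?_
    have h1 : 1 * (δ * (y * N ^ (-s) * N)) / N ^ (p + 1) = δ * (y * N ^ (-s - (p : ℝ))) := by
      rw [Real.rpow_sub hN0, Real.rpow_natCast]
      field_simp
      ring
    rw [h1]
    have h2 : (2 * N) ^ (-s - (p : ℝ)) ≤ x ^ (-s - (p : ℝ)) := by
      apply Real.rpow_le_rpow_of_nonpos hx0 hx.2
      have : (0 : ℝ) ≤ p := Nat.cast_nonneg _
      linarith
    rw [Real.mul_rpow (by norm_num) hN0.le] at h2
    have h3 : (2 : ℝ) ^ (-s - (P : ℝ)) ≤ 2 ^ (-s - (p : ℝ)) := by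
      apply Real.rpow_le_rpow_of_exponent_le (by norm_num)
      have : (p : ℝ) ≤ P := by exact_mod_cast hp.le
      linarith
    have h4 := poch_ge hs hp.le
    have hpoch : 0 < poch s p := lt_of_lt_of_le (by positivity) h4
    have hNp : 0 < N ^ (-s - (p : ℝ)) := Real.rpow_pos_of_pos hN0 _
    calc δ * (y * N ^ (-s - (p : ℝ))) ≤ (η * ((min s 1) ^ P * 2 ^ (-s - (P : ℝ)))) * (y * N ^ (-s - (p : ℝ))) := by
          gcongr
          exact min_le_right _ _
      _ ≤ (η * (poch s p * 2 ^ (-s - (p : ℝ)))) * (y * N ^ (-s - (p : ℝ))) := by gcongr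
      _ = η * (poch s p * y * (2 ^ (-s - (p : ℝ)) * N ^ (-s - (p : ℝ)))) := by ring
      _ ≤ η * (poch s p * y * x ^ (-s - (p : ℝ))) := by gcongr
  · intro p x hx
    have hx0 : 0 < x := hN0.trans_le hx.1
    have hle : ((p + 1 : ℕ) : WithTop ℕ∞) ≤ ((⊤ : ℕ∞) : WithTop ℕ∞) := by exact_mod_cast le_top
    have hcw : ContDiffAt ℝ ((p + 1 : ℕ) : WithTop ℕ∞) w x := hw.contDiffAt.of_le hle
    have hcm : ContDiffAt ℝ ((p + 1 : ℕ) : WithTop ℕ∞) (model s y) x := model_contDiffAt s y hx0 _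
    rw [iteratedDerivWithin_eq_iteratedDeriv (uniqueDiffOn_Icc (by linarith)) (hcm.add hcw) hx,
      iteratedDeriv_fun_add hcm hcw, model_iter s y p x hx0]
    refine (abs_add_le _ _).trans ?_
    have h0 := hwA (p + 1) x hx
    have h1 : 1 * (δ * (y * N ^ (-s) * N)) / N ^ (p + 1) = δ * (y * N ^ (-s - (p : ℝ))) := by
      rw [Real.rpow_sub hN0, Real.rpow_natCast]
      field_simp
      ring
    rw [h1] at h0
    have hpoch : 0 < poch s p := lt_of_lt_of_le (by positivity) (poch_ge hs (le_refl p))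
    have hNp : 0 < N ^ (-s - (p : ℝ)) := Real.rpow_pos_of_pos hN0 _
    have hxp : 0 < x ^ (-s - (p : ℝ)) := Real.rpow_pos_of_pos hx0 _
    have h2 : x ^ (-s - (p : ℝ)) ≤ N ^ (-s - (p : ℝ)) := by
      apply Real.rpow_le_rpow_of_nonpos hN0 hx.1
      have : (0 : ℝ) ≤ p := Nat.cast_nonneg _
      linarith
    have h3 : |(-1 : ℝ) ^ p * poch s p * y * x ^ (-s - (p : ℝ))| ≤ poch s p * (y * N ^ (-s - (p : ℝ))) := by
      rw [abs_mul, abs_mul, abs_mul, abs_pow, abs_neg, abs_one, one_pow, one_mul, abs_of_pos hpoch,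
        abs_of_pos hy, abs_of_pos hxp, mul_assoc]
      gcongr
    have h4 : δ * (y * N ^ (-s - (p : ℝ))) ≤ 1 * (y * N ^ (-s - (p : ℝ))) :=
      mul_le_mul_of_nonneg_right hδ1 (by positivity)
    linarith
  · refine le_trans ?_ hsum
    have hlog : 0 < Real.log N := Real.log_pos (by linarith)
    rw [div_le_div_iff_of_pos_right hlog, mul_assoc]
    exact mul_le_mul_of_nonneg_left (size_scale hP hN0 hF0 hδ0 hδ1) hc.le

/-- comparison of exponents -/
lemma exp_cmp {c C u v N₁ : ℝ} (hc : 0 < c)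
    (h : ∀ N : ℝ, N₁ ≤ N → c * N ^ u / Real.log N ≤ C * N ^ v) : u ≤ v := by
  by_contra hlt
  push Not at hlt
  have hlo := isLittleO_log_rpow_atTop (r := u - v) (by linarith)
  have hC0 : 0 < |C| + 1 := by positivity
  have h2 := hlo.def (c := c / (2 * (|C| + 1))) (by positivity)
  obtain ⟨N, hN⟩ := (h2.and (Filter.eventually_ge_atTop (max N₁ 3))).exists
  obtain ⟨hN2, hN3⟩ := hN
  have hN0 : 3 ≤ N := (le_max_right _ _).trans hN3
  have hNpos : 0 < N := by linarith
  have hlog : 0 < Real.log N := Real.log_pos (by linarith)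
  have hpow : 0 < N ^ (u - v) := Real.rpow_pos_of_pos hNpos _
  rw [Real.norm_eq_abs, Real.norm_eq_abs, abs_of_pos hlog, abs_of_pos hpow] at hN2
  have h3 := h N ((le_max_left _ _).trans hN3)
  rw [div_le_iff₀ hlog] at h3
  have hv : 0 < N ^ v := Real.rpow_pos_of_pos hNpos _
  have h4 : N ^ u = N ^ (u - v) * N ^ v := by
    rw [← Real.rpow_add hNpos]
    congr 1
    ring
  rw [h4] at h3
  have h5 : C * N ^ v * Real.log N ≤ (|C| + 1) * N ^ v * (c / (2 * (|C| + 1)) * N ^ (u - v)) := by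
    have : C ≤ |C| + 1 := (le_abs_self C).trans (by linarith)
    gcongr
  have h6 : (|C| + 1) * N ^ v * (c / (2 * (|C| + 1)) * N ^ (u - v)) = c * N ^ (u - v) * N ^ v / 2 := by
    field_simp
  have h7 : 0 < c * N ^ (u - v) * N ^ v := by positivity
  linarith

/-- **Necessary conditions for a pair valid in the class with `P` conditions** -/
theorem necessary {P : ℕ} (hP : 2 ≤ P) {s η k l C N₁ : ℝ} (hs : 0 < s) (hη : 0 < η)
    (h : ∀ N y : ℝ, N₁ ≤ N → N₁ ≤ y * N ^ (-s) → ∀ f : ℝ → ℝ, ClassP N P s y η f → ∀ N' : ℝ, N ≤ N' →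
      N' ≤ 2 * N → ‖∑ n ∈ Icc ⌈N⌉₊ ⌊N'⌋₊, E (f n)‖ ≤ C * (y * N ^ (-s)) ^ k * N ^ l) :
    1 ≤ ((P : ℝ) - 1) * k + l ∧ 1 / 2 ≤ k + ((P : ℝ) - 1) * (l - 1 / 2) := by
  obtain ⟨c, hc, N₀, hN₀, hmain⟩ := class_main P (by omega) s η hs hη
  have hP2 : (2 : ℝ) ≤ P := by exact_mod_cast hP
  -- the sums for `L = N ^ r`
  have key : ∀ r u : ℝ, 0 < r → (∀ N : ℝ, 1 ≤ N → N ^ u ≤ size P N (N ^ r * N)) → u ≤ r * k + l := by
    intro r u hr hsize
    apply exp_cmp (c := c) (C := C) (N₁ := max (max N₀ N₁) (max 1 ((max N₀ N₁) ^ (1 / r)))) hc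
    intro N hN
    have hN1 : 1 ≤ N := ((le_max_left _ _).trans (le_max_right _ _)).trans hN
    have hNN0 : N₀ ≤ N := ((le_max_left _ _).trans (le_max_left _ _)).trans hN
    have hNN1 : N₁ ≤ N := ((le_max_right _ _).trans (le_max_left _ _)).trans hN
    have hNr : (max N₀ N₁) ^ (1 / r) ≤ N := ((le_max_right _ _).trans (le_max_right _ _)).trans hN
    have hN0 : 0 < N := by linarith
    have hmx : 0 ≤ max N₀ N₁ := le_trans (by linarith) (le_max_left _ _)
    have hr2 : max N₀ N₁ ≤ N ^ r := by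
      calc max N₀ N₁ = ((max N₀ N₁) ^ (1 / r)) ^ r := by
            rw [← Real.rpow_mul hmx, one_div_mul_cancel hr.ne', Real.rpow_one]
        _ ≤ N ^ r := Real.rpow_le_rpow (by positivity) hNr hr.le
    have hy : N ^ r * N ^ s * N ^ (-s) = N ^ r := by
      rw [mul_assoc, ← Real.rpow_add hN0, add_neg_cancel, Real.rpow_zero, mul_one]
    obtain ⟨f, hf, -, N', hN'1, hN'2, hsum⟩ := hmain N (N ^ r * N ^ s) hNN0 (by
      rw [hy]; exact (le_max_left _ _).trans hr2)
    have h2 := h N (N ^ r * N ^ s) hNN1 (by rw [hy]; exact (le_max_right _ _).trans hr2) f hf N' hN'1 hN'2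
    rw [hy] at hsum h2
    have hlog : 0 ≤ Real.log N := Real.log_nonneg hN1
    calc c * N ^ u / Real.log N ≤ c * size P N (N ^ r * N) / Real.log N := by
          have := hsize N hN1
          gcongr
      _ ≤ _ := hsum
      _ ≤ C * (N ^ r) ^ k * N ^ l := h2
      _ = C * N ^ (r * k + l) := by
          rw [← Real.rpow_mul hN0.le, mul_assoc, ← Real.rpow_add hN0]
  have hP1 : (0 : ℝ) < P - 1 := by linarith
  constructor
  · have h1 := key ((P : ℝ) - 1) 1 hP1 (by
      intro N hN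
      have hN0 : 0 < N := by linarith
      have e1 : N ^ ((P : ℝ) - 1) * N = N ^ (P : ℝ) := by
        nth_rewrite 2 [← Real.rpow_one N]
        rw [← Real.rpow_add hN0]
        congr 1
        ring
      rw [e1, Real.rpow_one]
      unfold size
      refine le_min (le_min ?_ ?_) le_rfl
      · rw [Real.sqrt_eq_rpow, ← Real.rpow_mul hN0.le]
        calc N = N ^ (1 : ℝ) := (Real.rpow_one N).symm
          _ ≤ N ^ ((P : ℝ) * (1 / 2)) := Real.rpow_le_rpow_of_exponent_le hN (by linarith)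
      · rw [Real.sqrt_eq_rpow, ← Real.rpow_mul hN0.le, ← Real.rpow_add hN0]
        have e2 : 1 / 2 + (P : ℝ) * (1 / (2 * (P : ℝ))) = 1 := by
          field_simp
          norm_num
        rw [e2, Real.rpow_one])
    exact h1
  · have h1 := key (1 / ((P : ℝ) - 1)) ((P : ℝ) / (2 * ((P : ℝ) - 1))) (by positivity) (by
      intro N hN
      have hN0 : 0 < N := by linarith
      have e1 : N ^ (1 / ((P : ℝ) - 1)) * N = N ^ ((P : ℝ) / ((P : ℝ) - 1)) := by
        nth_rewrite 2 [← Real.rpow_one N]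
        rw [← Real.rpow_add hN0]
        congr 1
        field_simp
        ring
      rw [e1]
      unfold size
      refine le_min (le_min ?_ ?_) ?_
      · rw [Real.sqrt_eq_rpow, ← Real.rpow_mul hN0.le]
        apply Real.rpow_le_rpow_of_exponent_le hN
        apply le_of_eq
        field_simp
      · rw [Real.sqrt_eq_rpow, ← Real.rpow_mul hN0.le, ← Real.rpow_add hN0]
        apply Real.rpow_le_rpow_of_exponent_le hN
        apply le_of_eq
        field_simp
        ring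
      · calc N ^ ((P : ℝ) / (2 * ((P : ℝ) - 1))) ≤ N ^ (1 : ℝ) := by
              apply Real.rpow_le_rpow_of_exponent_le hN
              rw [div_le_one (by positivity)]
              linarith
          _ = N := Real.rpow_one N)
    rw [div_le_iff₀ (by positivity)] at h1
    have e3 : (1 / ((P : ℝ) - 1) * k + l) * (2 * ((P : ℝ) - 1)) = 2 * k + 2 * l * ((P : ℝ) - 1) := by
      field_simp
    rw [e3] at h1
    linarith

end Pool.Agent.H502.XQ
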