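import Pool.Agent.H502.XQ.D8

/-!
# Consequences for exponents
-/

set_option autoImplicit false

open Finset

namespace Pool.Agent.H502.XQ

lemma size_pow {P : ℕ} {N t : ℝ} (hN : 1 ≤ N) :
    N ^ (min (min (t / 2) (1 / 2 + t / (2 * (P : ℝ)))) 1) ≤ size P N (N ^ t) := by
  have hN0 : 0 < N := by linarith
  unfold size
  refine le_min (le_min ?_ ?_) ?_
  · rw [Real.sqrt_eq_rpow, ← Real.rpow_mul hN0.le]
    apply Real.rpow_le_rpow_of_exponent_le hN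
    have := (min_le_left (min (t / 2) (1 / 2 + t / (2 * (P : ℝ)))) 1).trans (min_le_left _ _)
    linarith
  · rw [Real.sqrt_eq_rpow, ← Real.rpow_mul hN0.le, ← Real.rpow_add hN0]
    apply Real.rpow_le_rpow_of_exponent_le hN
    have := (min_le_left (min (t / 2) (1 / 2 + t / (2 * (P : ℝ)))) 1).trans (min_le_right _ _)
    have e : t * (1 / (2 * (P : ℝ))) = t / (2 * (P : ℝ)) := by ring
    rw [e]
    exact this
  · calc N ^ (min (min (t / 2) (1 / 2 + t / (2 * (P : ℝ)))) 1) ≤ N ^ (1 : ℝ) :=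
          Real.rpow_le_rpow_of_exponent_le hN (min_le_right _ _)
      _ = N := Real.rpow_one N

/-- **The exponent of the largest sums of the class for `F = N ^ t`** -/
theorem at_power {P : ℕ} (hP : 1 ≤ P) {s η t v C N₁ : ℝ} (hs : 0 < s) (hη : 0 < η) (ht : 1 < t)
    (h : ∀ N : ℝ, N₁ ≤ N → ∀ f : ℝ → ℝ, ClassP N P s (N ^ (t - 1 + s)) η f → ∀ N' : ℝ, N ≤ N' →
      N' ≤ 2 * N → ‖∑ n ∈ Icc ⌈N⌉₊ ⌊N'⌋₊, E (f n)‖ ≤ C * N ^ v) :
    min (min (t / 2) (1 / 2 + t / (2 * (P : ℝ)))) 1 ≤ v := by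
  obtain ⟨c, hc, N₀, hN₀, hmain⟩ := class_main P hP s η hs hη
  have hr : 0 < t - 1 := by linarith
  apply exp_cmp (c := c) (C := C) (N₁ := max (max N₀ N₁) (max 1 (N₀ ^ (1 / (t - 1))))) hc
  intro N hN
  have hN1 : 1 ≤ N := ((le_max_left _ _).trans (le_max_right _ _)).trans hN
  have hNN0 : N₀ ≤ N := ((le_max_left _ _).trans (le_max_left _ _)).trans hN
  have hNN1 : N₁ ≤ N := ((le_max_right _ _).trans (le_max_left _ _)).trans hN
  have hNr : N₀ ^ (1 / (t - 1)) ≤ N := ((le_max_right _ _).trans (le_max_right _ _)).trans hN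
  have hN0 : 0 < N := by linarith
  have hN₀0 : 0 ≤ N₀ := by linarith
  have hr2 : N₀ ≤ N ^ (t - 1) := by
    calc N₀ = (N₀ ^ (1 / (t - 1))) ^ (t - 1) := by
          rw [← Real.rpow_mul hN₀0, one_div_mul_cancel hr.ne', Real.rpow_one]
      _ ≤ N ^ (t - 1) := Real.rpow_le_rpow (by positivity) hNr hr.le
  have hy : N ^ (t - 1 + s) * N ^ (-s) = N ^ (t - 1) := by
    rw [← Real.rpow_add hN0]
    congr 1
    ring
  obtain ⟨f, hf, -, N', hN'1, hN'2, hsum⟩ := hmain N (N ^ (t - 1 + s)) hNN0 (by rw [hy]; exact hr2)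
  have h2 := h N hNN1 f hf N' hN'1 hN'2
  have hF : N ^ (t - 1) * N = N ^ t := by
    nth_rewrite 2 [← Real.rpow_one N]
    rw [← Real.rpow_add hN0]
    congr 1
    ring
  rw [hy, hF] at hsum
  have hlog : 0 ≤ Real.log N := Real.log_nonneg hN1
  calc c * N ^ (min (min (t / 2) (1 / 2 + t / (2 * (P : ℝ)))) 1) / Real.log N
      ≤ c * size P N (N ^ t) / Real.log N := by
        have := size_pow (P := P) (t := t) hN1
        gcongr
    _ ≤ _ := hsum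
    _ ≤ _ := h2

/-- **Necessary conditions for a pair valid in the class with `P` conditions** -/
theorem pair_necessary {P : ℕ} (hP : 2 ≤ P) {s η k l C N₁ : ℝ} (hs : 0 < s) (hη : 0 < η)
    (h : ∀ N y : ℝ, N₁ ≤ N → N₁ ≤ y * N ^ (-s) → ∀ f : ℝ → ℝ, ClassP N P s y η f → ∀ N' : ℝ, N ≤ N' →
      N' ≤ 2 * N → ‖∑ n ∈ Icc ⌈N⌉₊ ⌊N'⌋₊, E (f n)‖ ≤ C * (y * N ^ (-s)) ^ k * N ^ l) :
    1 ≤ ((P : ℝ) - 1) * k + l ∧ 1 / 2 ≤ k + ((P : ℝ) - 1) * (l - 1 / 2) :=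
  necessary hP hs hη h

/-- **The bound `N ^ (1/2) F ^ θ` for `F = N ^ t`** -/
theorem half_bound {P : ℕ} (hP : 1 ≤ P) {s η t θ C N₁ : ℝ} (hs : 0 < s) (hη : 0 < η) (ht : 1 < t)
    (h : ∀ N : ℝ, N₁ ≤ N → ∀ f : ℝ → ℝ, ClassP N P s (N ^ (t - 1 + s)) η f → ∀ N' : ℝ, N ≤ N' →
      N' ≤ 2 * N → ‖∑ n ∈ Icc ⌈N⌉₊ ⌊N'⌋₊, E (f n)‖ ≤ C * N ^ (1 / 2 : ℝ) * (N ^ t) ^ θ) :
    min (min (1 / 2 - 1 / (2 * t)) (1 / (2 * (P : ℝ)))) (1 / (2 * t)) ≤ θ := by
  have h1 := at_power hP (N₁ := max N₁ 1) (C := C) (v := 1 / 2 + t * θ) hs hη ht (by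
    intro N hN f hf N' hN'1 hN'2
    have hN0 : 0 < N := lt_of_lt_of_le one_pos ((le_max_right _ _).trans hN)
    have h2 := h N ((le_max_left _ _).trans hN) f hf N' hN'1 hN'2
    rwa [← Real.rpow_mul hN0.le, mul_assoc, ← Real.rpow_add hN0] at h2)
  have ht0 : 0 < t := by linarith
  have hP0 : (0 : ℝ) < P := by exact_mod_cast hP
  by_contra hlt
  push Not at hlt
  have g1 : θ < 1 / 2 - 1 / (2 * t) := hlt.trans_le ((min_le_left _ _).trans (min_le_left _ _))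
  have g2 : θ < 1 / (2 * (P : ℝ)) := hlt.trans_le ((min_le_left _ _).trans (min_le_right _ _))
  have g3 : θ < 1 / (2 * t) := hlt.trans_le (min_le_right _ _)
  have k1 : t * θ < t * (1 / 2 - 1 / (2 * t)) := by gcongr
  have k2 : t * θ < t * (1 / (2 * (P : ℝ))) := by gcongr
  have k3 : t * θ < t * (1 / (2 * t)) := by gcongr
  have e1 : t * (1 / 2 - 1 / (2 * t)) = t / 2 - 1 / 2 := by field_simp
  have e2 : t * (1 / (2 * (P : ℝ))) = t / (2 * (P : ℝ)) := by ring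
  have e3 : t * (1 / (2 * t)) = 1 / 2 := by field_simp
  rw [e1] at k1
  rw [e2] at k2
  rw [e3] at k3
  have : 1 / 2 + t * θ < min (min (t / 2) (1 / 2 + t / (2 * (P : ℝ)))) 1 :=
    lt_min (lt_min (by linarith) (by linarith)) (by linarith)
  linarith

end Pool.Agent.H502.XQ
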